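import Mathlib

/-! Comparison principle for lattice differential inequalities with activation times. -/

open Set Filter Topology

namespace Pool.Agent.Helper24.TB

/-- positive part of `D` on the active region -/
noncomputable def act (α : ℤ → ℝ) (D : ℝ → ℤ → ℝ) (t : ℝ) (x : ℤ) : ℝ :=
  open Classical in if α x ≤ t then max (D t x) 0 else 0

theorem cmp {D D' : ℝ → ℤ → ℝ} {α : ℤ → ℝ} {T0 T1 M C : ℝ} (hM : 0 ≤ M) (hC : 0 ≤ C)
    (hα : ∀ x, T0 ≤ α x)
    (hbd : ∀ t x, α x ≤ t → t ≤ T1 → D t x ≤ M)
    (hcont : ∀ x, ContinuousOn (fun t => D t x) (Icc (α x) T1))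
    (hder : ∀ x t, α x ≤ t → t < T1 → HasDerivWithinAt (fun s => D s x) (D' t x) (Ici t) t)
    (h0 : ∀ x, α x ≤ T1 → D (α x) x ≤ 0)
    (hineq : ∀ x t, α x ≤ t → t < T1 → 0 < D t x →
      D' t x ≤ C * (D t x + act α D t (x + 1) + act α D t (x - 1))) :
    ∀ x t, α x ≤ t → t ≤ T1 → D t x ≤ 0 := by
  have key : ∀ n : ℕ, ∀ x t, α x ≤ t → t ≤ T1 →
      D t x ≤ M * ((3 * C * (t - T0)) ^ n / (n.factorial : ℝ)) := by
    intro n
    induction n with
    | zero => intro x t h1 h2; simpa using hbd t x h1 h2
    | succ n ih =>
      intro x t h1 h2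
      have hact : ∀ s z, T0 ≤ s → s ≤ T1 → act α D s z ≤
          M * ((3 * C * (s - T0)) ^ n / (n.factorial : ℝ)) := by
        intro s z hs0 hs
        have hpos : 0 ≤ M * ((3 * C * (s - T0)) ^ n / (n.factorial : ℝ)) := by
          have : 0 ≤ s - T0 := by linarith
          positivity
        unfold act
        split_ifs with h
        · exact max_le (ih z s h hs) hpos
        · exact hpos
      refine le_of_forall_pos_le_add fun δ hδ => ?_
      have hδ' : 0 < δ / (1 + (T1 - T0)) := by
        have : T0 ≤ T1 := (hα x).trans (h1.trans h2)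
        have : 0 < 1 + (T1 - T0) := by linarith
        positivity
      set η := δ / (1 + (T1 - T0)) with hη
      have main := image_le_of_deriv_right_lt_deriv_boundary' (f := fun s => D s x)
        (f' := fun s => D' s x) (a := α x) (b := t)
        (B := fun s => M * ((3 * C * (s - T0)) ^ (n + 1) / ((n + 1).factorial : ℝ)) +
          η * (1 + (s - T0)))
        (B' := fun s => M * (3 * C * ((3 * C * (s - T0)) ^ n / (n.factorial : ℝ))) + η)
        ((hcont x).mono (Icc_subset_Icc_right h2))
        (fun s hs => hder x s hs.1 (hs.2.trans_le h2)) ?_ ?_ ?_ ?_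
      · have h3 := main ⟨h1, le_rfl⟩
        refine h3.trans ?_
        gcongr
        have h4 : η * (1 + (t - T0)) ≤ η * (1 + (T1 - T0)) := by gcongr
        refine h4.trans ?_
        rw [hη, div_mul_cancel₀]
        have : T0 ≤ T1 := (hα x).trans (h1.trans h2)
        linarith
      · have h5 : D (α x) x ≤ 0 := h0 x (h1.trans h2)
        have h6 : 0 ≤ α x - T0 := by linarith [hα x]
        refine h5.trans ?_
        positivity
      · fun_prop
      · intro s _
        apply HasDerivAt.hasDerivWithinAt
        have h7 : HasDerivAt (fun s : ℝ => 3 * C * (s - T0)) (3 * C) s := by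
          simpa using ((hasDerivAt_id s).sub_const T0).const_mul (3 * C)
        have h8 := ((h7.pow (n + 1)).div_const ((n + 1).factorial : ℝ)).const_mul M
        have h9 : HasDerivAt (fun s : ℝ => η * (1 + (s - T0))) η s := by
          simpa using (((hasDerivAt_id s).sub_const T0).const_add 1).const_mul η
        refine (h8.add h9).congr_deriv ?_
        congr 1
        rw [Nat.factorial_succ]
        push_cast
        have : (n.factorial : ℝ) ≠ 0 := by positivity
        have : ((n : ℝ) + 1) ≠ 0 := by positivity
        field_simp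
      · intro s hs hsB
        have hsT0 : T0 ≤ s := (hα x).trans hs.1
        have hs1 : s ≤ T1 := (hs.2.trans_le h2).le
        have hpos : 0 < D s x := by
          have : 0 ≤ s - T0 := by linarith
          rw [hsB]
          positivity
        have e1 := hineq x s hs.1 (hs.2.trans_le h2) hpos
        have e2 := ih x s hs.1 hs1
        have e3 := hact s (x + 1) hsT0 hs1
        have e4 := hact s (x - 1) hsT0 hs1
        have e5 : C * (D s x + act α D s (x + 1) + act α D s (x - 1)) ≤
            C * (3 * (M * ((3 * C * (s - T0)) ^ n / (n.factorial : ℝ)))) := by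
          gcongr
          linarith
        have e6 : C * (3 * (M * ((3 * C * (s - T0)) ^ n / (n.factorial : ℝ)))) =
          M * (3 * C * ((3 * C * (s - T0)) ^ n / (n.factorial : ℝ))) := by ring
        linarith
  intro x t h1 h2
  have lim : Tendsto (fun n : ℕ => M * ((3 * C * (t - T0)) ^ n / (n.factorial : ℝ))) atTop
      (𝓝 (M * 0)) :=
    (FloorSemiring.tendsto_pow_div_factorial_atTop (3 * C * (t - T0))).const_mul M
  rw [mul_zero] at lim
  exact ge_of_tendsto' lim fun n => key n x t h1 h2

end Pool.Agent.Helper24.TB
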