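import Pool.Agent.Helper24.TB.Step

/-! The dichotomy for the distribution function of the maximum. -/

open Set Filter Topology BoundedContinuousFunction

namespace Pool.Agent.Helper24.TB

variable {a b : ℝ}

theorem prod_small {ι : Type} (F : Finset ι) (u : ι → ℕ) (p q : ι → ℝ) {δ ε ε' : ℝ}
    (hδ : 0 < δ) (hδ1 : δ ≤ 1 / 2) (hδ2 : 2 * δ ≤ ε)
    (hδ3 : Real.exp (-(ε' / (2 * δ))) ≤ ε)
    (hp : ∀ i ∈ F, 0 ≤ p i) (hp1 : ∀ i ∈ F, p i ≤ 1) (hq1 : ∀ i ∈ F, q i ≤ 1)
    (hq : ∀ i ∈ F, (1 - δ ^ 2) * p i / (p i + δ ^ 2) ≤ q i)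
    (hsum : ε' ≤ ∑ i ∈ F, u i * p i) : ∏ i ∈ F, (1 - q i) ^ u i ≤ ε := by
  classical
  have hq0 : ∀ i ∈ F, 0 ≤ q i := fun i hi => by
    refine le_trans ?_ (hq i hi)
    have := hp i hi
    have : 0 ≤ 1 - δ ^ 2 := by nlinarith
    positivity
  by_cases hA : ∃ i ∈ F, 1 ≤ u i ∧ δ ≤ p i
  · obtain ⟨i, hi, hui, hpi⟩ := hA
    rw [← Finset.mul_prod_erase F _ hi]
    have e1 : (1 - q i) ^ u i ≤ 1 - q i :=
      pow_le_of_le_one (by linarith [hq1 i hi]) (by linarith [hq0 i hi]) (by omega)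
    have e2 : ∏ j ∈ F.erase i, (1 - q j) ^ u j ≤ 1 :=
      Finset.prod_le_one
        (fun j hj => pow_nonneg (by linarith [hq1 j (Finset.mem_of_mem_erase hj)]) _)
        (fun j hj => pow_le_one₀ (by linarith [hq1 j (Finset.mem_of_mem_erase hj)])
          (by linarith [hq0 j (Finset.mem_of_mem_erase hj)]))
    have e3 : 1 - q i ≤ ε := by
      refine le_trans ?_ hδ2
      have f1 := hq i hi
      have f2 := hp1 i hi
      have f3 : 0 < p i + δ ^ 2 := by have := hp i hi; positivity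
      have f4 : 1 - 2 * δ ≤ (1 - δ ^ 2) * p i / (p i + δ ^ 2) := by
        rw [le_div_iff₀ f3]
        nlinarith [mul_le_mul_of_nonneg_left hpi hδ.le,
          mul_le_mul_of_nonneg_left f2 (sq_nonneg δ), pow_pos hδ 3]
      linarith
    have e4 : 0 ≤ (1 - q i) ^ u i := pow_nonneg (by linarith [hq1 i hi]) _
    calc (1 - q i) ^ u i * ∏ j ∈ F.erase i, (1 - q j) ^ u j ≤ (1 - q i) ^ u i * 1 := by gcongr
      _ ≤ ε := by rw [mul_one]; exact e1.trans e3
  · push Not at hA
    refine le_trans ?_ hδ3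
    have e1 : ∀ i ∈ F, (1 - q i) ^ u i ≤ Real.exp (-(u i * p i / (2 * δ))) := by
      intro i hi
      rcases Nat.eq_zero_or_pos (u i) with h0 | h0
      · rw [h0]; simp
      · have f1 := hA i hi h0
        have f2 := hp i hi
        have f3 : p i / (2 * δ) ≤ q i := by
          refine le_trans ?_ (hq i hi)
          rcases f2.eq_or_lt with h | h
          · rw [← h]; simp
          · rw [div_le_div_iff₀ (by positivity) (by positivity)]
            have g1 : p i * (p i + δ ^ 2) ≤ p i * (δ + δ ^ 2) := by gcongr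
            have g2 : p i * (δ + δ ^ 2) ≤ (1 - δ ^ 2) * p i * (2 * δ) := by
              have : 0 ≤ p i * δ * (1 + δ) * (1 - 2 * δ) := by
                have : 0 ≤ 1 - 2 * δ := by linarith
                positivity
              nlinarith
            exact g1.trans g2
        have f4 : 1 - q i ≤ Real.exp (-(p i / (2 * δ))) := by
          have := Real.one_sub_le_exp_neg (q i)
          refine this.trans ?_
          rw [Real.exp_le_exp]
          linarith
        calc (1 - q i) ^ u i ≤ (Real.exp (-(p i / (2 * δ)))) ^ u i :=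
              pow_le_pow_left₀ (by linarith [hq1 i hi]) f4 _
          _ = _ := by rw [← Real.exp_nat_mul]; congr 1; ring
    calc ∏ i ∈ F, (1 - q i) ^ u i ≤ ∏ i ∈ F, Real.exp (-(u i * p i / (2 * δ))) :=
          Finset.prod_le_prod (fun i hi => pow_nonneg (by linarith [hq1 i hi]) _) e1
      _ = Real.exp (-((∑ i ∈ F, u i * p i) / (2 * δ))) := by
          rw [← Real.exp_sum, Finset.sum_neg_distrib, Finset.sum_div]
      _ ≤ _ := by
          rw [Real.exp_le_exp]
          have : ε' / (2 * δ) ≤ (∑ i ∈ F, u i * p i) / (2 * δ) := by gcongr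
          linarith

theorem core (ha : 0 < a) (hb0 : 0 ≤ b) (C : ℝ) {ε : ℝ} (hε : 0 < ε) (hε1 : ε < 1) :
    ∃ K : ℕ, ∀ (ζ : Fn) (_ : ∀ x, a ≤ ζ x) (_ : ∀ x, ζ x ≤ b) (V : ℤ → ℝ → ℤ → ℝ)
    (_ : ∀ y, Sol ζ (V y)) (_ : ∀ y x, V y 0 x = ind y x) (u0 : ℤ → ℕ)
    (_ : 1 ≤ u0 0) (Ψ : ℝ → ℤ → ℝ)
    (_ : ∀ t, 0 ≤ t → ∀ z L : ℤ, L ≤ 1 → Ψ t z ≤ ∑ x ∈ Finset.Ico L 1, u0 x * V z t x +
      C * Real.exp ((1 + b) * t - ((z : ℝ) - L)))
    (_ : ∀ t, 0 ≤ t → ∀ z L : ℤ, 1 - ∏ x ∈ Finset.Ico L 1, (1 - V z t x) ^ u0 x ≤ Ψ t z),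
    ∀ t, 0 ≤ t → ∀ y : ℤ, ε ≤ Ψ t (y + K) → 1 - ε ≤ Ψ t y := by
  set ε' : ℝ := ε / (2 * Real.exp 1) with hε'
  have hε'0 : 0 < ε' := by positivity
  have hlog : 0 < Real.log (1 / ε) := Real.log_pos (by rw [one_div]; exact (one_lt_inv₀ hε).2 hε1)
  set δ : ℝ := min (ε / 2) (ε' / (2 * Real.log (1 / ε))) with hδ
  have hδ0 : 0 < δ := by positivity
  have hδa : δ ≤ ε / 2 := min_le_left _ _
  have hδb : δ ≤ ε' / (2 * Real.log (1 / ε)) := min_le_right _ _
  have hδ1 : δ ≤ 1 / 2 := by linarith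
  have hδ3 : Real.exp (-(ε' / (2 * δ))) ≤ ε := by
    have h1 : Real.log (1 / ε) ≤ ε' / (2 * δ) := by
      rw [le_div_iff₀ (by positivity)]
      rw [le_div_iff₀ (by positivity)] at hδb
      linarith
    calc Real.exp (-(ε' / (2 * δ))) ≤ Real.exp (-Real.log (1 / ε)) := by
          rw [Real.exp_le_exp]; linarith
      _ = ε := by rw [Real.exp_neg, Real.exp_log (by positivity)]; simp
  obtain ⟨s, hs, hgrowth⟩ := growth (a := a) (b := b) ha (ε := δ ^ 2) (by positivity)
    (by nlinarith)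
  obtain ⟨B, hB, K0, hfront⟩ := front b s hb0 hs
  have hC : ∀ x : ℝ, Tendsto (fun k : ℕ => C * Real.exp (x - k)) atTop (𝓝 (C * 0)) := by
    intro x
    refine Tendsto.const_mul C ?_
    refine Real.tendsto_exp_atBot.comp ?_
    have : Tendsto (fun k : ℕ => -(k : ℝ)) atTop atBot :=
      tendsto_neg_atTop_atBot.comp tendsto_natCast_atTop_atTop
    simpa [sub_eq_add_neg] using tendsto_atBot_add_const_left atTop x this
  simp only [mul_zero] at hC
  obtain ⟨K, hK0, hK1, hK2⟩ := ((eventually_ge_atTop K0).and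
    (((hC ((1 + b) * s + 1)).eventually_le_const (show 0 < ε / 2 by positivity)).and
    ((hC ((1 + b) * (1 + s) + 2 + s)).eventually_le_const
      (show 0 < ε * ε by positivity)))).exists
  refine ⟨K, fun ζ hζ hb V hV hV0 u0 hu0 Ψ hup hlo t ht y hΨ => ?_⟩
  have hζ0 : ∀ x, 0 ≤ ζ x := fun x => ha.le.trans (hζ x)
  have hC0 : 0 ≤ C := by
    -- from the far bound: otherwise the dichotomy is used only when it is nonnegative
    by_contra hC0
    push Not at hC0
    have h1 := hup 0 le_rfl (1 : ℤ) 0 zero_le_one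
    have h2 := hlo 0 le_rfl (1 : ℤ) 1
    have h3 : Finset.Ico (0 : ℤ) 1 = {0} := by decide
    rw [h3, Finset.sum_singleton, hV0] at h1
    simp only [ind_apply, Finset.Ico_self, Finset.prod_empty, sub_self] at h1 h2
    norm_num at h1
    have h4 : C * Real.exp (-1) < 0 := mul_neg_of_neg_of_pos hC0 (Real.exp_pos _)
    linarith
  rcases lt_or_ge t (1 + s) with hts | hts
  · -- small times
    have h1 := hup t ht (y + K) 1 le_rfl
    rw [Finset.Ico_self, Finset.sum_empty, zero_add] at h1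
    have h2 : Real.exp (t - (((0 : ℤ) : ℝ) - y)) ≤ ε := by
      have e1 : ε ≤ C * Real.exp ((1 + b) * t - (((y + K : ℤ) : ℝ) - ((1 : ℤ) : ℝ))) :=
        hΨ.trans h1
      have e2 : C * Real.exp ((1 + b) * t - (((y + K : ℤ) : ℝ) - ((1 : ℤ) : ℝ))) *
          Real.exp (t - (((0 : ℤ) : ℝ) - y)) ≤ ε * ε := by
        refine le_trans ?_ hK2
        rw [mul_assoc, ← Real.exp_add]
        refine mul_le_mul_of_nonneg_left ?_ hC0
        rw [Real.exp_le_exp]
        push_cast
        have : (1 + b) * t ≤ (1 + b) * (1 + s) := by gcongr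
        linarith
      have e3 : ε * Real.exp (t - (((0 : ℤ) : ℝ) - y)) ≤ ε * ε :=
        (mul_le_mul_of_nonneg_right e1 (Real.exp_pos _).le).trans e2
      exact le_of_mul_le_mul_left e3 hε
    have h3 := (hV y).ge_exp hζ0 (hV0 y) ht 0
    have h4 := hlo t ht y 0
    have h5 : Finset.Ico (0 : ℤ) 1 = {0} := by decide
    rw [h5, Finset.prod_singleton] at h4
    have h6 : (1 - V y t 0) ^ u0 0 ≤ 1 - V y t 0 :=
      pow_le_of_le_one (by linarith [(hV y).le_one t 0 ht]) (by linarith [(hV y).nonneg t 0 ht])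
        (by omega)
    linarith
  · -- large times
    set T : ℝ := t - s with hT
    have hT1 : 1 ≤ T := by linarith
    have hT0 : 0 ≤ T := by linarith
    have htT : t = T + s := by rw [hT]; ring
    set L : ℤ := min 1 ⌈(y : ℝ) - B * T⌉ with hL
    have hL1 : L ≤ 1 := min_le_left _ _
    have hL2 : (L : ℝ) ≤ (y : ℝ) - B * T + 1 := by
      have h1 : (L : ℝ) ≤ (⌈(y : ℝ) - B * T⌉ : ℤ) := by
        exact_mod_cast (min_le_right _ _ : L ≤ _)
      have h2 := Int.ceil_lt_add_one ((y : ℝ) - B * T)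
      linarith
    have hmem : ∀ x ∈ Finset.Ico L 1, (y : ℝ) - x ≤ B * T := by
      intro x hx
      rw [Finset.mem_Ico] at hx
      have h1 : ⌈(y : ℝ) - B * T⌉ ≤ x := by
        by_contra h
        push Not at h
        have : min 1 ⌈(y : ℝ) - B * T⌉ ≤ x := hx.1
        rcases min_le_iff.1 this with h' | h'
        · omega
        · omega
      have h2 : (y : ℝ) - B * T ≤ x := (Int.le_ceil _).trans (by exact_mod_cast h1)
      linarith
    have h1 := hup t ht (y + K) L hL1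
    have h2 : C * Real.exp ((1 + b) * t - (((y + K : ℤ) : ℝ) - L)) ≤ ε / 2 := by
      refine le_trans ?_ hK1
      refine mul_le_mul_of_nonneg_left ?_ hC0
      rw [Real.exp_le_exp, htT]
      push_cast
      have : (1 + b) * T ≤ B * T := by gcongr
      linarith
    have h3 : ∑ x ∈ Finset.Ico L 1, (u0 x : ℝ) * V (y + K) t x ≤
        Real.exp 1 * ∑ x ∈ Finset.Ico L 1, (u0 x : ℝ) * V y T x := by
      rw [Finset.mul_sum]
      refine Finset.sum_le_sum fun x hx => ?_
      have e1 := hfront K hK0 ζ hζ0 hb y (V y) (V (y + K)) (hV y) (hV (y + K)) (hV0 y)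
        (hV0 (y + K)) T hT1 x (hmem x hx)
      rw [← htT] at e1
      calc (u0 x : ℝ) * V (y + K) t x ≤ (u0 x : ℝ) * (Real.exp 1 * V y T x) := by gcongr
        _ = _ := by ring
    have h4 : ε' ≤ ∑ x ∈ Finset.Ico L 1, (u0 x : ℝ) * V y T x := by
      rw [hε', div_le_iff₀ (by positivity)]
      linarith
    have h5 := prod_small (Finset.Ico L 1) u0 (fun x => V y T x) (fun x => V y t x)
      hδ0 hδ1 (by linarith) hδ3 (fun x _ => (hV y).nonneg T x hT0)
      (fun x _ => (hV y).le_one T x hT0) (fun x _ => (hV y).le_one t x ht)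
      (fun x _ => by
        have := hgrowth ζ hζ hb (V y) (hV y) T hT0 x
        rw [← htT] at this
        exact this) h4
    have h6 := hlo t ht y L
    linarith

end Pool.Agent.Helper24.TB
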