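import Mathlib

/-!
# Branching random walk on `ℤ` in a space-dependent branching environment

The process is built from independent clocks. Every node of the genealogical tree carries a
`Clock`: an exponential(1) jump clock, an exponential(1) variable that gives, after division by the
branching rate at the site where the node sits, the branching clock, and a fair direction.
A node that sits at `x` lives until the first of its two clocks rings.  If the jump clock rings
first, the particle goes on from the neighbouring site given by the direction (one child,
numbered `false`).  If the branching clock rings first, the particle is replaced by two particles at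
the same site (children `false` and `true`).  Every child uses its own fresh clocks.
-/

open MeasureTheory ProbabilityTheory Set Filter Topology

namespace Pool.Agent.Helper24.TB

/-- the clocks of a node: jump clock, branching clock (before scaling), direction of the jump -/
abbrev Clock : Type := ℝ × ℝ × Bool

/-- a fair coin -/
noncomputable def coin : Measure Bool :=
  (1 / 2 : ENNReal) • Measure.dirac true + (1 / 2 : ENNReal) • Measure.dirac false

/-- law of the clocks of one node -/
noncomputable def clockLaw : Measure Clock :=
  (expMeasure 1).prod ((expMeasure 1).prod coin)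

/-- clocks of all possible nodes that descend from one initial particle -/
abbrev Tree : Type := List Bool → Clock

/-- the clocks of different nodes are independent -/
noncomputable def treeLaw : Measure Tree := Measure.infinitePi fun _ : List Bool => clockLaw

/-- the jump -/
def jump (d : Bool) : ℤ := if d then 1 else -1

/-- `AliveAt ξ w ω x t y`: with the clocks `ω`, the node `w` of the tree of a particle that starts
at `x` at time `0` is alive at time `t` and sits at `y` at that time.  The branching rate at `x`
is `ξ x`. -/
def AliveAt (ξ : ℤ → ℝ) : List Bool → Tree → ℤ → ℝ → ℤ → Prop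
  | [], ω, x, t, y => 0 ≤ t ∧ t < (ω []).1 ∧ t < (ω []).2.1 / ξ x ∧ y = x
  | c :: w, ω, x, t, y =>
      if (ω []).1 ≤ (ω []).2.1 / ξ x then
        (ω []).1 ≤ t ∧ c = false ∧
          AliveAt ξ w (fun u => ω (c :: u)) (x + jump (ω []).2.2) (t - (ω []).1) y
      else
        (ω []).2.1 / ξ x ≤ t ∧
          AliveAt ξ w (fun u => ω (c :: u)) x (t - (ω []).2.1 / ξ x) y

/-- the probability space: one tree of clocks for each possible initial particle `(x, j)` -/
abbrev Space : Type := ℤ × ℕ → Tree

/-- the trees of different initial particles are independent -/
noncomputable def law : Measure Space := Measure.infinitePi fun _ : ℤ × ℕ => treeLaw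

/-- the set of positions of all particles at time `t`, with `u0 x` particles at `x` at time `0` -/
def positions (ξ : ℤ → ℝ) (u0 : ℤ → ℕ) (t : ℝ) (ω : Space) : Set ℤ :=
  {y | ∃ (x : ℤ) (j : ℕ) (w : List Bool), j < u0 x ∧ AliveAt ξ w (ω (x, j)) x t y}

/-- the maximum `M(t)` -/
noncomputable def maxPos (ξ : ℤ → ℝ) (u0 : ℤ → ℕ) (t : ℝ) (ω : Space) : ℤ :=
  sSup (positions ξ u0 t ω)

/-- the median `m(t)` -/
noncomputable def median (ξ : ℤ → ℝ) (u0 : ℤ → ℕ) (t : ℝ) : ℤ :=
  sSup {x : ℤ | 1 / 2 ≤ law {ω | x ≤ maxPos ξ u0 t ω}}

/-- tightness of the recentred maximum -/
def Tight (ξ : ℤ → ℝ) (u0 : ℤ → ℕ) : Prop :=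
  Tendsto (fun K : ℝ => ⨆ (t : ℝ) (_ : 0 ≤ t),
    law {ω | K < |((maxPos ξ u0 t ω - median ξ u0 t : ℤ) : ℝ)|}) atTop (𝓝 0)

end Pool.Agent.Helper24.TB
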