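import Pool.Agent.Helper24.TB.SolV

/-! Tightness of the recentred maximum. -/

open MeasureTheory ProbabilityTheory Set Filter Topology

namespace Pool.Agent.Helper24.TB

variable (ξ : ℤ → ℝ) (u0 : ℤ → ℕ) (z : ℤ) (t : ℝ)

/-- some particle is at `z` or to the right of `z` at time `t` -/
def U : Set Space := {ω | ∃ (x : ℤ) (j : ℕ), j < u0 x ∧ ω (x, j) ∈ Ev ξ z t x}

theorem U_iff (ω : Space) : ω ∈ U ξ u0 z t ↔ ∃ y ∈ positions ξ u0 t ω, z ≤ y := by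
  constructor
  · rintro ⟨x, j, hj, w, y', hy, hw⟩
    exact ⟨y', ⟨x, j, w, hj, hw⟩, hy⟩
  · rintro ⟨y', ⟨x, j, w, hj, hw⟩, hy⟩
    exact ⟨x, j, hj, w, y', hy, hw⟩

theorem law_eval (i : ℤ × ℕ) {E : Set Tree} (hE : MeasurableSet E) :
    law {ω | ω i ∈ E} = treeLaw E :=
  (measurePreserving_eval_infinitePi (fun _ : ℤ × ℕ => treeLaw) i).measure_preimage
    hE.nullMeasurableSet

theorem measurableSet_U : MeasurableSet (U ξ u0 z t) := by
  have : U ξ u0 z t = ⋃ (x : ℤ) (j : ℕ) (_ : j < u0 x), {ω : Space | ω (x, j) ∈ Ev ξ z t x} := by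
    ext ω; simp [U]
  rw [this]
  exact MeasurableSet.iUnion fun x => MeasurableSet.iUnion fun j => MeasurableSet.iUnion fun _ =>
    (measurable_pi_apply (x, j)) (measurableSet_Ev ξ z t x)

theorem exp_neg_one_le : Real.exp (-1) ≤ 1 / 2 := by
  rw [Real.exp_neg, one_div]
  refine inv_anti₀ (by norm_num) ?_
  have := Real.add_one_le_exp (1 : ℝ)
  linarith

variable {ξ u0}

theorem U_le {a b : ℝ} (ha : 0 < a) (h : ∀ x, a ≤ ξ x ∧ ξ x ≤ b) {C : ℕ} (hC : ∀ x, u0 x ≤ C)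
    (hneg : ∀ x, 0 < x → u0 x = 0) {t : ℝ} (ht : 0 ≤ t) (z L : ℤ) (_hL : L ≤ 1) :
    law.real (U ξ u0 z t) ≤ ∑ x ∈ Finset.Ico L 1, u0 x * V ξ z t x +
      C * Real.exp ((1 + b) * t - ((z : ℝ) - L)) := by
  set R : ℝ := C * Real.exp ((1 + b) * t - ((z : ℝ) - L)) with hR
  have hR0 : 0 ≤ R := by positivity
  have hsol := sol_V ξ z ha h
  have hsub : U ξ u0 z t ⊆ (⋃ x ∈ Finset.Ico L 1, ⋃ j ∈ Finset.range (u0 x),
      {ω : Space | ω (x, j) ∈ Ev ξ z t x}) ∪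
      ⋃ i : ℕ, ⋃ j ∈ Finset.range (u0 (L - 1 - i)),
        {ω : Space | ω (L - 1 - i, j) ∈ Ev ξ z t (L - 1 - i)} := by
    rintro ω ⟨x, j, hj, hω⟩
    have hx : x ≤ 0 := by
      by_contra hx
      push Not at hx
      rw [hneg x hx] at hj
      omega
    rcases le_or_gt L x with h1 | h1
    · left
      simp only [mem_iUnion]
      exact ⟨x, Finset.mem_Ico.2 ⟨h1, by omega⟩, j, Finset.mem_range.2 hj, hω⟩
    · right
      simp only [mem_iUnion]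
      obtain ⟨i, hi⟩ := Int.eq_ofNat_of_zero_le (show 0 ≤ L - 1 - x by omega)
      have hx' : L - 1 - (i : ℤ) = x := by omega
      refine ⟨i, j, ?_, ?_⟩
      · rw [hx']; exact Finset.mem_range.2 hj
      · rw [hx']; exact hω
  have hone : ∀ x : ℤ, law (⋃ j ∈ Finset.range (u0 x), {ω : Space | ω (x, j) ∈ Ev ξ z t x}) ≤
      ENNReal.ofReal (u0 x * V ξ z t x) := by
    intro x
    refine (measure_biUnion_finset_le _ _).trans ?_
    have : ∀ j ∈ Finset.range (u0 x), law {ω : Space | ω (x, j) ∈ Ev ξ z t x} =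
        ENNReal.ofReal (V ξ z t x) := fun j _ => by
      rw [law_eval _ (measurableSet_Ev ξ z t x), V, ofReal_measureReal]
    rw [Finset.sum_congr rfl this, Finset.sum_const, Finset.card_range, nsmul_eq_mul,
      ENNReal.ofReal_mul (by positivity), ENNReal.ofReal_natCast]
  have hfar : law (⋃ i : ℕ, ⋃ j ∈ Finset.range (u0 (L - 1 - i)),
        {ω : Space | ω (L - 1 - i, j) ∈ Ev ξ z t (L - 1 - i)}) ≤ ENNReal.ofReal R := by
    refine (measure_iUnion_le _).trans ?_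
    have h1 : ∀ i : ℕ, law (⋃ j ∈ Finset.range (u0 (L - 1 - i)),
        {ω : Space | ω (L - 1 - i, j) ∈ Ev ξ z t (L - 1 - i)}) ≤
        ENNReal.ofReal (R / 2 / 2 ^ i) := by
      intro i
      refine (hone (L - 1 - i)).trans (ENNReal.ofReal_le_ofReal ?_)
      have e1 : V ξ z t (L - 1 - i) ≤
          Real.exp ((1 + b) * t - ((z : ℝ) - ((L - 1 - i : ℤ) : ℝ))) :=
        hsol.le_exp (fun x => ha.le.trans (h x).1) (fun x => (h x).2)
          (fun x => V_zero ξ z x (ha.trans_le (h x).1)) ht (L - 1 - i)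
      have e2 : Real.exp ((1 + b) * t - ((z : ℝ) - ((L - 1 - i : ℤ) : ℝ))) =
          Real.exp ((1 + b) * t - ((z : ℝ) - L)) * (Real.exp (-1) * Real.exp (-1) ^ i) := by
        rw [← Real.exp_nat_mul, ← Real.exp_add, ← Real.exp_add]
        push_cast
        congr 1
        ring
      have e3 : Real.exp (-1) * Real.exp (-1) ^ i ≤ (1 / 2) * (1 / 2) ^ i := by
        have := exp_neg_one_le
        gcongr
      have e4 : (u0 (L - 1 - i) : ℝ) ≤ C := by exact_mod_cast hC _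
      calc (u0 (L - 1 - i) : ℝ) * V ξ z t (L - 1 - i)
          ≤ C * (Real.exp ((1 + b) * t - ((z : ℝ) - L)) * ((1 / 2) * (1 / 2) ^ i)) := by
            rw [e2] at e1
            have := V_nonneg ξ z t (L - 1 - i)
            gcongr
            exact e1.trans (by gcongr)
        _ = R / 2 / 2 ^ i := by
            rw [hR, div_pow, one_pow]; ring
    refine (ENNReal.tsum_le_tsum h1).trans ?_
    have h2 := hasSum_geometric_two' R
    rw [← ENNReal.ofReal_tsum_of_nonneg (fun i => by positivity) h2.summable, h2.tsum_eq]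
  have hnear : law (⋃ x ∈ Finset.Ico L 1, ⋃ j ∈ Finset.range (u0 x),
      {ω : Space | ω (x, j) ∈ Ev ξ z t x}) ≤
      ENNReal.ofReal (∑ x ∈ Finset.Ico L 1, u0 x * V ξ z t x) := by
    refine (measure_biUnion_finset_le _ _).trans ?_
    rw [ENNReal.ofReal_sum_of_nonneg (fun x _ => by have := V_nonneg ξ z t x; positivity)]
    exact Finset.sum_le_sum fun x _ => hone x
  have hS0 : 0 ≤ ∑ x ∈ Finset.Ico L 1, (u0 x : ℝ) * V ξ z t x :=
    Finset.sum_nonneg fun x _ => by have := V_nonneg ξ z t x; positivity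
  rw [measureReal_def]
  refine ENNReal.toReal_le_of_le_ofReal (by positivity) ?_
  rw [ENNReal.ofReal_add hS0 hR0]
  exact (measure_mono hsub).trans ((measure_union_le _ _).trans (add_le_add hnear hfar))

theorem U_ge {C : ℕ} (hC : ∀ x, u0 x ≤ C) (t : ℝ) (z L : ℤ) :
    1 - ∏ x ∈ Finset.Ico L 1, (1 - V ξ z t x) ^ u0 x ≤ law.real (U ξ u0 z t) := by
  classical
  set F : Finset (ℤ × ℕ) := (Finset.Ico L 1 ×ˢ Finset.range C).filter fun p => p.2 < u0 p.1 with hF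
  have hmem : ∀ p : ℤ × ℕ, p ∈ F ↔ p.1 ∈ Finset.Ico L 1 ∧ p.2 ∈ Finset.range (u0 p.1) := by
    intro p
    rw [hF, Finset.mem_filter, Finset.mem_product, Finset.mem_range, Finset.mem_range]
    constructor
    · rintro ⟨⟨h1, _⟩, h2⟩
      exact ⟨h1, h2⟩
    · rintro ⟨h1, h2⟩
      exact ⟨⟨h1, h2.trans_le (hC _)⟩, h2⟩
  have h1 : (U ξ u0 z t)ᶜ ⊆ Set.pi F fun p => (Ev ξ z t p.1)ᶜ := by
    intro ω hω p hp hin
    refine hω ⟨p.1, p.2, ?_, hin⟩
    have := (hmem p).1 hp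
    exact Finset.mem_range.1 this.2
  have h2 : law (Set.pi F fun p => (Ev ξ z t p.1)ᶜ) = ∏ p ∈ F, treeLaw (Ev ξ z t p.1)ᶜ :=
    Measure.infinitePi_pi _ fun p _ => (measurableSet_Ev ξ z t p.1).compl
  have h3 : law.real (Set.pi F fun p => (Ev ξ z t p.1)ᶜ) =
      ∏ x ∈ Finset.Ico L 1, (1 - V ξ z t x) ^ u0 x := by
    rw [measureReal_def, h2, ENNReal.toReal_prod, 
      Finset.prod_finset_product F (Finset.Ico L 1) (fun x => Finset.range (u0 x)) hmem]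
    refine Finset.prod_congr rfl fun x _ => ?_
    have : ∀ j ∈ Finset.range (u0 x), (treeLaw (Ev ξ z t ((x, j) : ℤ × ℕ).1)ᶜ).toReal =
        1 - V ξ z t x := fun j _ => by
      rw [← measureReal_def, probReal_compl_eq_one_sub (measurableSet_Ev ξ z t x)]
      rfl
    rw [Finset.prod_congr rfl this, Finset.prod_const, Finset.card_range]
  have h4 : law.real (U ξ u0 z t)ᶜ ≤ ∏ x ∈ Finset.Ico L 1, (1 - V ξ z t x) ^ u0 x := by
    rw [← h3]
    exact measureReal_mono h1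
  rw [probReal_compl_eq_one_sub (measurableSet_U ξ u0 z t)] at h4
  linarith

theorem U_ge_one {a b : ℝ} (ha : 0 < a) (h : ∀ x, a ≤ ξ x ∧ ξ x ≤ b) {C : ℕ}
    (hC : ∀ x, u0 x ≤ C) (h0 : 1 ≤ u0 0) {t : ℝ} (ht : 0 ≤ t) (z : ℤ) :
    1 - Real.exp (t + z) ≤ law.real (U ξ u0 z t) := by
  have h3 := (sol_V ξ z ha h).ge_exp (fun x => ha.le.trans (h x).1)
    (fun x => V_zero ξ z x (ha.trans_le (h x).1)) ht 0
  have h4 := U_ge (ξ := ξ) hC t z 0
  have h5 : Finset.Ico (0 : ℤ) 1 = {0} := by decide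
  rw [h5, Finset.prod_singleton] at h4
  have h6 : (1 - V ξ z t 0) ^ u0 0 ≤ 1 - V ξ z t 0 :=
    pow_le_of_le_one (by linarith [V_le_one ξ z t 0]) (by linarith [V_nonneg ξ z t 0]) (by omega)
  have h7 : t - (((0 : ℤ) : ℝ) - z) = t + z := by push_cast; ring
  rw [h7] at h3
  linarith

theorem tendsto_U_top {a b : ℝ} (ha : 0 < a) (h : ∀ x, a ≤ ξ x ∧ ξ x ≤ b) {C : ℕ}
    (hC : ∀ x, u0 x ≤ C) (hneg : ∀ x, 0 < x → u0 x = 0) {t : ℝ} (ht : 0 ≤ t) {ε : ℝ}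
    (hε : 0 < ε) : ∃ z : ℤ, ∀ z' : ℤ, z ≤ z' → law.real (U ξ u0 z' t) < ε := by
  have h1 : Tendsto (fun k : ℕ => (C : ℝ) * Real.exp (((1 + b) * t + 1) - k)) atTop
      (𝓝 (C * 0)) := by
    refine Tendsto.const_mul _ ?_
    refine Real.tendsto_exp_atBot.comp ?_
    have : Tendsto (fun k : ℕ => -(k : ℝ)) atTop atBot :=
      tendsto_neg_atTop_atBot.comp tendsto_natCast_atTop_atTop
    simpa [sub_eq_add_neg] using tendsto_atBot_add_const_left atTop ((1 + b) * t + 1) this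
  rw [mul_zero] at h1
  obtain ⟨k, hk⟩ := (h1.eventually_lt_const hε).exists
  refine ⟨k, fun z' hz' => ?_⟩
  have h2 := U_le ha h hC hneg ht z' 1 le_rfl
  rw [Finset.Ico_self, Finset.sum_empty, zero_add] at h2
  refine h2.trans_lt (lt_of_le_of_lt ?_ hk)
  refine mul_le_mul_of_nonneg_left ?_ (by positivity)
  rw [Real.exp_le_exp]
  have : (k : ℝ) ≤ z' := by exact_mod_cast hz'
  push_cast
  linarith

theorem ae_good {a b : ℝ} (ha : 0 < a) (h : ∀ x, a ≤ ξ x ∧ ξ x ≤ b) {C : ℕ}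
    (hC : ∀ x, u0 x ≤ C) (h0 : 1 ≤ u0 0) (hneg : ∀ x, 0 < x → u0 x = 0) {t : ℝ} (ht : 0 ≤ t) :
    ∀ᵐ ω ∂law, (positions ξ u0 t ω).Nonempty ∧ BddAbove (positions ξ u0 t ω) := by
  have h1 : law (⋂ z : ℤ, U ξ u0 z t) = 0 := by
    rw [← measureReal_eq_zero_iff]
    refine le_antisymm (le_of_forall_pos_le_add fun ε hε => ?_) measureReal_nonneg
    obtain ⟨z, hz⟩ := tendsto_U_top ha h hC hneg ht hε
    rw [zero_add]
    exact (measureReal_mono (iInter_subset _ z)).trans (hz z le_rfl).le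
  have h2 : law (⋂ z : ℤ, (U ξ u0 z t)ᶜ) = 0 := by
    rw [← measureReal_eq_zero_iff]
    refine le_antisymm (le_of_forall_pos_le_add fun ε hε => ?_) measureReal_nonneg
    have h3 : Tendsto (fun k : ℕ => Real.exp (t - k)) atTop (𝓝 0) := by
      refine Real.tendsto_exp_atBot.comp ?_
      have : Tendsto (fun k : ℕ => -(k : ℝ)) atTop atBot :=
        tendsto_neg_atTop_atBot.comp tendsto_natCast_atTop_atTop
      simpa [sub_eq_add_neg] using tendsto_atBot_add_const_left atTop t this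
    obtain ⟨k, hk⟩ := (h3.eventually_lt_const hε).exists
    rw [zero_add]
    refine (measureReal_mono (iInter_subset _ (-(k : ℤ)))).trans ?_
    rw [probReal_compl_eq_one_sub (measurableSet_U ξ u0 _ t)]
    have h4 := U_ge_one ha h hC h0 ht (-(k : ℤ))
    have h5 : t + ((-(k : ℤ) : ℤ) : ℝ) = t - k := by push_cast; ring
    rw [h5] at h4
    linarith
  have h3 := compl_mem_ae_iff.2 h1
  have h4 := compl_mem_ae_iff.2 h2
  filter_upwards [h3, h4] with ω hω1 hω2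
  simp only [mem_compl_iff, mem_iInter, not_forall, not_not] at hω1 hω2
  obtain ⟨z1, hz1⟩ := hω1
  obtain ⟨z2, hz2⟩ := hω2
  rw [U_iff] at hz1 hz2
  obtain ⟨y, hy, _⟩ := hz2
  refine ⟨⟨y, hy⟩, z1, fun y' hy' => ?_⟩
  by_contra hlt
  push Not at hlt
  exact hz1 ⟨y', hy', hlt.le⟩

theorem ae_eq_U {a b : ℝ} (ha : 0 < a) (h : ∀ x, a ≤ ξ x ∧ ξ x ≤ b) {C : ℕ}
    (hC : ∀ x, u0 x ≤ C) (h0 : 1 ≤ u0 0) (hneg : ∀ x, 0 < x → u0 x = 0) {t : ℝ} (ht : 0 ≤ t)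
    (z : ℤ) : ({ω | z ≤ maxPos ξ u0 t ω} : Set Space) =ᵐ[law] U ξ u0 z t := by
  filter_upwards [ae_good ha h hC h0 hneg ht] with ω hω
  obtain ⟨hne, hbd⟩ := hω
  refine propext ?_
  change z ≤ maxPos ξ u0 t ω ↔ ω ∈ U ξ u0 z t
  rw [U_iff]
  constructor
  · intro hz
    exact ⟨_, Int.csSup_mem hne hbd, hz⟩
  · rintro ⟨y, hy, hzy⟩
    exact hzy.trans (le_csSup hbd hy)

/-- the median is attained -/
theorem median_spec {a b : ℝ} (ha : 0 < a) (h : ∀ x, a ≤ ξ x ∧ ξ x ≤ b) {C : ℕ}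
    (hC : ∀ x, u0 x ≤ C) (h0 : 1 ≤ u0 0) (hneg : ∀ x, 0 < x → u0 x = 0) {t : ℝ} (ht : 0 ≤ t) :
    IsGreatest {x : ℤ | 1 / 2 ≤ law {ω | x ≤ maxPos ξ u0 t ω}} (median ξ u0 t) ∧
    1 / 2 ≤ law.real (U ξ u0 (median ξ u0 t) t) ∧
      law.real (U ξ u0 (median ξ u0 t + 1) t) < 1 / 2 := by
  have e1 : ∀ z : ℤ, (1 / 2 ≤ law {ω | z ≤ maxPos ξ u0 t ω}) ↔
      1 / 2 ≤ law.real (U ξ u0 z t) := by
    intro z
    rw [measure_congr (ae_eq_U ha h hC h0 hneg ht z), measureReal_def]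
    rw [← ENNReal.toReal_le_toReal (by simp) (measure_ne_top _ _)]
    simp
  have e2 : {x : ℤ | 1 / 2 ≤ law {ω | x ≤ maxPos ξ u0 t ω}} =
      {x : ℤ | 1 / 2 ≤ law.real (U ξ u0 x t)} := by
    ext z
    exact e1 z
  have e3 : BddAbove {x : ℤ | 1 / 2 ≤ law.real (U ξ u0 x t)} := by
    obtain ⟨z, hz⟩ := tendsto_U_top ha h hC hneg ht (show (0 : ℝ) < 1 / 2 by norm_num)
    refine ⟨z, fun x hx => ?_⟩
    by_contra hlt
    push Not at hlt
    have h1 := hz x hlt.le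
    have h2 : 1 / 2 ≤ law.real (U ξ u0 x t) := hx
    linarith
  have e4 : {x : ℤ | 1 / 2 ≤ law.real (U ξ u0 x t)}.Nonempty := by
    have h3 : Tendsto (fun k : ℕ => Real.exp (t - k)) atTop (𝓝 0) := by
      refine Real.tendsto_exp_atBot.comp ?_
      have : Tendsto (fun k : ℕ => -(k : ℝ)) atTop atBot :=
        tendsto_neg_atTop_atBot.comp tendsto_natCast_atTop_atTop
      simpa [sub_eq_add_neg] using tendsto_atBot_add_const_left atTop t this
    obtain ⟨k, hk⟩ := (h3.eventually_lt_const (show (0 : ℝ) < 1 / 2 by norm_num)).exists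
    refine ⟨-(k : ℤ), ?_⟩
    have h4 := U_ge_one ha h hC h0 ht (-(k : ℤ))
    have h5 : t + ((-(k : ℤ) : ℤ) : ℝ) = t - k := by push_cast; ring
    rw [h5] at h4
    change 1 / 2 ≤ law.real (U ξ u0 (-(k : ℤ)) t)
    linarith
  have e5 : median ξ u0 t = sSup {x : ℤ | 1 / 2 ≤ law.real (U ξ u0 x t)} := by
    unfold median
    rw [e2]
  have e6 : IsGreatest {x : ℤ | 1 / 2 ≤ law.real (U ξ u0 x t)}
      (sSup {x : ℤ | 1 / 2 ≤ law.real (U ξ u0 x t)}) :=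
    ⟨Int.csSup_mem e4 e3, fun x hx => le_csSup e3 hx⟩
  rw [e2, e5]
  refine ⟨e6, e6.1, ?_⟩
  by_contra hge
  push Not at hge
  have := le_csSup e3 (show sSup {x : ℤ | 1 / 2 ≤ law.real (U ξ u0 x t)} + 1 ∈
    {x : ℤ | 1 / 2 ≤ law.real (U ξ u0 x t)} from hge)
  omega

/-- uniform tightness -/
theorem uniform (a b : ℝ) (ha : 0 < a) (C : ℕ) {ε : ℝ} (hε : 0 < ε) : ∃ K : ℕ,
    ∀ (ξ : ℤ → ℝ) (_ : ∀ x, a ≤ ξ x ∧ ξ x ≤ b) (u0 : ℤ → ℕ) (_ : 1 ≤ u0 0)
      (_ : ∀ x, u0 x ≤ C) (_ : ∀ x, 0 < x → u0 x = 0) (t : ℝ) (_ : 0 ≤ t),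
      law {ω | (K : ℤ) < |maxPos ξ u0 t ω - median ξ u0 t|} ≤ ENNReal.ofReal ε := by
  by_cases hb0 : 0 ≤ b
  swap
  · refine ⟨0, fun ξ h => ?_⟩
    have := h 0
    linarith
  set ε1 : ℝ := min (1 / 4) (ε / 2) with hε1
  have hε1a : ε1 ≤ 1 / 4 := min_le_left _ _
  have hε1b : ε1 ≤ ε / 2 := min_le_right _ _
  have hε10 : 0 < ε1 := by positivity
  obtain ⟨K0, hcore⟩ := core (a := a) (b := b) ha hb0 (C : ℝ) hε10 (by linarith)
  refine ⟨K0, fun ξ h u0 h0 hC hneg t ht => ?_⟩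
  have hK0 := hcore (env ξ ha h) (fun x => (h x).1) (fun x => (h x).2) (V ξ)
      (fun y => sol_V ξ y ha h) (fun y x => V_zero ξ y x (ha.trans_le (h x).1)) u0 h0
      (fun t z => law.real (U ξ u0 z t)) (fun t ht z L hL => U_le ha h hC hneg ht z L hL)
      (fun t _ z L => U_ge hC t z L)
  have hmed := fun t (ht : (0 : ℝ) ≤ t) => (median_spec ha h hC h0 hneg ht).2
  obtain ⟨hm1, hm2⟩ := hmed t ht
  set m := median ξ u0 t with hm
  have hsub : {ω | (K0 : ℤ) < |maxPos ξ u0 t ω - m|} ⊆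
      {ω | m + 1 + K0 ≤ maxPos ξ u0 t ω} ∪ {ω | m - K0 ≤ maxPos ξ u0 t ω}ᶜ := by
    intro ω h3
    rcases lt_abs.1 (show (K0 : ℤ) < |maxPos ξ u0 t ω - m| from h3) with h4 | h4
    · left
      change m + 1 + K0 ≤ maxPos ξ u0 t ω
      omega
    · right
      change ¬ (m - K0 ≤ maxPos ξ u0 t ω)
      omega
  have e1 : law {ω | m + 1 + (K0 : ℤ) ≤ maxPos ξ u0 t ω} ≤ ENNReal.ofReal ε1 := by
    rw [measure_congr (ae_eq_U ha h hC h0 hneg ht _), ← ofReal_measureReal]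
    refine ENNReal.ofReal_le_ofReal ?_
    by_contra hlt
    push Not at hlt
    have := hK0 t ht (m + 1) hlt.le
    linarith
  have e2 : law {ω | m - (K0 : ℤ) ≤ maxPos ξ u0 t ω}ᶜ ≤ ENNReal.ofReal ε1 := by
    rw [measure_congr (ae_eq_U ha h hC h0 hneg ht _).compl, ← ofReal_measureReal]
    refine ENNReal.ofReal_le_ofReal ?_
    rw [probReal_compl_eq_one_sub (measurableSet_U ξ u0 _ t)]
    have := hK0 t ht (m - K0) (by
      rw [sub_add_cancel]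
      linarith)
    linarith
  calc law {ω | (K0 : ℤ) < |maxPos ξ u0 t ω - m|} ≤ _ := measure_mono hsub
    _ ≤ _ := measure_union_le _ _
    _ ≤ ENNReal.ofReal ε1 + ENNReal.ofReal ε1 := add_le_add e1 e2
    _ = ENNReal.ofReal (2 * ε1) := by
        rw [← ENNReal.ofReal_add hε10.le hε10.le]; congr 1; ring
    _ ≤ ENNReal.ofReal ε := ENNReal.ofReal_le_ofReal (by linarith)

theorem tight {ξ : ℤ → ℝ} {u0 : ℤ → ℕ} {a b : ℝ} (ha : 0 < a) (h : ∀ x, a ≤ ξ x ∧ ξ x ≤ b)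
    {C : ℕ} (h0 : 1 ≤ u0 0) (hC : ∀ x, u0 x ≤ C) (hneg : ∀ x, 0 < x → u0 x = 0) :
    Tight ξ u0 := by
  unfold Tight
  rw [ENNReal.tendsto_nhds_zero]
  intro δ hδ
  obtain ⟨ε, hε0, hεδ⟩ : ∃ ε : ℝ, 0 < ε ∧ ENNReal.ofReal ε ≤ δ := by
    rcases eq_or_ne δ ⊤ with h1 | h1
    · exact ⟨1, one_pos, by rw [h1]; exact le_top⟩
    · exact ⟨δ.toReal, ENNReal.toReal_pos hδ.ne' h1, by rw [ENNReal.ofReal_toReal h1]⟩
  obtain ⟨K0, hK0⟩ := uniform a b ha C hε0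
  filter_upwards [eventually_ge_atTop (K0 : ℝ)] with K hK
  refine iSup₂_le fun t ht => le_trans ?_ hεδ
  refine (measure_mono ?_).trans (hK0 ξ h u0 h0 hC hneg t ht)
  intro ω hω
  have h1 : K < |((maxPos ξ u0 t ω - median ξ u0 t : ℤ) : ℝ)| := hω
  have h2 : ((K0 : ℤ) : ℝ) < ((|maxPos ξ u0 t ω - median ξ u0 t| : ℤ) : ℝ) := by
    push_cast at h1 ⊢
    linarith
  exact_mod_cast h2

end Pool.Agent.Helper24.TB
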