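import Pool.Agent.Helper24.TB.Op

/-! Estimates for the linear semigroup. -/

open Set Filter Topology BoundedContinuousFunction

namespace Pool.Agent.Helper24.TB

/-- indicator of `{x | y ≤ x}` -/
noncomputable def ind (y : ℤ) : Fn :=
  BoundedContinuousFunction.ofNormedAddCommGroup (fun x : ℤ => if y ≤ x then (1 : ℝ) else 0)
    continuous_of_discreteTopology 1 (fun x => by split_ifs <;> simp)

@[simp] theorem ind_apply (y x : ℤ) : ind y x = if y ≤ x then (1 : ℝ) else 0 := rfl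

theorem ind_nonneg (y x : ℤ) : 0 ≤ ind y x := by simp; split_ifs <;> norm_num

theorem ind_le_one (y x : ℤ) : ind y x ≤ 1 := by simp; split_ifs <;> norm_num

variable {ζ : Fn} {b : ℝ}

/-- E1 -/
theorem Pn_le_pow (hζ : ∀ x, 0 ≤ ζ x) (hb : ∀ x, ζ x ≤ b) {f : Fn} {c : ℝ} (hf : ∀ x, f x ≤ c)
    (hc : 0 ≤ c) (n : ℕ) (x : ℤ) : Pn ζ n f x ≤ (1 + b) ^ n * c := by
  have hb0 : 0 ≤ b := (hζ 0).trans (hb 0)
  induction n generalizing x with
  | zero => simpa [Pn_zero] using hf x
  | succ n ih =>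
    rw [Pn_succ]
    have h1 := ih (x + 1)
    have h2 := ih (x - 1)
    have h3 : ζ x * Pn ζ n f x ≤ b * ((1 + b) ^ n * c) :=
      (mul_le_mul_of_nonneg_left (ih x) (hζ x)).trans
        (mul_le_mul_of_nonneg_right (hb x) (by positivity))
    rw [pow_succ]
    linarith

theorem hasSum_exp' (q t : ℝ) : HasSum (fun n : ℕ => t ^ n / (n.factorial : ℝ) * q ^ n)
    (Real.exp (q * t)) := by
  have h := NormedSpace.expSeries_div_hasSum_exp (q * t)
  rw [← Real.exp_eq_exp_ℝ] at h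
  convert! h using 2 with n
  rw [mul_pow]
  ring

theorem S_le_exp (hζ : ∀ x, 0 ≤ ζ x) (hb : ∀ x, ζ x ≤ b) {f : Fn} {c : ℝ} (hf : ∀ x, f x ≤ c)
    (hc : 0 ≤ c) {t : ℝ} (ht : 0 ≤ t) (x : ℤ) : S ζ t f x ≤ Real.exp (b * t) * c := by
  have h := (hasSum_exp' (1 + b) t).mul_left (Real.exp (-t) * c)
  have h2 := hasSum_le (fun n => ?_) (S_hasSum ζ f t x) h
  · refine h2.trans (le_of_eq ?_)
    rw [mul_right_comm, ← Real.exp_add]
    congr 2
    ring
  · have h3 := Pn_le_pow hζ hb hf hc n x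
    have h4 : 0 ≤ Real.exp (-t) * (t ^ n / (n.factorial : ℝ)) := by positivity
    calc _ ≤ Real.exp (-t) * (t ^ n / (n.factorial : ℝ)) * ((1 + b) ^ n * c) :=
          mul_le_mul_of_nonneg_left h3 h4
      _ = _ := by ring

theorem cosh_one_le : Real.cosh 1 ≤ 2 := by
  rw [Real.cosh_eq]
  have h1 := Real.exp_one_lt_d9
  have h2 : Real.exp (-1) ≤ 1 := Real.exp_le_one_iff.2 (by norm_num)
  linarith

/-- E2 -/
theorem Pn_ind_le (hζ : ∀ x, 0 ≤ ζ x) (hb : ∀ x, ζ x ≤ b) (y : ℤ) (n : ℕ) (x : ℤ) :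
    Pn ζ n (ind y) x ≤ (2 + b) ^ n * Real.exp ((x : ℝ) - y) := by
  have hb0 : 0 ≤ b := (hζ 0).trans (hb 0)
  induction n generalizing x with
  | zero =>
    simp only [Pn_zero, ind_apply, pow_zero, one_mul]
    split_ifs with h
    · rw [Real.one_le_exp_iff]
      have : (y : ℝ) ≤ x := by exact_mod_cast h
      linarith
    · positivity
  | succ n ih =>
    rw [Pn_succ]
    have h1 := ih (x + 1)
    have h2 := ih (x - 1)
    have e1 : Real.exp (((x + 1 : ℤ) : ℝ) - y) = Real.exp 1 * Real.exp ((x : ℝ) - y) := by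
      rw [← Real.exp_add]; push_cast; congr 1; ring
    have e2 : Real.exp (((x - 1 : ℤ) : ℝ) - y) = Real.exp (-1) * Real.exp ((x : ℝ) - y) := by
      rw [← Real.exp_add]; push_cast; congr 1; ring
    rw [e1] at h1
    rw [e2] at h2
    have h3 : ζ x * Pn ζ n (ind y) x ≤ b * ((2 + b) ^ n * Real.exp ((x : ℝ) - y)) :=
      (mul_le_mul_of_nonneg_left (ih x) (hζ x)).trans
        (mul_le_mul_of_nonneg_right (hb x) (by positivity))
    have h4 := cosh_one_le
    rw [Real.cosh_eq] at h4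
    have h5 : 0 ≤ (2 + b) ^ n * Real.exp ((x : ℝ) - y) := by positivity
    have h6 := mul_le_mul_of_nonneg_right h4 h5
    rw [pow_succ]
    nlinarith

theorem S_ind_le (hζ : ∀ x, 0 ≤ ζ x) (hb : ∀ x, ζ x ≤ b) (y : ℤ) {t : ℝ} (ht : 0 ≤ t) (x : ℤ) :
    S ζ t (ind y) x ≤ Real.exp ((1 + b) * t - ((y : ℝ) - x)) := by
  have h := (hasSum_exp' (2 + b) t).mul_left (Real.exp (-t) * Real.exp ((x : ℝ) - y))
  have h2 := hasSum_le (fun n => ?_) (S_hasSum ζ (ind y) t x) h
  · refine h2.trans (le_of_eq ?_)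
    rw [← Real.exp_add, ← Real.exp_add]
    congr 1
    ring
  · have h3 := Pn_ind_le hζ hb y n x
    have h4 : 0 ≤ Real.exp (-t) * (t ^ n / (n.factorial : ℝ)) := by positivity
    calc _ ≤ Real.exp (-t) * (t ^ n / (n.factorial : ℝ)) * ((2 + b) ^ n * Real.exp ((x : ℝ) - y)) :=
          mul_le_mul_of_nonneg_left h3 h4
      _ = _ := by ring

/-- finite propagation for powers -/
theorem Pn_ind_zero (y : ℤ) (n : ℕ) (x : ℤ) (h : (n : ℤ) < y - x) : Pn ζ n (ind y) x = 0 := by
  induction n generalizing x with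
  | zero =>
    simp only [Pn_zero, ind_apply, ite_eq_right_iff, one_ne_zero, imp_false, not_le]
    push_cast at h
    linarith
  | succ n ih =>
    rw [Pn_succ]
    push_cast at h
    rw [ih (x + 1) (by linarith), ih (x - 1) (by linarith), ih x (by linarith)]
    simp

/-- E3 -/
theorem S_growth (hζ : ∀ x, 0 ≤ ζ x) {y x : ℤ} {n0 : ℕ} (hn : (n0 : ℤ) ≤ y - x) {u u' : ℝ}
    (hu : 0 ≤ u) (huu : u ≤ u') (hu' : 0 < u') :
    S ζ u (ind y) x ≤ Real.exp ((u' - u) - n0 * ((u' - u) / u')) * S ζ u' (ind y) x := by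
  have h1 := S_hasSum ζ (ind y) u x
  have h2 := (S_hasSum ζ (ind y) u' x).mul_left (Real.exp ((u' - u) - n0 * ((u' - u) / u')))
  refine hasSum_le (fun n => ?_) h1 h2
  by_cases hn' : n < n0
  · rw [Pn_ind_zero y n x (by have : (n : ℤ) < n0 := by exact_mod_cast hn'
                              linarith)]
    simp
  · push Not at hn'
    have h3 := Pn_nonneg hζ (ind_nonneg y) n x
    have h4 : u ^ n ≤ Real.exp (- (n0 * ((u' - u) / u'))) * u' ^ n := by
      have e1 : u / u' ≤ Real.exp (-((u' - u) / u')) := by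
        have := Real.add_one_le_exp (-((u' - u) / u'))
        refine le_trans (le_of_eq ?_) this
        field_simp
        ring
      have e2 : 0 ≤ u / u' := by positivity
      have e3 : u / u' ≤ 1 := (div_le_one hu').2 huu
      have e4 : (u / u') ^ n ≤ (Real.exp (-((u' - u) / u'))) ^ n0 :=
        (pow_le_pow_of_le_one e2 e3 hn').trans (pow_le_pow_left₀ e2 e1 n0)
      rw [← Real.exp_nat_mul] at e4
      have e5 : u ^ n = (u / u') ^ n * u' ^ n := by
        rw [div_pow]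
        field_simp
      rw [e5]
      refine mul_le_mul_of_nonneg_right (e4.trans (le_of_eq ?_)) (by positivity)
      congr 1
      ring
    have h5 : Real.exp ((u' - u) - n0 * ((u' - u) / u')) * Real.exp (-u') =
        Real.exp (-u) * Real.exp (-(n0 * ((u' - u) / u'))) := by
      rw [← Real.exp_add, ← Real.exp_add]
      congr 1
      ring
    calc Real.exp (-u) * (u ^ n / (n.factorial : ℝ)) * Pn ζ n (ind y) x
        ≤ Real.exp (-u) * ((Real.exp (-(n0 * ((u' - u) / u'))) * u' ^ n) / (n.factorial : ℝ)) *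
          Pn ζ n (ind y) x := by gcongr
      _ = (Real.exp (-u) * Real.exp (-(n0 * ((u' - u) / u')))) * (u' ^ n / (n.factorial : ℝ)) *
          Pn ζ n (ind y) x := by ring
      _ = _ := by rw [← h5]; ring

end Pool.Agent.Helper24.TB
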