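import Pool.Agent.Helper24.TB.Lin

/-! Two ratio estimates for the linear semigroup. -/

open Set Filter Topology BoundedContinuousFunction

namespace Pool.Agent.Helper24.TB

variable {ζ : Fn} {b : ℝ}

theorem Pn_add (ζ f : Fn) (m n : ℕ) : Pn ζ (m + n) f = Pn ζ m (Pn ζ n f) := by
  unfold Pn
  rw [pow_add]
  rfl

theorem Pn_smul (ζ f : Fn) (c : ℝ) (n : ℕ) (x : ℤ) : Pn ζ n (c • f) x = c * Pn ζ n f x := by
  unfold Pn
  rw [map_smul]
  rfl

theorem S_smul (ζ f : Fn) (c t : ℝ) (x : ℤ) : S ζ t (c • f) x = c * S ζ t f x := by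
  unfold S
  rw [map_smul]
  rfl

theorem S_add_fn (ζ f g : Fn) (t : ℝ) (x : ℤ) : S ζ t (f + g) x = S ζ t f x + S ζ t g x := by
  unfold S
  rw [map_add]
  rfl

theorem Pn_shift_le (hζ : ∀ x, 0 ≤ ζ x) (hb : ∀ x, ζ x ≤ b) (y : ℤ) (K m : ℕ) (x : ℤ) :
    Pn ζ (m + K) (ind (y + K)) x ≤ (1 + b) ^ K * Pn ζ m (ind y) x := by
  have hb0 : 0 ≤ b := (hζ 0).trans (hb 0)
  rw [Pn_add, ← Pn_smul]
  refine Pn_mono hζ (fun z => ?_) m x
  by_cases h : y ≤ z
  · have := Pn_le_pow hζ hb (ind_le_one (y + K)) zero_le_one K z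
    simpa [h] using this
  · push Not at h
    rw [Pn_ind_zero _ _ _ (by linarith)]
    have := ind_nonneg y z
    simp only [BoundedContinuousFunction.coe_smul, smul_eq_mul]
    positivity

/-- moving the target by `K` costs `(q t / (r + 1)) ^ K` -/
theorem S_shift_le (hζ : ∀ x, 0 ≤ ζ x) (hb : ∀ x, ζ x ≤ b) (x : ℤ) (r K : ℕ) {t : ℝ}
    (ht : 0 ≤ t) :
    S ζ t (ind (x + r + K)) x ≤ ((1 + b) * t / (r + 1)) ^ K * S ζ t (ind (x + r)) x := by
  have hb0 : 0 ≤ b := (hζ 0).trans (hb 0)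
  have h1 := S_hasSum ζ (ind (x + r + K)) t x
  have h2 := (hasSum_nat_add_iff' K).2 h1
  have h3 : ∑ i ∈ Finset.range K, Real.exp (-t) * (t ^ i / (i.factorial : ℝ)) *
      Pn ζ i (ind (x + r + K)) x = 0 := by
    refine Finset.sum_eq_zero fun i hi => ?_
    rw [Pn_ind_zero _ _ _ (by have := Finset.mem_range.1 hi; omega), mul_zero]
  rw [h3, sub_zero] at h2
  have h4 := (S_hasSum ζ (ind (x + r)) t x).mul_left (((1 + b) * t / (r + 1)) ^ K)
  refine hasSum_le (fun m => ?_) h2 h4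
  by_cases hm : m < r
  · have e1 : Pn ζ (m + K) (ind (x + r + K)) x = 0 := by
      refine Pn_ind_zero _ _ _ ?_
      push_cast
      have : (m : ℤ) < r := by exact_mod_cast hm
      linarith
    have e2 := Pn_nonneg hζ (ind_nonneg (x + r)) m x
    rw [e1, mul_zero]
    positivity
  · push Not at hm
    have e1 := Pn_shift_le hζ hb (x + r) K m x
    have e2 := Pn_nonneg hζ (ind_nonneg (x + r)) m x
    have e3 : t ^ (m + K) / ((m + K).factorial : ℝ) ≤
        t ^ m / (m.factorial : ℝ) * (t / (r + 1)) ^ K := by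
      have f1 : (m.factorial : ℝ) * (m + 1) ^ K ≤ ((m + K).factorial : ℝ) := by
        exact_mod_cast Nat.factorial_mul_pow_le_factorial
      have f2 : ((r : ℝ) + 1) ^ K ≤ (m + 1) ^ K := by
        have : (r : ℝ) ≤ m := by exact_mod_cast hm
        gcongr
      have f3 : (m.factorial : ℝ) * (r + 1) ^ K ≤ ((m + K).factorial : ℝ) :=
        (mul_le_mul_of_nonneg_left f2 (by positivity)).trans f1
      calc t ^ (m + K) / ((m + K).factorial : ℝ) ≤ t ^ (m + K) / ((m.factorial : ℝ) * (r + 1) ^ K) := by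
            gcongr
        _ = _ := by
            rw [pow_add, div_pow]
            field_simp
    calc Real.exp (-t) * (t ^ (m + K) / ((m + K).factorial : ℝ)) *
          Pn ζ (m + K) (ind (x + r + K)) x
        ≤ Real.exp (-t) * (t ^ m / (m.factorial : ℝ) * (t / (r + 1)) ^ K) *
          ((1 + b) ^ K * Pn ζ m (ind (x + r)) x) := by
          gcongr
          exact Pn_nonneg hζ (ind_nonneg _) _ _
      _ = _ := by
          rw [mul_div_assoc, mul_pow]
          ring

/-- lower bound of the semigroup along the straight path -/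
theorem S_straight (hζ : ∀ x, 0 ≤ ζ x) {f : Fn} (hf : ∀ x, 0 ≤ f x) {t : ℝ} (ht : 0 ≤ t) (x : ℤ)
    (r : ℕ) : Real.exp (-t) * ((t / 2) ^ r / (r.factorial : ℝ)) * f (x + r) ≤ S ζ t f x := by
  refine le_trans ?_ (S_ge_term hζ hf ht r x)
  have h1 := Pn_straight hζ hf r x
  have h2 : 0 ≤ Real.exp (-t) * (t ^ r / (r.factorial : ℝ)) := by positivity
  calc _ = Real.exp (-t) * (t ^ r / (r.factorial : ℝ)) * ((1 / 2) ^ r * f (x + r)) := by
        rw [div_pow, div_pow]
        ring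
    _ ≤ _ := mul_le_mul_of_nonneg_left h1 h2

theorem S_straight' (hζ : ∀ x, 0 ≤ ζ x) {f : Fn} (hf : ∀ x, 0 ≤ f x) {t : ℝ} (ht : 0 ≤ t) (x : ℤ)
    (r : ℕ) : Real.exp (-t) * ((t / 2) ^ r / (r.factorial : ℝ)) * f (x - r) ≤ S ζ t f x := by
  refine le_trans ?_ (S_ge_term hζ hf ht r x)
  have h1 := Pn_straight' hζ hf r x
  have h2 : 0 ≤ Real.exp (-t) * (t ^ r / (r.factorial : ℝ)) := by positivity
  calc _ = Real.exp (-t) * (t ^ r / (r.factorial : ℝ)) * ((1 / 2) ^ r * f (x - r)) := by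
        rw [div_pow, div_pow]
        ring
    _ ≤ _ := mul_le_mul_of_nonneg_left h1 h2

/-- `(T q)^r / r! ≥ 1` if `r ≤ T q` -/
theorem one_le_pow_div_factorial {u : ℝ} {r : ℕ} (h : (r : ℝ) ≤ u) :
    1 ≤ u ^ r / (r.factorial : ℝ) := by
  rw [one_le_div (by positivity)]
  have h1 : (r.factorial : ℝ) ≤ (r : ℝ) ^ r := by exact_mod_cast Nat.factorial_le_pow r
  exact h1.trans (pow_le_pow_left₀ (by positivity) h r)

theorem S_ind_lower (hζ : ∀ x, 0 ≤ ζ x) {t : ℝ} (ht : 0 ≤ t) {Q : ℝ} (hQ : 1 ≤ Q) (x : ℤ)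
    (r : ℕ) (hr : (r : ℝ) ≤ Q * t) :
    Real.exp (-t - Q * t * Real.log (2 * Q)) ≤ S ζ t (ind (x + r)) x := by
  have h1 := S_straight hζ (ind_nonneg (x + r)) ht x r
  have h2 : ind (x + r) (x + r) = 1 := by simp
  rw [h2, mul_one] at h1
  refine le_trans ?_ h1
  have h3 : (t / 2) ^ r / (r.factorial : ℝ) = (Q * t) ^ r / (r.factorial : ℝ) * ((2 * Q) ^ r)⁻¹ := by
    have : (t / 2) = (Q * t) / (2 * Q) := by field_simp
    rw [this, div_pow]
    ring
  have h4 := one_le_pow_div_factorial hr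
  have h5 : Real.exp (-(Q * t * Real.log (2 * Q))) ≤ ((2 * Q) ^ r)⁻¹ := by
    rw [Real.exp_neg]
    refine inv_anti₀ (by positivity) ?_
    have h6 : (2 * Q) ^ r = Real.exp (r * Real.log (2 * Q)) := by
      rw [Real.exp_nat_mul, Real.exp_log (by positivity)]
    rw [h6, Real.exp_le_exp]
    have h7 : 0 ≤ Real.log (2 * Q) := Real.log_nonneg (by linarith)
    exact mul_le_mul_of_nonneg_right hr h7
  rw [h3, sub_eq_add_neg, Real.exp_add]
  have h8 : 0 ≤ ((2 * Q) ^ r)⁻¹ := by positivity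
  calc Real.exp (-t) * Real.exp (-(Q * t * Real.log (2 * Q)))
      ≤ Real.exp (-t) * ((2 * Q) ^ r)⁻¹ := by gcongr
    _ ≤ Real.exp (-t) * ((Q * t) ^ r / (r.factorial : ℝ) * ((2 * Q) ^ r)⁻¹) := by
        gcongr
        exact le_mul_of_one_le_left h8 h4

/-- E4: waiting a bounded time costs a bounded factor -/
theorem S_wait_le' (hζ : ∀ x, 0 ≤ ζ x) (hb : ∀ x, ζ x ≤ b) {s Q : ℝ} (hs : 0 ≤ s) (hQ : 1 ≤ Q)
    (x : ℤ) (r : ℕ) (t : ℝ) (ht : 1 ≤ t) (hr : (r : ℝ) ≤ Q * t) :
    S ζ (t + s) (ind (x + r)) x ≤ (Real.exp (s * (Real.exp 1 * (1 + b) * (1 + s) +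
      Q * Real.log (2 * Q))) + 1) * S ζ t (ind (x + r)) x := by
  have hb0 : 0 ≤ b := (hζ 0).trans (hb 0)
  set Θ : ℝ := Real.exp 1 * (1 + b) * (1 + s) + Q * Real.log (2 * Q) with hΘ
  have hlog : 0 ≤ Real.log (2 * Q) := Real.log_nonneg (by linarith)
  have hΘ0 : 0 ≤ Θ := by positivity
  have ht0 : 0 ≤ t := by linarith
  have htp : 0 < t := by linarith
  have h1 := S_hasSum ζ (ind (x + r)) (t + s) x
  have h2 := (S_hasSum ζ (ind (x + r)) t x).mul_left (Real.exp (s * Θ))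
  have h3 := (hasSum_exp' (Real.exp 1 * (1 + b)) (t + s)).mul_left
    (Real.exp (-(t + s)) * Real.exp (-(Θ * t)))
  have h4 := hasSum_le (fun m => ?_) h1 (h2.add h3)
  · refine h4.trans ?_
    rw [add_mul (Real.exp (s * Θ)) 1, one_mul]
    gcongr
    refine le_trans ?_ (S_ind_lower hζ ht0 hQ x r hr)
    rw [← Real.exp_add, ← Real.exp_add, Real.exp_le_exp, hΘ]
    have e1 : Real.exp 1 * (1 + b) * (t + s) ≤ Real.exp 1 * (1 + b) * (1 + s) * t := by
      have : t + s ≤ (1 + s) * t := by nlinarith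
      calc _ ≤ Real.exp 1 * (1 + b) * ((1 + s) * t) := by gcongr
        _ = _ := by ring
    have e2 : (Real.exp 1 * (1 + b) * (1 + s) + Q * Real.log (2 * Q)) * t =
      Real.exp 1 * (1 + b) * (1 + s) * t + Q * t * Real.log (2 * Q) := by ring
    rw [e2]
    linarith
  · have e0 := Pn_nonneg hζ (ind_nonneg (x + r)) m x
    have e1 := Pn_le_pow hζ hb (ind_le_one (x + r)) zero_le_one m x
    rw [mul_one] at e1
    by_cases hm : (m : ℝ) ≤ Θ * t
    · have f1 : Real.exp (-(t + s)) * (t + s) ^ m ≤ Real.exp (s * Θ) * (Real.exp (-t) * t ^ m) := by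
        have g1 : t + s ≤ t * Real.exp (s / t) := by
          have := Real.add_one_le_exp (s / t)
          calc t + s = t * (s / t + 1) := by field_simp; ring
            _ ≤ _ := by gcongr
        have g2 : (t + s) ^ m ≤ t ^ m * Real.exp (m * (s / t)) := by
          calc (t + s) ^ m ≤ (t * Real.exp (s / t)) ^ m := by gcongr
            _ = _ := by rw [mul_pow, ← Real.exp_nat_mul]
        have g3 : (m : ℝ) * (s / t) ≤ s * Θ := by
          calc (m : ℝ) * (s / t) ≤ (Θ * t) * (s / t) := by gcongr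
            _ = _ := by field_simp
        have g4 : Real.exp (-(t + s)) ≤ Real.exp (-t) := by
          rw [Real.exp_le_exp]; linarith
        calc Real.exp (-(t + s)) * (t + s) ^ m
            ≤ Real.exp (-t) * (t ^ m * Real.exp (s * Θ)) := by
              gcongr
              exact g2.trans (by gcongr)
          _ = _ := by ring
      have f2 : 0 ≤ Real.exp (-(t + s)) * Real.exp (-(Θ * t)) *
          ((t + s) ^ m / (m.factorial : ℝ) * (Real.exp 1 * (1 + b)) ^ m) := by positivity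
      calc Real.exp (-(t + s)) * ((t + s) ^ m / (m.factorial : ℝ)) * Pn ζ m (ind (x + r)) x
          = (Real.exp (-(t + s)) * (t + s) ^ m) * (Pn ζ m (ind (x + r)) x / (m.factorial : ℝ)) := by
            ring
        _ ≤ (Real.exp (s * Θ) * (Real.exp (-t) * t ^ m)) *
            (Pn ζ m (ind (x + r)) x / (m.factorial : ℝ)) := by gcongr
        _ = Real.exp (s * Θ) * (Real.exp (-t) * (t ^ m / (m.factorial : ℝ)) *
            Pn ζ m (ind (x + r)) x) := by ring
        _ ≤ _ := le_add_of_nonneg_right f2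
    · push Not at hm
      have f1 : 1 ≤ Real.exp (-(Θ * t)) * Real.exp 1 ^ m := by
        rw [← Real.exp_nat_mul, ← Real.exp_add, Real.one_le_exp_iff]
        linarith
      have f2 : 0 ≤ Real.exp (s * Θ) * (Real.exp (-t) * (t ^ m / (m.factorial : ℝ)) *
            Pn ζ m (ind (x + r)) x) := by positivity
      calc Real.exp (-(t + s)) * ((t + s) ^ m / (m.factorial : ℝ)) * Pn ζ m (ind (x + r)) x
          ≤ Real.exp (-(t + s)) * ((t + s) ^ m / (m.factorial : ℝ)) * (1 + b) ^ m * 1 := by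
            rw [mul_one]; gcongr
        _ ≤ Real.exp (-(t + s)) * ((t + s) ^ m / (m.factorial : ℝ)) * (1 + b) ^ m *
            (Real.exp (-(Θ * t)) * Real.exp 1 ^ m) := by gcongr
        _ = Real.exp (-(t + s)) * Real.exp (-(Θ * t)) *
          ((t + s) ^ m / (m.factorial : ℝ) * (Real.exp 1 * (1 + b)) ^ m) := by
            rw [mul_pow]; ring
        _ ≤ _ := le_add_of_nonneg_left f2

end Pool.Agent.Helper24.TB
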