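import Pool.Agent.Helper24.TB.Lin2

/-! The second moment function and its bound in the far region. -/

open Set Filter Topology BoundedContinuousFunction MeasureTheory intervalIntegral

namespace Pool.Agent.Helper24.TB

section general
variable {E : Type} [NormedAddCommGroup E] [NormedSpace ℝ E] [CompleteSpace E]

theorem eop_hasDerivAt (A : E →L[ℝ] E) (t : ℝ) :
    HasDerivAt (fun u => eop A u) (A * eop A t - eop A t) t := by
  have h := hasDerivAt_exp_smul_const' (𝕂 := ℝ) A t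
  have h1 : HasDerivAt (fun u : ℝ => Real.exp (-u)) (-Real.exp (-t)) t := by
    simpa using (hasDerivAt_neg t).exp
  have h2 := h1.smul h
  refine h2.congr_deriv ?_
  simp [eop]
  abel

theorem eop_continuous (A : E →L[ℝ] E) : Continuous (fun u => eop A u) :=
  continuous_iff_continuousAt.2 fun t => (eop_hasDerivAt A t).continuousAt

/-- Duhamel function -/
noncomputable def duh (A : E →L[ℝ] E) (g : ℝ → E) (T : ℝ) : E :=
  eop A T (∫ τ in (0 : ℝ)..T, eop A (-τ) (g τ))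

theorem duh_cont (A : E →L[ℝ] E) {g : ℝ → E} (hg : Continuous g) :
    Continuous fun τ => eop A (-τ) (g τ) :=
  ((eop_continuous A).comp continuous_neg).clm_apply hg

theorem duh_hasDerivAt (A : E →L[ℝ] E) {g : ℝ → E} (hg : Continuous g) (T : ℝ) :
    HasDerivAt (duh A g) (A (duh A g T) - duh A g T + g T) T := by
  have h1 : HasDerivAt (fun T => ∫ τ in (0 : ℝ)..T, eop A (-τ) (g τ)) (eop A (-T) (g T)) T :=
    integral_hasDerivAt_right ((duh_cont A hg).intervalIntegrable _ _)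
      ((duh_cont A hg).stronglyMeasurableAtFilter _ _) (duh_cont A hg).continuousAt
  have h2 := (eop_hasDerivAt A T).clm_apply h1
  refine h2.congr_deriv ?_
  have h3 : eop A T (eop A (-T) (g T)) = g T := by
    rw [← eop_add, add_neg_cancel, eop_zero]
    rfl
  rw [h3]
  rfl

theorem duh_eq (A : E →L[ℝ] E) {g : ℝ → E} (hg : Continuous g) (T : ℝ) (L : E →L[ℝ] ℝ) :
    L (duh A g T) = ∫ τ in (0 : ℝ)..T, L (eop A (T - τ) (g τ)) := by
  unfold duh
  have h1 := (L.comp (eop A T)).intervalIntegral_comp_comm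
    ((duh_cont A hg).intervalIntegrable (μ := volume) 0 T)
  have h2 : L (eop A T (∫ τ in (0 : ℝ)..T, eop A (-τ) (g τ))) =
    (L.comp (eop A T)) (∫ τ in (0 : ℝ)..T, eop A (-τ) (g τ)) := rfl
  rw [h2, ← h1]
  congr 1
  ext τ
  have h3 : eop A (T - τ) (g τ) = eop A T (eop A (-τ) (g τ)) := by
    rw [← eop_add]; rfl
  rw [h3]
  rfl

end general

/-- source term -/
noncomputable def src (ζ : Fn) (y : ℤ) (τ : ℝ) : Fn := ζ * (S ζ τ (ind y) * S ζ τ (ind y))

theorem src_apply (ζ : Fn) (y : ℤ) (τ : ℝ) (x : ℤ) :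
    src ζ y τ x = ζ x * (S ζ τ (ind y) x * S ζ τ (ind y) x) := rfl

theorem src_cont (ζ : Fn) (y : ℤ) : Continuous (src ζ y) := by
  have h : Continuous fun τ => S ζ τ (ind y) :=
    (eop_continuous (P ζ)).clm_apply continuous_const
  exact continuous_const.mul (h.mul h)

/-- the second moment function -/
noncomputable def W2 (ζ : Fn) (y : ℤ) (T : ℝ) : Fn := duh (P ζ) (src ζ y) T

theorem W2_zero (ζ : Fn) (y : ℤ) : W2 ζ y 0 = 0 := by simp [W2, duh]

theorem W2_deriv (ζ : Fn) (y : ℤ) (T : ℝ) (x : ℤ) :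
    HasDerivAt (fun u => W2 ζ y u x) ((W2 ζ y T (x + 1) + W2 ζ y T (x - 1)) / 2 - W2 ζ y T x +
      ζ x * W2 ζ y T x + ζ x * (S ζ T (ind y) x * S ζ T (ind y) x)) T := by
  have h := (BoundedContinuousFunction.evalCLM ℝ x : Fn →L[ℝ] ℝ).hasFDerivAt.comp_hasDerivAt T
    (duh_hasDerivAt (P ζ) (src_cont ζ y) T)
  refine h.congr_deriv ?_
  have : duh (P ζ) (src ζ y) T = W2 ζ y T := rfl
  rw [this]
  simp [src_apply]
  ring

theorem W2_eq (ζ : Fn) (y : ℤ) (T : ℝ) (x : ℤ) :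
    W2 ζ y T x = ∫ τ in (0 : ℝ)..T, S ζ (T - τ) (src ζ y τ) x :=
  duh_eq (P ζ) (src_cont ζ y) T (BoundedContinuousFunction.evalCLM ℝ x : Fn →L[ℝ] ℝ)

theorem W2_int (ζ : Fn) (y : ℤ) (T : ℝ) (x : ℤ) :
    Continuous fun τ => S ζ (T - τ) (src ζ y τ) x := by
  have h : Continuous fun τ => S ζ (T - τ) (src ζ y τ) :=
    ((eop_continuous (P ζ)).comp (continuous_const.sub continuous_id)).clm_apply (src_cont ζ y)
  exact (BoundedContinuousFunction.evalCLM ℝ x : Fn →L[ℝ] ℝ).continuous.comp h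

variable {ζ : Fn} {b : ℝ}

theorem src_nonneg (hζ : ∀ x, 0 ≤ ζ x) (y : ℤ) {τ : ℝ} (hτ : 0 ≤ τ) (x : ℤ) :
    0 ≤ src ζ y τ x := by
  rw [src_apply]
  have h1 := hζ x
  have h2 := S_nonneg hζ (ind_nonneg y) hτ x
  positivity

theorem W2_nonneg (hζ : ∀ x, 0 ≤ ζ x) (y : ℤ) {T : ℝ} (hT : 0 ≤ T) (x : ℤ) :
    0 ≤ W2 ζ y T x := by
  rw [W2_eq]
  refine intervalIntegral.integral_nonneg hT fun τ hτ => ?_
  exact S_nonneg hζ (src_nonneg hζ y hτ.1) (sub_nonneg.2 hτ.2) x

/-- the constant of the far region -/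
noncomputable def Bfar (b : ℝ) : ℝ :=
  (b + 2) + 2 * (2 * b + 2 + (b + 2) * Real.log (4 * (b + 2)))

/-- lower bound of the semigroup of `ind y` on `[y - k, ∞)`, `k ≤ Q t` -/
theorem S_half_lower (hζ : ∀ x, 0 ≤ ζ x) {t : ℝ} (ht : 0 ≤ t) {Q : ℝ} (hQ : 1 ≤ Q) (y : ℤ)
    (k : ℕ) (hk : (k : ℝ) ≤ Q * t) (z : ℤ) :
    Real.exp (-t - Q * t * Real.log (2 * Q)) * ind (y - k) z ≤ S ζ t (ind y) z := by
  by_cases hz : y - k ≤ z
  · rw [ind_apply, if_pos hz, mul_one]
    by_cases hz2 : y ≤ z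
    · have h1 := S_straight hζ (ind_nonneg y) ht z 0
      simp only [pow_zero, Nat.factorial_zero, Nat.cast_one, ne_eq, one_ne_zero,
        not_false_eq_true, div_self, mul_one, CharP.cast_eq_zero, add_zero, ind_apply, if_pos hz2]
        at h1
      refine le_trans ?_ h1
      rw [Real.exp_le_exp]
      have : 0 ≤ Real.log (2 * Q) := Real.log_nonneg (by linarith)
      have : 0 ≤ Q * t * Real.log (2 * Q) := by positivity
      linarith
    · push Not at hz2
      obtain ⟨r, hr⟩ := Int.eq_ofNat_of_zero_le (show 0 ≤ y - z by linarith)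
      have hy : y = z + r := by linarith
      rw [hy]
      refine S_ind_lower hζ ht hQ z r (le_trans ?_ hk)
      have : (r : ℤ) ≤ k := by linarith
      exact_mod_cast this
  · rw [ind_apply, if_neg hz, mul_zero]
    exact S_nonneg hζ (ind_nonneg y) ht z

theorem src_le (hζ : ∀ x, 0 ≤ ζ x) (hb : ∀ x, ζ x ≤ b) (y : ℤ) {τ : ℝ} (hτ : 0 ≤ τ) (k : ℕ)
    (hk : (b + 2) * τ ≤ k + 1) (z : ℤ) :
    src ζ y τ z ≤ b * Real.exp (-τ) * S ζ τ (ind y) z +
      b * Real.exp (2 * b * τ) * ind (y - k) z := by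
  have hb0 : 0 ≤ b := (hζ 0).trans (hb 0)
  have h1 := hζ z
  have h2 := hb z
  have h3 := S_nonneg hζ (ind_nonneg y) hτ z
  rw [src_apply]
  by_cases hz : y - k ≤ z
  · rw [ind_apply, if_pos hz, mul_one]
    have h4 := S_le_exp hζ hb (ind_le_one y) zero_le_one hτ z
    rw [mul_one] at h4
    have h5 : Real.exp (2 * b * τ) = Real.exp (b * τ) * Real.exp (b * τ) := by
      rw [← Real.exp_add]; congr 1; ring
    rw [h5]
    have h6 : ζ z * (S ζ τ (ind y) z * S ζ τ (ind y) z) ≤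
        b * (Real.exp (b * τ) * Real.exp (b * τ)) := by gcongr
    have h7 : 0 ≤ b * Real.exp (-τ) * S ζ τ (ind y) z := by positivity
    linarith
  · rw [ind_apply, if_neg hz, mul_zero, add_zero]
    push Not at hz
    have h4 := S_ind_le hζ hb y hτ z
    have h5 : Real.exp ((1 + b) * τ - ((y : ℝ) - z)) ≤ Real.exp (-τ) := by
      rw [Real.exp_le_exp]
      have : z + 1 + (k : ℤ) ≤ y := by linarith
      have : (z : ℝ) + 1 + k ≤ y := by exact_mod_cast this
      linarith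
    have h6 := h4.trans h5
    calc ζ z * (S ζ τ (ind y) z * S ζ τ (ind y) z) ≤ b * (Real.exp (-τ) * S ζ τ (ind y) z) := by
          gcongr
      _ = _ := by ring

theorem W2_integrand_le (hζ : ∀ x, 0 ≤ ζ x) (hb : ∀ x, ζ x ≤ b) (x : ℤ) (r : ℕ) {T τ : ℝ}
    (hT : 0 < T) (hτ : 0 ≤ τ) (hτT : τ ≤ T) (hr : Bfar b * T ≤ r) :
    S ζ (T - τ) (src ζ (x + r) τ) x ≤ 2 * b * Real.exp (-τ) * S ζ T (ind (x + r)) x := by
  have hb0 : 0 ≤ b := (hζ 0).trans (hb 0)
  set k : ℕ := ⌊(b + 2) * τ⌋₊ with hk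
  have hk1 : (k : ℝ) ≤ (b + 2) * τ := Nat.floor_le (by positivity)
  have hk2 : (b + 2) * τ ≤ k + 1 := (Nat.lt_floor_add_one _).le
  have hL : 0 ≤ Real.log (4 * (b + 2)) := Real.log_nonneg (by linarith)
  have hTτ : 0 ≤ T - τ := by linarith
  have hBk : (b + 2) ≤ Bfar b := by
    unfold Bfar
    have : 0 ≤ 2 * (2 * b + 2 + (b + 2) * Real.log (4 * (b + 2))) := by positivity
    linarith
  have hkr : k ≤ r := by
    have : (k : ℝ) ≤ r := by
      refine hk1.trans (le_trans ?_ hr)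
      have : 0 ≤ Bfar b := by linarith
      gcongr
    exact_mod_cast this
  -- apply the semigroup to the bound of the source
  have h1 : S ζ (T - τ) (src ζ (x + r) τ) x ≤
      b * Real.exp (-τ) * S ζ T (ind (x + r)) x +
        b * Real.exp (2 * b * τ) * S ζ (T - τ) (ind (x + r - k)) x := by
    have e1 := S_mono hζ (f := src ζ (x + r) τ)
      (g := (b * Real.exp (-τ)) • S ζ τ (ind (x + r)) +
        (b * Real.exp (2 * b * τ)) • ind (x + r - k))
      (fun z => src_le hζ hb (x + r) hτ k hk2 z) hTτ x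
    rw [S_add_fn, S_smul, S_smul, ← S_add, sub_add_cancel] at e1
    exact e1
  -- growth
  have h2 := S_growth (n0 := r - k) (y := x + r - k) (x := x) (ζ := ζ) hζ
    (by rw [Nat.cast_sub hkr]; linarith) (u := T - τ) (u' := T - τ / 2) hTτ (by linarith)
    (by linarith)
  have h3 : Real.exp (-(τ / 2) - 2 * (b + 2) * (τ / 2) * Real.log (2 * (2 * (b + 2)))) *
      S ζ (T - τ / 2) (ind (x + r - k)) x ≤ S ζ T (ind (x + r)) x := by
    have e1 : S ζ T (ind (x + r)) = S ζ (T - τ / 2) (S ζ (τ / 2) (ind (x + r))) := by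
      rw [← S_add]; congr 1; ring
    rw [e1, ← S_smul]
    refine S_mono hζ (fun z => ?_) (by linarith) x
    refine S_half_lower hζ (by linarith) (by linarith) (x + r) k ?_ z
    linarith
  have h4 : 0 ≤ S ζ (T - τ / 2) (ind (x + r - k)) x :=
    S_nonneg hζ (ind_nonneg _) (by linarith) x
  have h5 : ((T - τ / 2) - (T - τ)) = τ / 2 := by ring
  rw [h5] at h2
  have h6 : Real.exp (2 * b * τ) * Real.exp (τ / 2 - ((r - k : ℕ) : ℝ) * (τ / 2 / (T - τ / 2))) ≤
      Real.exp (-τ) *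
        Real.exp (-(τ / 2) - 2 * (b + 2) * (τ / 2) * Real.log (2 * (2 * (b + 2)))) := by
    rw [← Real.exp_add, ← Real.exp_add, Real.exp_le_exp]
    have e1 : (Bfar b - (b + 2)) * (τ / 2) ≤ ((r - k : ℕ) : ℝ) * (τ / 2 / (T - τ / 2)) := by
      have f1 : (Bfar b - (b + 2)) * T ≤ ((r - k : ℕ) : ℝ) := by
        rw [Nat.cast_sub hkr]
        have : (b + 2) * τ ≤ (b + 2) * T := by gcongr
        linarith
      have f2 : τ / 2 / T ≤ τ / 2 / (T - τ / 2) := by
        apply div_le_div_of_nonneg_left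
        · linarith
        · linarith
        · linarith
      calc (Bfar b - (b + 2)) * (τ / 2) = (Bfar b - (b + 2)) * T * (τ / 2 / T) := by
            field_simp
        _ ≤ ((r - k : ℕ) : ℝ) * (τ / 2 / (T - τ / 2)) := by
            gcongr
    have e2 : (2 * (2 * (b + 2))) = 4 * (b + 2) := by ring
    rw [e2]
    have e3 : (Bfar b - (b + 2)) * (τ / 2) =
        (2 * b + 2) * τ + (b + 2) * Real.log (4 * (b + 2)) * τ := by
      unfold Bfar
      ring
    rw [e3] at e1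
    linarith
  calc S ζ (T - τ) (src ζ (x + r) τ) x
      ≤ b * Real.exp (-τ) * S ζ T (ind (x + r)) x +
        b * Real.exp (2 * b * τ) * S ζ (T - τ) (ind (x + r - k)) x := h1
    _ ≤ b * Real.exp (-τ) * S ζ T (ind (x + r)) x +
        b * Real.exp (2 * b * τ) *
          (Real.exp (τ / 2 - ((r - k : ℕ) : ℝ) * (τ / 2 / (T - τ / 2))) *
            S ζ (T - τ / 2) (ind (x + r - k)) x) := by gcongr
    _ = b * Real.exp (-τ) * S ζ T (ind (x + r)) x +
        b * ((Real.exp (2 * b * τ) *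
          Real.exp (τ / 2 - ((r - k : ℕ) : ℝ) * (τ / 2 / (T - τ / 2)))) *
            S ζ (T - τ / 2) (ind (x + r - k)) x) := by ring
    _ ≤ b * Real.exp (-τ) * S ζ T (ind (x + r)) x +
        b * ((Real.exp (-τ) *
        Real.exp (-(τ / 2) - 2 * (b + 2) * (τ / 2) * Real.log (2 * (2 * (b + 2))))) *
            S ζ (T - τ / 2) (ind (x + r - k)) x) := by gcongr
    _ = b * Real.exp (-τ) * S ζ T (ind (x + r)) x +
        b * (Real.exp (-τ) *
        (Real.exp (-(τ / 2) - 2 * (b + 2) * (τ / 2) * Real.log (2 * (2 * (b + 2)))) *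
            S ζ (T - τ / 2) (ind (x + r - k)) x)) := by ring
    _ ≤ b * Real.exp (-τ) * S ζ T (ind (x + r)) x +
        b * (Real.exp (-τ) * S ζ T (ind (x + r)) x) := by gcongr
    _ = _ := by ring

/-- A3: second moment bound in the far region -/
theorem W2_le (hζ : ∀ x, 0 ≤ ζ x) (hb : ∀ x, ζ x ≤ b) (x : ℤ) (r : ℕ) {T : ℝ}
    (hT : 0 ≤ T) (hr : Bfar b * T ≤ r) :
    W2 ζ (x + r) T x ≤ 2 * b * S ζ T (ind (x + r)) x := by
  have hb0 : 0 ≤ b := (hζ 0).trans (hb 0)
  have h0 := S_nonneg hζ (ind_nonneg (x + r)) hT x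
  rcases hT.eq_or_lt with rfl | hT'
  · rw [W2_zero]
    simp only [BoundedContinuousFunction.coe_zero, Pi.zero_apply]
    positivity
  rw [W2_eq]
  have h1 : ∫ τ in (0 : ℝ)..T, S ζ (T - τ) (src ζ (x + r) τ) x ≤
      ∫ τ in (0 : ℝ)..T, (2 * b * S ζ T (ind (x + r)) x) * Real.exp (-τ) := by
    refine intervalIntegral.integral_mono_on hT ((W2_int ζ _ T x).intervalIntegrable _ _)
      (Continuous.intervalIntegrable (by fun_prop) _ _) fun τ hτ => ?_
    refine (W2_integrand_le hζ hb x r hT' hτ.1 hτ.2 hr).trans (le_of_eq (by ring))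
  refine h1.trans ?_
  rw [intervalIntegral.integral_const_mul]
  have h2 : ∫ τ in (0 : ℝ)..T, Real.exp (-τ) = 1 - Real.exp (-T) := by
    have h3 : ∀ τ ∈ uIcc 0 T, HasDerivAt (fun τ : ℝ => -Real.exp (-τ)) (Real.exp (-τ)) τ := by
      intro τ _
      have := ((hasDerivAt_neg τ).exp).fun_neg
      simpa using this
    rw [integral_eq_sub_of_hasDerivAt h3 (Continuous.intervalIntegrable (by fun_prop) _ _)]
    simp
    ring
  rw [h2]
  have h4 : 1 - Real.exp (-T) ≤ 1 := by have := Real.exp_pos (-T); linarith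
  have h5 : 0 ≤ 2 * b * S ζ T (ind (x + r)) x := by positivity
  nlinarith

end Pool.Agent.Helper24.TB
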