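import Mathlib

/-! The semigroup of the lattice operator `f ↦ (f(x+1)+f(x-1))/2 - f(x) + ζ(x) f(x)` on bounded
functions on `ℤ`. -/

open Set Filter Topology BoundedContinuousFunction

namespace Pool.Agent.Helper24.TB

section general
variable {E : Type} [NormedAddCommGroup E] [NormedSpace ℝ E]

/-- `exp (t (A - 1))` -/
noncomputable def eop (A : E →L[ℝ] E) (t : ℝ) : E →L[ℝ] E :=
  Real.exp (-t) • NormedSpace.exp (t • A)

theorem eop_zero (A : E →L[ℝ] E) : eop A 0 = 1 := by simp [eop]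

variable [CompleteSpace E]

theorem eop_add (A : E →L[ℝ] E) (s t : ℝ) (f : E) : eop A (s + t) f = eop A s (eop A t f) := by
  have h : NormedSpace.exp ((s + t) • A) = NormedSpace.exp (s • A) * NormedSpace.exp (t • A) := by
    rw [add_smul]
    let _ : NormedAlgebra ℚ (E →L[ℝ] E) := NormedAlgebra.restrictScalars ℚ ℝ (E →L[ℝ] E)
    exact NormedSpace.exp_add_of_commute (((Commute.refl A).smul_left s).smul_right t)
  have h2 : eop A (s + t) = eop A s * eop A t := by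
    rw [eop, eop, eop, h, neg_add, Real.exp_add]
    rw [smul_mul_smul_comm]
  rw [h2]
  rfl

theorem eop_hasSum (A : E →L[ℝ] E) (t : ℝ) (f : E) :
    HasSum (fun n : ℕ => (Real.exp (-t) * (t ^ n / (n.factorial : ℝ))) • (A ^ n) f) (eop A t f) := by
  have h := NormedSpace.exp_series_hasSum_exp' (𝕂 := ℝ) (t • A)
  let L : (E →L[ℝ] E) →L[ℝ] E := ContinuousLinearMap.apply ℝ E f
  have h2 := (L.hasSum h).const_smul (Real.exp (-t))
  have h3 : Real.exp (-t) • L (NormedSpace.exp (t • A)) = eop A t f := by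
    simp [L, eop]
  rw [h3] at h2
  convert! h2 using 1
  ext n
  have h4 : L ((n.factorial : ℝ)⁻¹ • (t • A) ^ n) = ((n.factorial : ℝ)⁻¹ * t ^ n) • (A ^ n) f := by
    rw [smul_pow, smul_smul]
    rfl
  rw [h4, smul_smul]
  congr 1
  ring

theorem eop_deriv (A : E →L[ℝ] E) (f : E) (t : ℝ) :
    HasDerivAt (fun u => eop A u f) (A (eop A t f) - eop A t f) t := by
  have h := hasDerivAt_exp_smul_const' (𝕂 := ℝ) A t
  have h1 : HasDerivAt (fun u : ℝ => Real.exp (-u)) (-Real.exp (-t)) t := by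
    simpa using (hasDerivAt_neg t).exp
  have h2 := h1.smul h
  have h3 : HasDerivAt (fun u => eop A u) (A * eop A t - eop A t) t := by
    refine h2.congr_deriv ?_
    simp [eop]
    abel
  let L : (E →L[ℝ] E) →L[ℝ] E := ContinuousLinearMap.apply ℝ E f
  have h4 := L.hasFDerivAt.comp_hasDerivAt t h3
  exact h4

end general

abbrev Fn : Type := ℤ →ᵇ ℝ

/-- shift operator -/
noncomputable def sh (k : ℤ) : Fn →L[ℝ] Fn :=
  LinearMap.mkContinuous
    { toFun := fun f => f.compContinuous ⟨fun x => x + k, continuous_of_discreteTopology⟩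
      map_add' := fun f g => by ext; simp
      map_smul' := fun c f => by ext; simp } 1 (fun f => by
        rw [one_mul]
        refine (BoundedContinuousFunction.norm_le (norm_nonneg _)).2 fun x => ?_
        exact f.norm_coe_le_norm _)

@[simp] theorem sh_apply (k : ℤ) (f : Fn) (x : ℤ) : sh k f x = f (x + k) := rfl

/-- `P f (x) = (f(x+1)+f(x-1))/2 + ζ(x) f(x)` -/
noncomputable def P (ζ : Fn) : Fn →L[ℝ] Fn :=
  (1 / 2 : ℝ) • sh 1 + (1 / 2 : ℝ) • sh (-1) + ContinuousLinearMap.mul ℝ Fn ζ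

@[simp] theorem P_apply (ζ f : Fn) (x : ℤ) :
    P ζ f x = (f (x + 1) + f (x - 1)) / 2 + ζ x * f x := by
  simp [P, sub_eq_add_neg]
  ring

/-- iterates of `P` -/
noncomputable def Pn (ζ : Fn) (n : ℕ) (f : Fn) : Fn := ((P ζ) ^ n) f

theorem Pn_zero (ζ f : Fn) : Pn ζ 0 f = f := by simp [Pn]

theorem Pn_succ (ζ f : Fn) (n : ℕ) (x : ℤ) : Pn ζ (n + 1) f x =
    (Pn ζ n f (x + 1) + Pn ζ n f (x - 1)) / 2 + ζ x * Pn ζ n f x := by
  have : Pn ζ (n + 1) f = P ζ (Pn ζ n f) := by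
    unfold Pn
    rw [pow_succ']
    rfl
  rw [this, P_apply]

theorem Pn_succ' (ζ f : Fn) (n : ℕ) : Pn ζ (n + 1) f = Pn ζ n (P ζ f) := by
  unfold Pn
  rw [pow_succ]
  rfl

/-- the semigroup `exp (t (P - 1))` -/
noncomputable def S (ζ : Fn) (t : ℝ) (f : Fn) : Fn := eop (P ζ) t f

theorem S_zero (ζ f : Fn) : S ζ 0 f = f := by simp [S, eop_zero]

theorem S_add (ζ f : Fn) (s t : ℝ) : S ζ (s + t) f = S ζ s (S ζ t f) := eop_add _ _ _ _

theorem S_hasSum (ζ f : Fn) (t : ℝ) (x : ℤ) :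
    HasSum (fun n : ℕ => Real.exp (-t) * (t ^ n / (n.factorial : ℝ)) * Pn ζ n f x) (S ζ t f x) := by
  have h := (BoundedContinuousFunction.evalCLM ℝ x : Fn →L[ℝ] ℝ).hasSum (eop_hasSum (P ζ) t f)
  exact h

theorem S_deriv (ζ f : Fn) (t : ℝ) : HasDerivAt (fun u => S ζ u f) (P ζ (S ζ t f) - S ζ t f) t :=
  eop_deriv _ _ _

theorem S_deriv_apply (ζ f : Fn) (t : ℝ) (x : ℤ) :
    HasDerivAt (fun u => S ζ u f x) ((S ζ t f (x + 1) + S ζ t f (x - 1)) / 2 - S ζ t f x +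
      ζ x * S ζ t f x) t := by
  have h := (BoundedContinuousFunction.evalCLM ℝ x : Fn →L[ℝ] ℝ).hasFDerivAt.comp_hasDerivAt t
    (S_deriv ζ f t)
  refine h.congr_deriv ?_
  simp
  ring

theorem Pn_nonneg {ζ f : Fn} (hζ : ∀ x, 0 ≤ ζ x) (hf : ∀ x, 0 ≤ f x) (n : ℕ) (x : ℤ) :
    0 ≤ Pn ζ n f x := by
  induction n generalizing x with
  | zero => simpa [Pn_zero] using hf x
  | succ n ih =>
    rw [Pn_succ]
    have := ih (x + 1)
    have := ih (x - 1)
    have := mul_nonneg (hζ x) (ih x)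
    linarith

theorem Pn_mono {ζ f g : Fn} (hζ : ∀ x, 0 ≤ ζ x) (h : ∀ x, f x ≤ g x) (n : ℕ) (x : ℤ) :
    Pn ζ n f x ≤ Pn ζ n g x := by
  induction n generalizing x with
  | zero => simpa [Pn_zero] using h x
  | succ n ih =>
    rw [Pn_succ, Pn_succ]
    have := ih (x + 1)
    have := ih (x - 1)
    have := mul_le_mul_of_nonneg_left (ih x) (hζ x)
    linarith

theorem S_nonneg {ζ f : Fn} (hζ : ∀ x, 0 ≤ ζ x) (hf : ∀ x, 0 ≤ f x) {t : ℝ} (ht : 0 ≤ t) (x : ℤ) :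
    0 ≤ S ζ t f x := by
  refine (S_hasSum ζ f t x).nonneg fun n => ?_
  have := Pn_nonneg hζ hf n x
  positivity

theorem S_mono {ζ f g : Fn} (hζ : ∀ x, 0 ≤ ζ x) (h : ∀ x, f x ≤ g x) {t : ℝ} (ht : 0 ≤ t) (x : ℤ) :
    S ζ t f x ≤ S ζ t g x := by
  refine hasSum_le (fun n => ?_) (S_hasSum ζ f t x) (S_hasSum ζ g t x)
  have := Pn_mono hζ h n x
  gcongr

/-- the power `n` sees at most distance `n`: lower bound along the straight path to the right -/
theorem Pn_straight {ζ f : Fn} (hζ : ∀ x, 0 ≤ ζ x) (hf : ∀ x, 0 ≤ f x) (n : ℕ) (x : ℤ) :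
    (1 / 2) ^ n * f (x + n) ≤ Pn ζ n f x := by
  induction n generalizing x with
  | zero => simp [Pn_zero]
  | succ n ih =>
    rw [Pn_succ]
    have h1 := ih (x + 1)
    have h2 := Pn_nonneg hζ hf n (x - 1)
    have h3 := mul_nonneg (hζ x) (Pn_nonneg hζ hf n x)
    have h4 : x + 1 + (n : ℤ) = x + ((n + 1 : ℕ) : ℤ) := by push_cast; ring
    rw [h4] at h1
    rw [pow_succ]
    linarith

/-- the same to the left -/
theorem Pn_straight' {ζ f : Fn} (hζ : ∀ x, 0 ≤ ζ x) (hf : ∀ x, 0 ≤ f x) (n : ℕ) (x : ℤ) :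
    (1 / 2) ^ n * f (x - n) ≤ Pn ζ n f x := by
  induction n generalizing x with
  | zero => simp [Pn_zero]
  | succ n ih =>
    rw [Pn_succ]
    have h1 := ih (x - 1)
    have h2 := Pn_nonneg hζ hf n (x + 1)
    have h3 := mul_nonneg (hζ x) (Pn_nonneg hζ hf n x)
    have h4 : x - 1 - (n : ℤ) = x - ((n + 1 : ℕ) : ℤ) := by push_cast; ring
    rw [h4] at h1
    rw [pow_succ]
    linarith

/-- one term of the series is a lower bound -/
theorem S_ge_term {ζ f : Fn} (hζ : ∀ x, 0 ≤ ζ x) (hf : ∀ x, 0 ≤ f x) {t : ℝ} (ht : 0 ≤ t) (n : ℕ)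
    (x : ℤ) : Real.exp (-t) * (t ^ n / (n.factorial : ℝ)) * Pn ζ n f x ≤ S ζ t f x := by
  refine le_hasSum (S_hasSum ζ f t x) n fun m _ => ?_
  have := Pn_nonneg hζ hf m x
  positivity

end Pool.Agent.Helper24.TB
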