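import Pool.Agent.Helper24.TB.Tree

/-! The renewal equation. -/

open MeasureTheory ProbabilityTheory Set Filter Topology

namespace Pool.Agent.Helper24.TB

theorem integral_exp (f : ℝ → ℝ) :
    ∫ u, f u ∂(expMeasure 1) = ∫ u in Ioi (0 : ℝ), Real.exp (-u) * f u := by
  have h0 : expMeasure 1 = volume.withDensity (exponentialPDF 1) := rfl
  have hm : Measurable (exponentialPDF 1) := by
    have := measurable_exponentialPDFReal 1
    exact this.ennreal_ofReal
  rw [h0, integral_withDensity_eq_integral_toReal_smul hm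
    (Eventually.of_forall fun x => ENNReal.ofReal_lt_top)]
  rw [← integral_Ici_eq_integral_Ioi, ← integral_indicator measurableSet_Ici]
  congr 1
  ext u
  rw [exponentialPDF_eq]
  by_cases hu : 0 ≤ u
  · rw [if_pos hu, indicator_of_mem (mem_Ici.2 hu), ENNReal.toReal_ofReal (by positivity)]
    simp
  · rw [if_neg hu, indicator_of_notMem (by simpa using hu)]
    simp

theorem tail_lt {c : ℝ} (hc : 0 ≤ c) :
    ∫ u, (if c < u then (1 : ℝ) else 0) ∂(expMeasure 1) = Real.exp (-c) := by
  rw [integral_exp]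
  have h1 : ∀ u : ℝ, Real.exp (-u) * (if c < u then (1 : ℝ) else 0) =
      (Ioi c).indicator (fun u => Real.exp (-u)) u := by
    intro u
    by_cases h : c < u
    · rw [if_pos h, indicator_of_mem (mem_Ioi.2 h), mul_one]
    · rw [if_neg h, indicator_of_notMem (by simpa using h), mul_zero]
  simp_rw [h1]
  rw [setIntegral_indicator measurableSet_Ioi]
  have h2 : Ioi (0 : ℝ) ∩ Ioi c = Ioi c := by
    ext u
    simp only [mem_inter_iff, mem_Ioi]
    exact ⟨fun h => h.2, fun h => ⟨lt_of_le_of_lt hc h, h⟩⟩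
  rw [h2, integral_exp_neg_Ioi]

theorem tail_le {c : ℝ} (hc : 0 ≤ c) :
    ∫ u, (if c ≤ u then (1 : ℝ) else 0) ∂(expMeasure 1) = Real.exp (-c) := by
  rw [integral_exp]
  have h1 : ∀ u : ℝ, Real.exp (-u) * (if c ≤ u then (1 : ℝ) else 0) =
      (Ici c).indicator (fun u => Real.exp (-u)) u := by
    intro u
    by_cases h : c ≤ u
    · rw [if_pos h, indicator_of_mem (mem_Ici.2 h), mul_one]
    · rw [if_neg h, indicator_of_notMem (by simpa using h), mul_zero]
  simp_rw [h1]
  rw [← integral_Ici_eq_integral_Ioi, setIntegral_indicator measurableSet_Ici]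
  have h2 : Ici (0 : ℝ) ∩ Ici c = Ici c := by
    ext u
    simp only [mem_inter_iff, mem_Ici]
    exact ⟨fun h => h.2, fun h => ⟨hc.trans h, h⟩⟩
  rw [h2, integral_Ici_eq_integral_Ioi, integral_exp_neg_Ioi]

theorem integral_coin (f : Bool → ℝ) : ∫ d, f d ∂coin = (f true + f false) / 2 := by
  have h0 : ∀ d : Bool, Integrable f ((1 / 2 : ENNReal) • Measure.dirac d) := by
    intro d
    refine Integrable.smul_measure ?_ (by simp)
    refine Integrable.of_bound (measurable_of_countable f).aestronglyMeasurable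
      (|f true| + |f false|) (Eventually.of_forall ?_)
    intro d
    cases d <;> simp
  have h1 := h0 true
  have h2 := h0 false
  rw [coin, integral_add_measure h1 h2, integral_smul_measure, integral_smul_measure,
    integral_dirac, integral_dirac]
  simp
  ring

theorem union_real {A : Set Tree} (hA : MeasurableSet A) :
    (treeLaw.prod treeLaw).real {q | q.1 ∈ A ∨ q.2 ∈ A} = 1 - (1 - treeLaw.real A) ^ 2 := by
  have h1 : {q : Tree × Tree | q.1 ∈ A ∨ q.2 ∈ A} = (Aᶜ ×ˢ Aᶜ)ᶜ := by
    ext q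
    simp only [mem_ofPred_eq, mem_compl_iff, mem_prod, not_and_or, not_not]
  rw [h1, probReal_compl_eq_one_sub (hA.compl.prod hA.compl), measureReal_prod_prod,
    probReal_compl_eq_one_sub hA]
  ring

variable (ξ : ℤ → ℝ) (y : ℤ) (t : ℝ) (x : ℤ)

/-- first part: the root is alive -/
noncomputable def G1 (c : Clock) : ℝ :=
  ((if t < c.1 then 1 else 0) * (if ξ x * t < c.2.1 then 1 else 0)) *
    (if y ≤ x then 1 else 0)

/-- second part: the root has jumped -/
noncomputable def G2 (c : Clock) : ℝ :=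
  (if ξ x * c.1 ≤ c.2.1 then 1 else 0) *
    ((if c.1 ≤ t then 1 else 0) * V ξ y (t - c.1) (x + jump c.2.2))

/-- third part: the root has branched -/
noncomputable def G3 (c : Clock) : ℝ :=
  (if c.2.1 / ξ x < c.1 then 1 else 0) *
    ((if c.2.1 / ξ x ≤ t then 1 else 0) * (1 - (1 - V ξ y (t - c.2.1 / ξ x) x) ^ 2))

theorem slice (hξ : 0 < ξ x) (ht : 0 ≤ t) (c : Clock) :
    (treeLaw.prod treeLaw).real (Prod.mk c ⁻¹' (join ⁻¹' (Ev ξ y t x))) =
      G1 ξ y t x c + G2 ξ y t x c + G3 ξ y t x c := by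
  obtain ⟨J, S, d⟩ := c
  have h0 : Prod.mk (J, S, d) ⁻¹' (join ⁻¹' (Ev ξ y t x)) = {q : Tree × Tree |
      (t < J ∧ t < S / ξ x ∧ y ≤ x) ∨
      (J ≤ S / ξ x ∧ J ≤ t ∧ q.1 ∈ Ev ξ y (t - J) (x + jump d)) ∨
      (S / ξ x < J ∧ S / ξ x ≤ t ∧
        (q.1 ∈ Ev ξ y (t - S / ξ x) x ∨ q.2 ∈ Ev ξ y (t - S / ξ x) x))} := by
    ext q
    exact mem_Ev_join ξ y ht x ((J, S, d), q)
  rw [h0]
  have e1 : (ξ x * t < S) ↔ t < S / ξ x := by rw [lt_div_iff₀ hξ, mul_comm]
  have e2 : (ξ x * J ≤ S) ↔ J ≤ S / ξ x := by rw [le_div_iff₀ hξ, mul_comm]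
  simp only [G1, G2, G3, e1, e2]
  rcases le_or_gt J (S / ξ x) with h1 | h1
  · have h1' := not_lt.2 h1
    rcases le_or_gt J t with h2 | h2
    · have h2' := not_lt.2 h2
      simp only [h1, h1', h2, h2', false_and, true_and, false_or, or_false, if_true, if_false,
        zero_mul, one_mul, zero_add, add_zero]
      have : {q : Tree × Tree | q.1 ∈ Ev ξ y (t - J) (x + jump d)} =
          Ev ξ y (t - J) (x + jump d) ×ˢ univ := by
        ext q; simp
      rw [this, measureReal_prod_prod, probReal_univ, mul_one]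
      rfl
    · have h2' := not_le.2 h2
      have h3 : t < S / ξ x := lt_of_lt_of_le h2 h1
      have h3' := not_le.2 h3
      simp only [h1, h1', h2, h2', h3, h3', false_and, true_and, or_false, if_true,
        if_false, zero_mul, one_mul, mul_one, mul_zero, add_zero, and_false]
      split_ifs with h4 <;> simp [h4]
  · have h1' := not_le.2 h1
    rcases le_or_gt (S / ξ x) t with h2 | h2
    · have h2' := not_lt.2 h2
      simp only [h1, h1', h2, h2', false_and, true_and, and_false, false_or, if_true,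
        if_false, zero_mul, one_mul, mul_zero, zero_add]
      exact union_real (measurableSet_Ev _ _ _ _)
    · have h2' := not_le.2 h2
      have h3 : t < J := h2.trans h1
      simp only [h1, h1', h2, h2', h3, false_and, true_and, and_false, or_false, if_true,
        if_false, zero_mul, one_mul, mul_zero, add_zero]
      split_ifs with h4 <;> simp [h4]

theorem V_eq_integral (hξ : 0 < ξ x) (ht : 0 ≤ t) :
    V ξ y t x = ∫ c, (G1 ξ y t x c + G2 ξ y t x c + G3 ξ y t x c) ∂clockLaw := by
  have h1 : MeasurableSet (join ⁻¹' (Ev ξ y t x)) := measurable_join (measurableSet_Ev ξ y t x)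
  unfold V
  rw [measureReal_def, treeLaw_apply (measurableSet_Ev ξ y t x), Measure.prod_apply h1,
    ← integral_toReal (measurable_measure_prodMk_left h1).aemeasurable
      (Eventually.of_forall fun c => measure_lt_top _ _)]
  congr 1
  ext c
  exact slice ξ y t x hξ ht c

theorem measurable_G1 : Measurable (G1 ξ y t x) := by
  unfold G1
  refine ((Measurable.ite (measurableSet_lt measurable_const (by fun_prop)) measurable_const
    measurable_const).mul (Measurable.ite (measurableSet_lt measurable_const (by fun_prop))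
    measurable_const measurable_const)).mul measurable_const

theorem measurable_G2 : Measurable (G2 ξ y t x) := by
  unfold G2
  refine (Measurable.ite (measurableSet_le (by fun_prop) (by fun_prop)) measurable_const
    measurable_const).mul ((Measurable.ite (measurableSet_le (by fun_prop) measurable_const)
    measurable_const measurable_const).mul ?_)
  have h1 : (fun c : Clock => V ξ y (t - c.1) (x + jump c.2.2)) =
      fun c : Clock => if c.2.2 = true then V ξ y (t - c.1) (x + 1) else
        V ξ y (t - c.1) (x + -1) := by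
    ext c
    unfold jump
    split_ifs <;> rfl
  rw [h1]
  refine Measurable.ite ?_ ((measurable_V ξ y _).comp (by fun_prop))
    ((measurable_V ξ y _).comp (by fun_prop))
  have : Measurable fun c : Clock => c.2.2 := by fun_prop
  exact this (measurableSet_singleton true)

theorem measurable_G3 : Measurable (G3 ξ y t x) := by
  unfold G3
  refine (Measurable.ite (measurableSet_lt (by fun_prop) (by fun_prop)) measurable_const
    measurable_const).mul ((Measurable.ite (measurableSet_le (by fun_prop) measurable_const)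
    measurable_const measurable_const).mul ?_)
  have : Measurable fun c : Clock => V ξ y (t - c.2.1 / ξ x) x :=
    (measurable_V ξ y x).comp (by fun_prop)
  fun_prop

theorem ite_nonneg' (p : Prop) [Decidable p] : 0 ≤ (if p then (1 : ℝ) else 0) := by
  split_ifs <;> norm_num

theorem ite_le_one' (p : Prop) [Decidable p] : (if p then (1 : ℝ) else 0) ≤ 1 := by
  split_ifs <;> norm_num

theorem abs_ite_mul_le {p : Prop} [Decidable p] {z : ℝ} (hz : |z| ≤ 1) :
    |(if p then (1 : ℝ) else 0) * z| ≤ 1 := by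
  split_ifs
  · simpa using hz
  · simp

theorem abs_V_le (y : ℤ) (t : ℝ) (x : ℤ) : |V ξ y t x| ≤ 1 := by
  rw [abs_of_nonneg (V_nonneg ξ y t x)]; exact V_le_one ξ y t x

theorem abs_F_le (y : ℤ) (t : ℝ) (x : ℤ) : |1 - (1 - V ξ y t x) ^ 2| ≤ 1 := by
  have h1 := V_nonneg ξ y t x
  have h2 := V_le_one ξ y t x
  rw [abs_le]
  constructor <;> nlinarith

theorem integrable_G1 : Integrable (G1 ξ y t x) clockLaw := by
  refine Integrable.of_bound (measurable_G1 ξ y t x).aestronglyMeasurable 1
    (Eventually.of_forall fun c => ?_)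
  rw [Real.norm_eq_abs, G1, mul_assoc]
  refine abs_ite_mul_le (abs_ite_mul_le ?_)
  split_ifs <;> simp

theorem integrable_G2 : Integrable (G2 ξ y t x) clockLaw := by
  refine Integrable.of_bound (measurable_G2 ξ y t x).aestronglyMeasurable 1
    (Eventually.of_forall fun c => ?_)
  rw [Real.norm_eq_abs, G2]
  exact abs_ite_mul_le (abs_ite_mul_le (abs_V_le ξ _ _ _))

theorem integrable_G3 : Integrable (G3 ξ y t x) clockLaw := by
  refine Integrable.of_bound (measurable_G3 ξ y t x).aestronglyMeasurable 1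
    (Eventually.of_forall fun c => ?_)
  rw [Real.norm_eq_abs, G3]
  exact abs_ite_mul_le (abs_ite_mul_le (abs_F_le ξ _ _ _))

theorem int_G1 (hξ : 0 < ξ x) (ht : 0 ≤ t) :
    ∫ c, G1 ξ y t x c ∂clockLaw = Real.exp (-((1 + ξ x) * t)) * (if y ≤ x then 1 else 0) := by
  unfold G1 clockLaw
  rw [integral_mul_const]
  congr 1
  have h1 := integral_prod_mul (μ := expMeasure 1) (ν := (expMeasure 1).prod coin)
    (fun u : ℝ => if t < u then (1 : ℝ) else 0) (fun q : ℝ × Bool => if ξ x * t < q.1 then 1 else 0)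
  rw [h1]
  have h2 := integral_prod_mul (μ := expMeasure 1) (ν := coin)
    (fun u : ℝ => if ξ x * t < u then (1 : ℝ) else 0) (fun _ : Bool => (1 : ℝ))
  simp only [mul_one, integral_const, probReal_univ, smul_eq_mul] at h2
  rw [h2, tail_lt ht, tail_lt (by positivity), ← Real.exp_add]
  congr 1
  ring

/-- the average over the two neighbours -/
noncomputable def Av (τ : ℝ) : ℝ := (V ξ y τ (x + 1) + V ξ y τ (x - 1)) / 2

/-- the probability that one of two independent particles succeeds -/
noncomputable def Fv (τ : ℝ) : ℝ := 1 - (1 - V ξ y τ x) ^ 2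

theorem int_G2 (hξ : 0 < ξ x) (ht : 0 ≤ t) :
    ∫ c, G2 ξ y t x c ∂clockLaw =
      ∫ j in (0 : ℝ)..t, Real.exp (-((1 + ξ x) * j)) * Av ξ y x (t - j) := by
  have h0 : ∫ c, G2 ξ y t x c ∂clockLaw = ∫ J, ∫ q, G2 ξ y t x (J, q) ∂((expMeasure 1).prod coin)
      ∂(expMeasure 1) := integral_prod _ (integrable_G2 ξ y t x)
  rw [h0, integral_exp]
  have h1 : ∀ J ∈ Ioi (0 : ℝ), Real.exp (-J) *
      ∫ q, G2 ξ y t x (J, q) ∂((expMeasure 1).prod coin) =
      (Ioc 0 t).indicator (fun j => Real.exp (-((1 + ξ x) * j)) * Av ξ y x (t - j)) J := by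
    intro J hJ
    have hJ' : 0 < J := hJ
    have h2 := integral_prod_mul (μ := expMeasure 1) (ν := coin)
      (fun u : ℝ => if ξ x * J ≤ u then (1 : ℝ) else 0)
      (fun d : Bool => (if J ≤ t then (1 : ℝ) else 0) * V ξ y (t - J) (x + jump d))
    have h3 : ∫ q, G2 ξ y t x (J, q) ∂((expMeasure 1).prod coin) =
      ∫ z : ℝ × Bool, (if ξ x * J ≤ z.1 then (1 : ℝ) else 0) *
        ((if J ≤ t then (1 : ℝ) else 0) * V ξ y (t - J) (x + jump z.2))
        ∂((expMeasure 1).prod coin) := rfl
    rw [h3, h2, tail_le (by positivity), integral_coin]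
    by_cases hJt : J ≤ t
    · rw [indicator_of_mem (show J ∈ Ioc 0 t from ⟨hJ', hJt⟩), if_pos hJt]
      have h4 : Real.exp (-((1 + ξ x) * J)) = Real.exp (-J) * Real.exp (-(ξ x * J)) := by
        rw [← Real.exp_add]; congr 1; ring
      rw [h4, Av, jump, jump]
      simp only [if_true, one_mul, Bool.false_eq_true, if_false]
      rw [sub_eq_add_neg x 1]
      ring
    · rw [indicator_of_notMem (show J ∉ Ioc 0 t from fun h => hJt h.2), if_neg hJt]
      simp
  rw [setIntegral_congr_fun measurableSet_Ioi h1, setIntegral_indicator measurableSet_Ioc,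
    intervalIntegral.integral_of_le ht]
  congr 2
  ext u
  simp only [mem_inter_iff, mem_Ioi, mem_Ioc]
  tauto

theorem int_G3 (hξ : 0 < ξ x) (ht : 0 ≤ t) :
    ∫ c, G3 ξ y t x c ∂clockLaw =
      ∫ j in (0 : ℝ)..t, Real.exp (-((1 + ξ x) * j)) * (ξ x * Fv ξ y x (t - j)) := by
  have h0 : ∫ c, G3 ξ y t x c ∂clockLaw = ∫ q, ∫ J, G3 ξ y t x (J, q) ∂(expMeasure 1)
      ∂((expMeasure 1).prod coin) := integral_prod_symm _ (integrable_G3 ξ y t x)
  rw [h0]
  set h : ℝ → ℝ := fun S => (∫ J, (if S / ξ x < J then (1 : ℝ) else 0) ∂(expMeasure 1)) *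
    ((if S / ξ x ≤ t then 1 else 0) * Fv ξ y x (t - S / ξ x)) with hh
  have h1 : ∀ q : ℝ × Bool, ∫ J, G3 ξ y t x (J, q) ∂(expMeasure 1) = h q.1 * 1 := by
    intro q
    rw [mul_one, hh]
    simp only [G3]
    exact integral_mul_const (μ := expMeasure 1) ((if q.1 / ξ x ≤ t then (1 : ℝ) else 0) *
      (1 - (1 - V ξ y (t - q.1 / ξ x) x) ^ 2)) (fun J => if q.1 / ξ x < J then (1 : ℝ) else 0)
  simp_rw [h1]
  rw [integral_prod_mul (μ := expMeasure 1) (ν := coin) h (fun _ : Bool => (1 : ℝ))]
  simp only [integral_const, probReal_univ, smul_eq_mul, mul_one]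
  rw [integral_exp]
  have h2 : ∀ S ∈ Ioi (0 : ℝ), Real.exp (-S) * h S = (Ioc 0 (ξ x * t)).indicator
      (fun S => Real.exp (-((1 + ξ x) * (S / ξ x))) * Fv ξ y x (t - S / ξ x)) S := by
    intro S hS
    have hS' : 0 < S := hS
    simp only [hh]
    rw [tail_lt (by positivity)]
    have e1 : (S / ξ x ≤ t) ↔ S ≤ ξ x * t := by rw [div_le_iff₀ hξ, mul_comm]
    by_cases hSt : S ≤ ξ x * t
    · rw [indicator_of_mem (show S ∈ Ioc 0 (ξ x * t) from ⟨hS', hSt⟩), if_pos (e1.2 hSt)]
      have h4 : Real.exp (-((1 + ξ x) * (S / ξ x))) = Real.exp (-S) * Real.exp (-(S / ξ x)) := by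
        rw [← Real.exp_add]; congr 1; field_simp; ring
      rw [h4]
      ring
    · rw [indicator_of_notMem (show S ∉ Ioc 0 (ξ x * t) from fun h => hSt h.2),
        if_neg (fun h => hSt (e1.1 h))]
      simp
  rw [setIntegral_congr_fun measurableSet_Ioi h2, setIntegral_indicator measurableSet_Ioc]
  have h3 : Ioi (0 : ℝ) ∩ Ioc 0 (ξ x * t) = Ioc 0 (ξ x * t) := by
    ext u
    simp only [mem_inter_iff, mem_Ioi, mem_Ioc]
    tauto
  have ht' : 0 ≤ ξ x * t := by positivity
  rw [h3, ← intervalIntegral.integral_of_le ht']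
  have h4 := intervalIntegral.integral_comp_div (a := 0) (b := ξ x * t) (c := ξ x)
    (f := fun j => Real.exp (-((1 + ξ x) * j)) * Fv ξ y x (t - j)) hξ.ne'
  rw [h4, zero_div, mul_div_cancel_left₀ _ hξ.ne', smul_eq_mul,
    ← intervalIntegral.integral_const_mul]
  congr 1
  ext j
  ring

end Pool.Agent.Helper24.TB
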