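import Pool.Agent.Helper24.TB.Cmp
import Pool.Agent.Helper24.TB.Lin3

/-! Solutions of the lattice Fisher-KPP equation, comparison with linear solutions. -/

open Set Filter Topology BoundedContinuousFunction

namespace Pool.Agent.Helper24.TB

theorem cmp2 {D D' : ℝ → ℤ → ℝ} {α : ℤ → ℝ} {T0 T1 M c : ℝ} (hM : 0 ≤ M) (hc : 0 ≤ c)
    (hα : ∀ x, T0 ≤ α x)
    (hbd : ∀ t x, α x ≤ t → t ≤ T1 → D t x ≤ M)
    (hcont : ∀ x, ContinuousOn (fun t => D t x) (Icc (α x) T1))
    (hder : ∀ x t, α x ≤ t → t < T1 → HasDerivWithinAt (fun s => D s x) (D' t x) (Ici t) t)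
    (h0 : ∀ x, α x ≤ T1 → D (α x) x ≤ 0)
    (hlat : ∀ x t, α x ≤ t → t < T1 → (t < α (x + 1) → D t (x + 1) ≤ 0) ∧
      (t < α (x - 1) → D t (x - 1) ≤ 0))
    (hineq : ∀ x t, α x ≤ t → t < T1 → 0 < D t x →
      D' t x ≤ (D t (x + 1) + D t (x - 1)) / 2 + c * D t x) :
    ∀ x t, α x ≤ t → t ≤ T1 → D t x ≤ 0 := by
  refine cmp (C := 1 / 2 + c) hM (by positivity) hα hbd hcont hder h0 fun x t h1 h2 h3 => ?_
  have e1 := hineq x t h1 h2 h3
  obtain ⟨l1, l2⟩ := hlat x t h1 h2
  have e2 : D t (x + 1) ≤ act α D t (x + 1) := by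
    unfold act
    split_ifs with h
    · exact le_max_left _ _
    · exact l1 (not_le.1 h)
  have e3 : D t (x - 1) ≤ act α D t (x - 1) := by
    unfold act
    split_ifs with h
    · exact le_max_left _ _
    · exact l2 (not_le.1 h)
  have p1 : 0 ≤ act α D t (x + 1) := by
    unfold act
    split_ifs
    · exact le_max_right _ _
    · exact le_rfl
  have p2 : 0 ≤ act α D t (x - 1) := by
    unfold act
    split_ifs
    · exact le_max_right _ _
    · exact le_rfl
  have p3 : 0 ≤ c * act α D t (x + 1) := by positivity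
  have p4 : 0 ≤ c * act α D t (x - 1) := by positivity
  linarith

/-- solutions of `v' = (v(x+1)+v(x-1))/2 - v + ζ v (1 - v)` with values in `[0,1]` -/
structure Sol (ζ : Fn) (v : ℝ → ℤ → ℝ) : Prop where
  nonneg : ∀ t x, 0 ≤ t → 0 ≤ v t x
  le_one : ∀ t x, 0 ≤ t → v t x ≤ 1
  der : ∀ t x, 0 ≤ t → HasDerivWithinAt (fun s => v s x)
    ((v t (x + 1) + v t (x - 1)) / 2 - v t x + ζ x * (v t x * (1 - v t x))) (Ici t) t
  cont : ∀ x, ContinuousOn (fun s => v s x) (Ici 0)

variable {ζ : Fn} {a b : ℝ} {v : ℝ → ℤ → ℝ}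

theorem Sol.shift (h : Sol ζ v) {s : ℝ} (hs : 0 ≤ s) : Sol ζ (fun t => v (t + s)) where
  nonneg t x ht := h.nonneg _ _ (by linarith)
  le_one t x ht := h.le_one _ _ (by linarith)
  der t x ht := by
    have h1 := h.der (t + s) x (by linarith)
    have h2 : HasDerivWithinAt (fun u : ℝ => u + s) 1 (Ici t) t :=
      ((hasDerivAt_id t).add_const s).hasDerivWithinAt
    have h3 := h1.scomp t h2 (fun u hu => by simpa using hu)
    simpa [Function.comp_def] using h3
  cont x := by
    refine (h.cont x).comp (by fun_prop) fun u hu => ?_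
    simp only [mem_Ici] at hu ⊢
    linarith

/-- U3 -/
theorem Sol.le_S (h : Sol ζ v) (hζ : ∀ x, 0 ≤ ζ x) (hb : ∀ x, ζ x ≤ b) {f : Fn}
    (hf : ∀ x, 0 ≤ f x) (hv : ∀ x, v 0 x ≤ f x) {t : ℝ} (ht : 0 ≤ t) (x : ℤ) :
    v t x ≤ S ζ t f x := by
  have hb0 : 0 ≤ b := (hζ 0).trans (hb 0)
  have key := cmp2 (D := fun t x => v t x - S ζ t f x)
    (D' := fun t x => ((v t (x + 1) + v t (x - 1)) / 2 - v t x + ζ x * (v t x * (1 - v t x))) -
      ((S ζ t f (x + 1) + S ζ t f (x - 1)) / 2 - S ζ t f x + ζ x * S ζ t f x))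
    (α := fun _ => 0) (T0 := 0) (T1 := t) (M := 1) (c := b) zero_le_one hb0
    (fun _ => le_rfl)
    (fun s x h1 _ => by
      have := h.le_one s x h1
      have := S_nonneg hζ hf h1 x
      linarith)
    (fun x => by
      refine ContinuousOn.sub ((h.cont x).mono Icc_subset_Ici_self) ?_
      exact fun s _ => (S_deriv_apply ζ f s x).continuousAt.continuousWithinAt)
    (fun x s h1 _ => (h.der s x h1).sub (S_deriv_apply ζ f s x).hasDerivWithinAt)
    (fun x _ => by rw [S_zero]; linarith [hv x])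
    (fun x s h1 _ => ⟨fun h2 => absurd h1 (not_le.2 h2), fun h2 => absurd h1 (not_le.2 h2)⟩)
    (fun x s h1 _ h3 => by
      have e1 := h.nonneg s x h1
      have e2 := hζ x
      have e3 := hb x
      have e4 : 0 ≤ ζ x * (v s x * v s x) := by positivity
      have e5 : ζ x * (v s x - S ζ s f x) ≤ b * (v s x - S ζ s f x) :=
        mul_le_mul_of_nonneg_right e3 h3.le
      linarith)
  have := key x t ht le_rfl
  linarith

theorem Sol.le_exp (h : Sol ζ v) (hζ : ∀ x, 0 ≤ ζ x) (hb : ∀ x, ζ x ≤ b) {y : ℤ}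
    (hv : ∀ x, v 0 x = ind y x) {t : ℝ} (ht : 0 ≤ t) (x : ℤ) :
    v t x ≤ Real.exp ((1 + b) * t - ((y : ℝ) - x)) :=
  (h.le_S hζ hb (ind_nonneg y) (fun x => (hv x).le) ht x).trans (S_ind_le hζ hb y ht x)

/-- U2 -/
theorem Sol.ge_exp (h : Sol ζ v) (hζ : ∀ x, 0 ≤ ζ x) {y : ℤ}
    (hv : ∀ x, v 0 x = ind y x) {t : ℝ} (ht : 0 ≤ t) (x : ℤ) :
    1 - Real.exp (t - ((x : ℝ) - y)) ≤ v t x := by
  have e1 : ∀ (t : ℝ) (x : ℤ), Real.exp (t - (((x + 1 : ℤ) : ℝ) - y)) =
      Real.exp (-1) * Real.exp (t - ((x : ℝ) - y)) := by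
    intro t x
    rw [← Real.exp_add]; push_cast; congr 1; ring
  have e2 : ∀ (t : ℝ) (x : ℤ), Real.exp (t - (((x - 1 : ℤ) : ℝ) - y)) =
      Real.exp 1 * Real.exp (t - ((x : ℝ) - y)) := by
    intro t x
    rw [← Real.exp_add]; push_cast; congr 1; ring
  have key := cmp2 (D := fun t x => 1 - v t x - Real.exp (t - ((x : ℝ) - y)))
    (D' := fun t x => - ((v t (x + 1) + v t (x - 1)) / 2 - v t x + ζ x * (v t x * (1 - v t x))) -
      Real.exp (t - ((x : ℝ) - y)))
    (α := fun _ => 0) (T0 := 0) (T1 := t) (M := 1) (c := 0) zero_le_one le_rfl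
    (fun _ => le_rfl)
    (fun s x h1 _ => by
      have := h.nonneg s x h1
      have := Real.exp_pos (s - ((x : ℝ) - y))
      linarith)
    (fun x => by
      refine ContinuousOn.sub (continuousOn_const.sub ((h.cont x).mono Icc_subset_Ici_self)) ?_
      fun_prop)
    (fun x s h1 _ => by
      have h2 : HasDerivAt (fun s : ℝ => Real.exp (s - ((x : ℝ) - y)))
          (Real.exp (s - ((x : ℝ) - y))) s := by
        simpa using ((hasDerivAt_id s).sub_const ((x : ℝ) - y)).exp
      exact ((h.der s x h1).const_sub 1).sub h2.hasDerivWithinAt)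
    (fun x _ => by
      simp only [hv x, ind_apply]
      split_ifs with hx
      · have := Real.exp_pos (0 - ((x : ℝ) - y))
        linarith
      · push Not at hx
        have : (x : ℝ) < y := by exact_mod_cast hx
        have h2 : 1 ≤ Real.exp (0 - ((x : ℝ) - y)) := by
          rw [Real.one_le_exp_iff]; linarith
        linarith)
    (fun x s h1 _ => ⟨fun h2 => absurd h1 (not_le.2 h2), fun h2 => absurd h1 (not_le.2 h2)⟩)
    (fun x s h1 _ h3 => by
      have f1 := h.nonneg s x h1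
      have f2 := h.le_one s x h1
      have f3 := hζ x
      have f4 : 0 ≤ ζ x * (v s x * (1 - v s x)) := by
        have : 0 ≤ 1 - v s x := by linarith
        positivity
      have f5 := cosh_one_le
      rw [Real.cosh_eq] at f5
      have f6 := mul_le_mul_of_nonneg_right f5 (Real.exp_pos (s - ((x : ℝ) - y))).le
      rw [e1, e2]
      nlinarith [f6])
  have := key x t ht le_rfl
  linarith

/-- U7: pure walk lower bound -/
theorem Sol.ge_S0 (h : Sol ζ v) (hζ : ∀ x, 0 ≤ ζ x) {f : Fn}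
    (hf : ∀ x, f x ≤ v 0 x) {t : ℝ} (ht : 0 ≤ t) (x : ℤ) :
    S 0 t f x ≤ v t x := by
  have hz : ∀ x, (0 : Fn) x ≤ 0 := fun x => by simp
  have hz' : ∀ x, 0 ≤ (0 : Fn) x := fun x => by simp
  have key := cmp2 (D := fun t x => S 0 t f x - v t x)
    (D' := fun t x => ((S 0 t f (x + 1) + S 0 t f (x - 1)) / 2 - S 0 t f x +
        (0 : Fn) x * S 0 t f x) -
      ((v t (x + 1) + v t (x - 1)) / 2 - v t x + ζ x * (v t x * (1 - v t x))))
    (α := fun _ => 0) (T0 := 0) (T1 := t) (M := 1) (c := 0) zero_le_one le_rfl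
    (fun _ => le_rfl)
    (fun s x h1 _ => by
      have e1 := h.nonneg s x h1
      have e2 := S_le_exp (ζ := 0) (b := 0) hz' hz (f := f) (c := 1)
        (fun x => (hf x).trans (h.le_one 0 x le_rfl)) zero_le_one h1 x
      simp at e2
      linarith)
    (fun x => by
      refine ContinuousOn.sub ?_ ((h.cont x).mono Icc_subset_Ici_self)
      exact fun s _ => (S_deriv_apply 0 f s x).continuousAt.continuousWithinAt)
    (fun x s h1 _ => (S_deriv_apply 0 f s x).hasDerivWithinAt.sub (h.der s x h1))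
    (fun x _ => by rw [S_zero]; linarith [hf x])
    (fun x s h1 _ => ⟨fun h2 => absurd h1 (not_le.2 h2), fun h2 => absurd h1 (not_le.2 h2)⟩)
    (fun x s h1 _ h3 => by
      have f1 := h.nonneg s x h1
      have f2 := h.le_one s x h1
      have f3 := hζ x
      have f4 : 0 ≤ ζ x * (v s x * (1 - v s x)) := by
        have : 0 ≤ 1 - v s x := by linarith
        positivity
      simp only [BoundedContinuousFunction.coe_zero, Pi.zero_apply, zero_mul] at h3 ⊢
      linarith)
  have := key x t ht le_rfl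
  linarith

/-- the function `v t` as a bounded function -/
noncomputable def Sol.fn (h : Sol ζ v) {t : ℝ} (ht : 0 ≤ t) : Fn :=
  BoundedContinuousFunction.ofNormedAddCommGroup (fun x : ℤ => v t x)
    continuous_of_discreteTopology 1 (fun x => by
      rw [Real.norm_eq_abs, abs_of_nonneg (h.nonneg t x ht)]
      exact h.le_one t x ht)

/-- lower bound by moving straight, any time `s > 0` -/
theorem Sol.ge_right (h : Sol ζ v) (hζ : ∀ x, 0 ≤ ζ x) {t s : ℝ} (ht : 0 ≤ t) (hs : 0 ≤ s) (x : ℤ)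
    (r : ℕ) : Real.exp (-s) * ((s / 2) ^ r / (r.factorial : ℝ)) * v t (x + r) ≤ v (s + t) x := by
  have h1 := (h.shift ht).ge_S0 hζ (f := h.fn ht) (fun x => by simp [Sol.fn]) hs x
  refine le_trans ?_ h1
  exact S_straight (ζ := 0) (fun x => by simp) (f := h.fn ht) (fun x => h.nonneg t x ht) hs x r

theorem Sol.ge_left (h : Sol ζ v) (hζ : ∀ x, 0 ≤ ζ x) {t s : ℝ} (ht : 0 ≤ t) (hs : 0 ≤ s) (x : ℤ)
    (r : ℕ) : Real.exp (-s) * ((s / 2) ^ r / (r.factorial : ℝ)) * v t (x - r) ≤ v (s + t) x := by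
  have h1 := (h.shift ht).ge_S0 hζ (f := h.fn ht) (fun x => by simp [Sol.fn]) hs x
  refine le_trans ?_ h1
  exact S_straight' (ζ := 0) (fun x => by simp) (f := h.fn ht) (fun x => h.nonneg t x ht) hs x r

/-- U4: nonlinear solution is comparable with the linear one in the far region -/
theorem Sol.ge_far (h : Sol ζ v) (hζ : ∀ x, 0 ≤ ζ x) (hb : ∀ x, ζ x ≤ b) (x : ℤ) (r : ℕ)
    (hv : ∀ z, v 0 z = ind (x + r) z) {T : ℝ} (hT : 0 ≤ T) (hr : Bfar b * T ≤ r) :
    1 / (8 * b + 4) * S ζ T (ind (x + r)) x ≤ v T x := by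
  have hb0 : 0 ≤ b := (hζ 0).trans (hb 0)
  set y : ℤ := x + r with hy
  set η : ℝ := 1 / (4 * b + 2) with hη
  have hη0 : 0 < η := by positivity
  have hη1 : η ≤ 1 := by
    rw [hη, div_le_one (by positivity)]; linarith
  have key := cmp2 (D := fun t x => η * S ζ t (ind y) x - η ^ 2 * W2 ζ y t x - v t x)
    (D' := fun t x => η * ((S ζ t (ind y) (x + 1) + S ζ t (ind y) (x - 1)) / 2 -
          S ζ t (ind y) x + ζ x * S ζ t (ind y) x) -
        η ^ 2 * ((W2 ζ y t (x + 1) + W2 ζ y t (x - 1)) / 2 - W2 ζ y t x +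
          ζ x * W2 ζ y t x + ζ x * (S ζ t (ind y) x * S ζ t (ind y) x)) -
      ((v t (x + 1) + v t (x - 1)) / 2 - v t x + ζ x * (v t x * (1 - v t x))))
    (α := fun _ => 0) (T0 := 0) (T1 := T) (M := Real.exp (b * T)) (c := b) (by positivity) hb0
    (fun _ => le_rfl)
    (fun s x h1 h2 => by
      have e1 := h.nonneg s x h1
      have e2 := S_le_exp hζ hb (ind_le_one y) zero_le_one h1 x
      have e3 := W2_nonneg hζ y h1 x
      have e4 : Real.exp (b * s) ≤ Real.exp (b * T) := by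
        rw [Real.exp_le_exp]; gcongr
      have e5 := S_nonneg hζ (ind_nonneg y) h1 x
      have e6 : η * S ζ s (ind y) x ≤ 1 * S ζ s (ind y) x := by gcongr
      have e7 : 0 ≤ η ^ 2 * W2 ζ y s x := by positivity
      linarith)
    (fun x => by
      refine ContinuousOn.sub (ContinuousOn.sub ?_ ?_) ((h.cont x).mono Icc_subset_Ici_self)
      · exact fun s _ => ((S_deriv_apply ζ (ind y) s x).const_mul η).continuousAt.continuousWithinAt
      · exact fun s _ => ((W2_deriv ζ y s x).const_mul (η ^ 2)).continuousAt.continuousWithinAt)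
    (fun x s h1 _ => (((S_deriv_apply ζ (ind y) s x).const_mul η).sub
      ((W2_deriv ζ y s x).const_mul (η ^ 2))).hasDerivWithinAt.sub (h.der s x h1))
    (fun x _ => by
      have e1 := ind_nonneg y x
      simp only [S_zero, W2_zero, hv x]
      simp only [BoundedContinuousFunction.coe_zero, Pi.zero_apply, mul_zero]
      nlinarith)
    (fun x s h1 _ => ⟨fun h2 => absurd h1 (not_le.2 h2), fun h2 => absurd h1 (not_le.2 h2)⟩)
    (fun x s h1 _ h3 => by
      have f1 := h.nonneg s x h1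
      have f3 := hζ x
      have f5 := W2_nonneg hζ y h1 x
      have f6 : 0 ≤ η ^ 2 * W2 ζ y s x := by positivity
      have f7 : v s x ≤ η * S ζ s (ind y) x := by linarith
      have f8 : v s x * v s x ≤ (η * S ζ s (ind y) x) * (η * S ζ s (ind y) x) :=
        mul_self_le_mul_self f1 f7
      have f9 := mul_le_mul_of_nonneg_left f8 f3
      have f10 := mul_le_mul_of_nonneg_right (hb x) h3.le
      linarith)
  have h1 := key x T hT le_rfl
  have h2 := W2_le hζ hb x r hT hr
  rw [← hy] at h2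
  have h3 := S_nonneg hζ (ind_nonneg y) hT x
  have h4 : η ^ 2 * W2 ζ y T x ≤ η / 2 * S ζ T (ind y) x := by
    calc η ^ 2 * W2 ζ y T x ≤ η ^ 2 * (2 * b * S ζ T (ind y) x) := by gcongr
      _ = (η * (2 * b)) * (η * S ζ T (ind y) x) := by ring
      _ ≤ (1 / 2) * (η * S ζ T (ind y) x) := by
          gcongr
          rw [hη, div_mul_eq_mul_div, one_mul, div_le_div_iff₀ (by positivity) (by norm_num)]
          linarith
      _ = _ := by ring
  have h5 : 1 / (8 * b + 4) = η / 2 := by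
    rw [hη]
    field_simp
    ring
  rw [h5]
  linarith

end Pool.Agent.Helper24.TB
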