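import Pool.Agent.Helper24.TB.Renewal
import Pool.Agent.Helper24.TB.Core

/-! The distribution function of one tree solves the lattice equation. -/

open MeasureTheory ProbabilityTheory Set Filter Topology

namespace Pool.Agent.Helper24.TB

variable (ξ : ℤ → ℝ) (y : ℤ) (x : ℤ)

/-- integrand of the renewal equation -/
noncomputable def gren (τ : ℝ) : ℝ :=
  Real.exp ((1 + ξ x) * τ) * (Av ξ y x τ + ξ x * Fv ξ y x τ)

theorem measurable_Av : Measurable (Av ξ y x) := by
  unfold Av
  have := measurable_V ξ y (x + 1)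
  have := measurable_V ξ y (x - 1)
  fun_prop

theorem measurable_Fv : Measurable (Fv ξ y x) := by
  unfold Fv
  have := measurable_V ξ y x
  fun_prop

theorem measurable_gren : Measurable (gren ξ y x) := by
  unfold gren
  have := measurable_Av ξ y x
  have := measurable_Fv ξ y x
  fun_prop

theorem abs_Av_le (τ : ℝ) : |Av ξ y x τ| ≤ 1 := by
  unfold Av
  have h1 := V_nonneg ξ y τ (x + 1)
  have h2 := V_le_one ξ y τ (x + 1)
  have h3 := V_nonneg ξ y τ (x - 1)
  have h4 := V_le_one ξ y τ (x - 1)
  rw [abs_le]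
  constructor <;> linarith

theorem intervalIntegrable_q (a b : ℝ) :
    IntervalIntegrable (fun τ => Av ξ y x τ + ξ x * Fv ξ y x τ) volume a b := by
  rw [intervalIntegrable_iff]
  refine Measure.integrableOn_of_bounded (M := 1 + |ξ x|) (by simp) ?_ (Eventually.of_forall ?_)
  · have := measurable_Av ξ y x
    have := measurable_Fv ξ y x
    exact Measurable.aestronglyMeasurable (by fun_prop)
  · intro τ
    have h1 := abs_Av_le ξ y x τ
    have h2 := abs_F_le ξ y τ x
    rw [Real.norm_eq_abs]
    refine (abs_add_le _ _).trans ?_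
    rw [abs_mul]
    have h3 : |ξ x| * |Fv ξ y x τ| ≤ |ξ x| * 1 := by
      have := abs_nonneg (ξ x)
      unfold Fv
      gcongr
    linarith

theorem intervalIntegrable_gren (a b : ℝ) : IntervalIntegrable (gren ξ y x) volume a b := by
  have h1 := (intervalIntegrable_q ξ y x a b).continuousOn_mul
    (g := fun τ => Real.exp ((1 + ξ x) * τ)) (by fun_prop)
  exact h1

theorem V_formula (hξ : 0 < ξ x) {t : ℝ} (ht : 0 ≤ t) :
    V ξ y t x = Real.exp (-((1 + ξ x) * t)) *
      ((if y ≤ x then 1 else 0) + ∫ τ in (0 : ℝ)..t, gren ξ y x τ) := by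
  have h12 : Integrable (fun c => G1 ξ y t x c + G2 ξ y t x c) clockLaw :=
    (integrable_G1 ξ y t x).add (integrable_G2 ξ y t x)
  rw [V_eq_integral ξ y t x hξ ht, integral_add h12 (integrable_G3 ξ y t x),
    integral_add (integrable_G1 ξ y t x) (integrable_G2 ξ y t x),
    int_G1 ξ y t x hξ ht, int_G2 ξ y t x hξ ht, int_G3 ξ y t x hξ ht, mul_add, add_assoc]
  congr 1
  have i1 : IntervalIntegrable (fun j => Real.exp (-((1 + ξ x) * j)) * Av ξ y x (t - j))
      volume 0 t := by
    have h1 : IntervalIntegrable (fun j => Av ξ y x (t - j)) volume 0 t := by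
      rw [intervalIntegrable_iff]
      refine Measure.integrableOn_of_bounded (M := 1) (by simp) ?_ (Eventually.of_forall ?_)
      · have := measurable_Av ξ y x
        exact Measurable.aestronglyMeasurable (by fun_prop)
      · intro τ
        exact abs_Av_le ξ y x (t - τ)
    exact h1.continuousOn_mul (g := fun j => Real.exp (-((1 + ξ x) * j))) (by fun_prop)
  have i2 : IntervalIntegrable (fun j => Real.exp (-((1 + ξ x) * j)) *
      (ξ x * Fv ξ y x (t - j))) volume 0 t := by
    have h1 : IntervalIntegrable (fun j => ξ x * Fv ξ y x (t - j)) volume 0 t := by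
      refine IntervalIntegrable.const_mul ?_ _
      rw [intervalIntegrable_iff]
      refine Measure.integrableOn_of_bounded (M := 1) (by simp) ?_ (Eventually.of_forall ?_)
      · have := measurable_Fv ξ y x
        exact Measurable.aestronglyMeasurable (by fun_prop)
      · intro τ
        exact abs_F_le ξ y (t - τ) x
    exact h1.continuousOn_mul (g := fun j => Real.exp (-((1 + ξ x) * j))) (by fun_prop)
  rw [← intervalIntegral.integral_add i1 i2]
  have h2 := intervalIntegral.integral_comp_sub_left (a := 0) (b := t)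
    (f := fun τ => Real.exp (-((1 + ξ x) * (t - τ))) * (Av ξ y x τ + ξ x * Fv ξ y x τ)) t
  simp only [sub_sub_cancel, sub_self, sub_zero] at h2
  calc ∫ j in (0 : ℝ)..t, (Real.exp (-((1 + ξ x) * j)) * Av ξ y x (t - j) +
        Real.exp (-((1 + ξ x) * j)) * (ξ x * Fv ξ y x (t - j)))
      = ∫ j in (0 : ℝ)..t, Real.exp (-((1 + ξ x) * j)) *
          (Av ξ y x (t - j) + ξ x * Fv ξ y x (t - j)) := by
        congr 1; ext j; ring
    _ = _ := h2
    _ = _ := by
        rw [← intervalIntegral.integral_const_mul]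
        congr 1
        ext τ
        unfold gren
        rw [← mul_assoc, ← Real.exp_add]
        congr 2
        ring

theorem V_cont (hξ : 0 < ξ x) : ContinuousOn (fun s => V ξ y s x) (Ici 0) := by
  have h1 : Continuous fun t => Real.exp (-((1 + ξ x) * t)) *
      ((if y ≤ x then 1 else 0) + ∫ τ in (0 : ℝ)..t, gren ξ y x τ) := by
    have := intervalIntegral.continuous_primitive (μ := volume) (f := gren ξ y x)
      (fun a b => intervalIntegrable_gren ξ y x a b) 0
    fun_prop
  exact h1.continuousOn.congr fun t ht => V_formula ξ y x hξ ht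

theorem V_deriv (hξ : ∀ x, 0 < ξ x) {t : ℝ} (ht : 0 ≤ t) :
    HasDerivWithinAt (fun s => V ξ y s x)
      ((V ξ y t (x + 1) + V ξ y t (x - 1)) / 2 - V ξ y t x +
        ξ x * (V ξ y t x * (1 - V ξ y t x))) (Ici t) t := by
  have hc : ContinuousWithinAt (gren ξ y x) (Ioi t) t := by
    have h : ∀ z, ContinuousWithinAt (fun s => V ξ y s z) (Ioi t) t := fun z =>
      (V_cont ξ y z (hξ z) t ht).mono fun s hs => mem_Ici.2 (ht.trans (mem_Ioi.1 hs).le)
    have h1 := h (x + 1)
    have h2 := h (x - 1)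
    have h3 := h x
    unfold gren Av Fv
    fun_prop
  have h1 : HasDerivWithinAt (fun u => ∫ τ in (0 : ℝ)..u, gren ξ y x τ) (gren ξ y x t) (Ici t) t :=
    intervalIntegral.integral_hasDerivWithinAt_right (intervalIntegrable_gren ξ y x 0 t)
      ((measurable_gren ξ y x).stronglyMeasurable.stronglyMeasurableAtFilter) hc
  have h2 : HasDerivAt (fun s : ℝ => Real.exp (-((1 + ξ x) * s)))
      (Real.exp (-((1 + ξ x) * t)) * (-(1 + ξ x))) t := by
    have : HasDerivAt (fun s : ℝ => -((1 + ξ x) * s)) (-(1 + ξ x)) t := by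
      simpa using ((hasDerivAt_id t).const_mul (1 + ξ x)).fun_neg
    exact this.exp
  have h3 := h2.hasDerivWithinAt.fun_mul (h1.const_add (if y ≤ x then (1 : ℝ) else 0))
  have h4 : HasDerivWithinAt (fun s => V ξ y s x)
      (Real.exp (-((1 + ξ x) * t)) * (-(1 + ξ x)) *
        ((if y ≤ x then (1 : ℝ) else 0) + ∫ τ in (0 : ℝ)..t, gren ξ y x τ) +
        Real.exp (-((1 + ξ x) * t)) * gren ξ y x t) (Ici t) t :=
    h3.congr (fun s hs => V_formula ξ y x (hξ x) (ht.trans hs)) (V_formula ξ y x (hξ x) ht)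
  refine h4.congr_deriv ?_
  have e1 := V_formula ξ y x (hξ x) ht
  have e2 : Real.exp (-((1 + ξ x) * t)) * gren ξ y x t = Av ξ y x t + ξ x * Fv ξ y x t := by
    unfold gren
    rw [← mul_assoc, ← Real.exp_add]
    simp
  have e3 : Real.exp (-((1 + ξ x) * t)) * (-(1 + ξ x)) *
        ((if y ≤ x then (1 : ℝ) else 0) + ∫ τ in (0 : ℝ)..t, gren ξ y x τ) =
        -(1 + ξ x) * V ξ y t x := by
    rw [e1]; ring
  rw [e2, e3, Av, Fv]
  ring

/-- the environment as a bounded function -/
noncomputable def env {a b : ℝ} (ha : 0 < a) (h : ∀ x, a ≤ ξ x ∧ ξ x ≤ b) : Fn :=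
  BoundedContinuousFunction.ofNormedAddCommGroup ξ continuous_of_discreteTopology b
    (fun x => by
      rw [Real.norm_eq_abs, abs_of_nonneg (ha.le.trans (h x).1)]
      exact (h x).2)

theorem sol_V {a b : ℝ} (ha : 0 < a) (h : ∀ x, a ≤ ξ x ∧ ξ x ≤ b) :
    Sol (env ξ ha h) (V ξ y) where
  nonneg t x _ := V_nonneg ξ y t x
  le_one t x _ := V_le_one ξ y t x
  der _ x ht := V_deriv ξ y x (fun x => lt_of_lt_of_le ha (h x).1) ht
  cont x := V_cont ξ y x (lt_of_lt_of_le ha (h x).1)

theorem V_zero (hξ : 0 < ξ x) : V ξ y 0 x = ind y x := by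
  rw [V_formula ξ y x hξ le_rfl]
  simp

end Pool.Agent.Helper24.TB
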