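import Pool.Agent.Helper24.TB.Sol

/-! The two steps: growth at a fixed site, and the comparison of shifted fronts. -/

open Set Filter Topology BoundedContinuousFunction

namespace Pool.Agent.Helper24.TB

variable {ζ : Fn} {a b : ℝ} {v : ℝ → ℤ → ℝ}

/-- growth of a box subsolution -/
theorem Sol.box (h : Sol ζ v) (ha : 0 < a) (hζ : ∀ x, a ≤ ζ x) (hb : ∀ x, ζ x ≤ b) (R : ℕ)
    {θ hs h0 : ℝ} (hθ : θ = Real.pi / (2 * (R + 1))) (hhs : hs = 1 - (1 - Real.cos θ) / a)
    (hhs0 : 0 < hs) (hh0 : 0 < h0) (x0 : ℤ)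
    (hv : ∀ x : ℤ, |x - x0| ≤ R → h0 ≤ v 0 x) {t : ℝ} (ht : 0 ≤ t) :
    hs * h0 / (h0 + Real.exp (-(a * hs * t))) ≤ v t x0 := by
  have hζ0 : ∀ x, 0 ≤ ζ x := fun x => ha.le.trans (hζ x)
  have hb0 : 0 ≤ b := (hζ0 0).trans (hb 0)
  have hcos : Real.cos θ ≤ 1 := Real.cos_le_one _
  have hs1 : hs ≤ 1 := by
    rw [hhs]
    have : 0 ≤ (1 - Real.cos θ) / a := by
      have : 0 ≤ 1 - Real.cos θ := by linarith
      positivity
    linarith
  have hRpos : (0 : ℝ) < 2 * (R + 1) := by positivity
  -- the logistic function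
  set H : ℝ → ℝ := fun t => hs * h0 / (h0 + Real.exp (-(a * hs * t))) with hH
  have hHpos : ∀ t, 0 < H t := fun t => by
    have := Real.exp_pos (-(a * hs * t))
    rw [hH]; positivity
  have hHle : ∀ t, H t ≤ hs := fun t => by
    have := Real.exp_pos (-(a * hs * t))
    simp only [hH]
    rw [div_le_iff₀ (by positivity)]
    have : 0 < hs * Real.exp (-(a * hs * t)) := by positivity
    linarith
  have hHder : ∀ t, HasDerivAt H (a * H t * (hs - H t)) t := fun t => by
    have e1 : HasDerivAt (fun t : ℝ => h0 + Real.exp (-(a * hs * t)))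
        (Real.exp (-(a * hs * t)) * (-(a * hs))) t := by
      have : HasDerivAt (fun t : ℝ => -(a * hs * t)) (-(a * hs)) t := by
        simpa using ((hasDerivAt_id t).const_mul (a * hs)).fun_neg
      exact (this.exp).const_add h0
    have hne : h0 + Real.exp (-(a * hs * t)) ≠ 0 := by
      have := Real.exp_pos (-(a * hs * t))
      positivity
    have e2 := (hasDerivAt_const t (hs * h0)).fun_div e1 hne
    refine e2.congr_deriv ?_
    simp only [hH]
    field_simp
    ring
  -- values of the cosine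
  have hphi : ∀ x : ℤ, |x - x0| ≤ R → 0 ≤ Real.cos (θ * ((x : ℝ) - x0)) := by
    intro x hx
    apply Real.cos_nonneg_of_mem_Icc
    have h1 : |(x : ℝ) - x0| ≤ R := by
      have : ((|x - x0| : ℤ) : ℝ) ≤ R := by exact_mod_cast hx
      simpa using this
    have h2 := abs_le.1 h1
    have hp := Real.pi_pos
    have h3 : θ * (R + 1) = Real.pi / 2 := by
      rw [hθ]; field_simp
    have hθ0 : 0 < θ := by rw [hθ]; positivity
    constructor
    · have : θ * (-(R + 1)) ≤ θ * ((x : ℝ) - x0) := by
        gcongr; linarith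
      linarith
    · have : θ * ((x : ℝ) - x0) ≤ θ * (R + 1) := by
        gcongr; linarith
      linarith
  have hlap : ∀ x : ℤ, (Real.cos (θ * (((x + 1 : ℤ) : ℝ) - x0)) +
      Real.cos (θ * (((x - 1 : ℤ) : ℝ) - x0))) / 2 = Real.cos θ * Real.cos (θ * ((x : ℝ) - x0)) := by
    intro x
    have e1 : θ * (((x + 1 : ℤ) : ℝ) - x0) = θ * ((x : ℝ) - x0) + θ := by push_cast; ring
    have e2 : θ * (((x - 1 : ℤ) : ℝ) - x0) = θ * ((x : ℝ) - x0) - θ := by push_cast; ring
    rw [e1, e2, Real.cos_add, Real.cos_sub]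
    ring
  have hend : ∀ x : ℤ, |x - x0| = R + 1 → Real.cos (θ * ((x : ℝ) - x0)) = 0 := by
    intro x hx
    have h3 : θ * (R + 1) = Real.pi / 2 := by
      rw [hθ]; field_simp
    rcases abs_eq (by positivity : (0 : ℤ) ≤ (R : ℤ) + 1) |>.1 hx with h | h
    · have : (x : ℝ) - x0 = R + 1 := by exact_mod_cast h
      rw [this, h3, Real.cos_pi_div_two]
    · have : (x : ℝ) - x0 = -(R + 1) := by exact_mod_cast h
      rw [this, mul_neg, Real.cos_neg, h3, Real.cos_pi_div_two]
  classical
  have key := cmp2 (D := fun t x => H t * Real.cos (θ * ((x : ℝ) - x0)) - v t x)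
    (D' := fun t x => (a * H t * (hs - H t)) * Real.cos (θ * ((x : ℝ) - x0)) -
      ((v t (x + 1) + v t (x - 1)) / 2 - v t x + ζ x * (v t x * (1 - v t x))))
    (α := fun x => if |x - x0| ≤ R then 0 else t + 1) (T0 := 0) (T1 := t) (M := 1) (c := b)
    zero_le_one hb0
    (fun x => by
      split_ifs
      · exact le_rfl
      · linarith)
    (fun s x h1 h2 => by
      split_ifs at h1 with hx
      · have e1 := h.nonneg s x h1
        have e2 : H s * Real.cos (θ * ((x : ℝ) - x0)) ≤ 1 * 1 :=
          mul_le_mul ((hHle s).trans hs1) (Real.cos_le_one _) (hphi x hx) zero_le_one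
        linarith
      · linarith)
    (fun x => by
      split_ifs with hx
      · refine ContinuousOn.sub ?_ ((h.cont x).mono Icc_subset_Ici_self)
        exact fun s _ => ((hHder s).mul_const _).continuousAt.continuousWithinAt
      · rw [Icc_eq_empty (by linarith)]
        exact continuousOn_empty _)
    (fun x s h1 h2 => by
      split_ifs at h1 with hx
      · exact ((hHder s).mul_const _).hasDerivWithinAt.sub (h.der s x h1)
      · linarith)
    (fun x h1 => by
      split_ifs at h1 with hx
      · simp only [if_pos hx]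
        have e1 := hv x hx
        have e2 : H 0 * Real.cos (θ * ((x : ℝ) - x0)) ≤ H 0 * 1 :=
          mul_le_mul_of_nonneg_left (Real.cos_le_one _) (hHpos 0).le
        have e3 : H 0 ≤ h0 := by
          simp only [hH, mul_zero, neg_zero, Real.exp_zero]
          rw [div_le_iff₀ (by positivity)]
          nlinarith
        linarith
      · linarith)
    (fun x s h1 h2 => by
      split_ifs at h1 with hx
      · constructor
        · intro h3
          by_cases hx1 : |x + 1 - x0| ≤ R
          · rw [if_pos hx1] at h3; linarith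
          · have : |x + 1 - x0| = R + 1 := by
              refine le_antisymm ?_ (by omega)
              have : |x + 1 - x0| ≤ |x - x0| + 1 := by
                have := abs_add_le (x - x0) 1
                rw [abs_one] at this
                convert! this using 2
                ring
              omega
            rw [hend _ this, mul_zero]
            have := h.nonneg s (x + 1) h1
            linarith
        · intro h3
          by_cases hx1 : |x - 1 - x0| ≤ R
          · rw [if_pos hx1] at h3; linarith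
          · have : |x - 1 - x0| = R + 1 := by
              refine le_antisymm ?_ (by omega)
              have : |x - 1 - x0| ≤ |x - x0| + 1 := by
                have := abs_add_le (x - x0) (-1)
                rw [abs_neg, abs_one] at this
                convert! this using 2
                ring
              omega
            rw [hend _ this, mul_zero]
            have := h.nonneg s (x - 1) h1
            linarith
      · linarith)
    (fun x s h1 h2 h3 => by
      split_ifs at h1 with hx
      · have e1 := h.nonneg s x h1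
        have e2 := hζ x
        have e3 := hb x
        have e4 := hlap x
        have e5 := hphi x hx
        have e6 := Real.cos_le_one (θ * ((x : ℝ) - x0))
        have e7 := (hHpos s).le
        have e8 := (hHle s).trans hs1
        set φ := Real.cos (θ * ((x : ℝ) - x0)) with hφ
        set φ1 := Real.cos (θ * (((x + 1 : ℤ) : ℝ) - x0)) with hφ1
        set φ2 := Real.cos (θ * (((x - 1 : ℤ) : ℝ) - x0)) with hφ2
        -- main inequality: a H φ (1 - H) ≤ ζ z (1 - z), z = H φ
        have f1 : H s * φ ≤ H s := by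
          calc H s * φ ≤ H s * 1 := by gcongr
            _ = _ := mul_one _
        have f2 : 0 ≤ H s * φ := by positivity
        have f3 : a * (H s * φ) * (1 - H s) ≤ ζ x * (H s * φ) * (1 - H s * φ) := by
          have g1 : 0 ≤ 1 - H s := by linarith
          calc a * (H s * φ) * (1 - H s) ≤ ζ x * (H s * φ) * (1 - H s) := by gcongr
            _ ≤ ζ x * (H s * φ) * (1 - H s * φ) := by
                have : 0 ≤ ζ x * (H s * φ) := mul_nonneg (hζ0 x) f2
                gcongr
        have f4 : ζ x * (H s * φ - v s x) ≤ b * (H s * φ - v s x) :=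
          mul_le_mul_of_nonneg_right e3 h3.le
        have f5 : 0 ≤ ζ x * ((H s * φ - v s x) * (H s * φ + v s x)) :=
          mul_nonneg (hζ0 x) (mul_nonneg h3.le (by linarith))
        have f6 : a * H s * (hs - H s) * φ = a * (H s * φ) * (1 - H s) -
            (1 - Real.cos θ) * (H s * φ) := by
          rw [hhs]
          field_simp
          ring
        have f7 : (H s * φ1 + H s * φ2) / 2 = Real.cos θ * (H s * φ) := by
          calc (H s * φ1 + H s * φ2) / 2 = H s * ((φ1 + φ2) / 2) := by ring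
            _ = _ := by rw [e4]; ring
        rw [f6]
        nlinarith [f3, f4, f5, f7]
      · linarith)
  have h1 := key x0 t (by simp [ht]) le_rfl
  simp only [sub_self, mul_zero, Real.cos_zero, mul_one] at h1
  simp only [hH] at h1
  linarith

/-- Lemma G -/
theorem growth (ha : 0 < a) {ε : ℝ} (hε : 0 < ε) (hε1 : ε < 1) : ∃ s : ℝ, 0 ≤ s ∧
    ∀ (ζ : Fn) (_ : ∀ x, a ≤ ζ x) (_ : ∀ x, ζ x ≤ b) (v : ℝ → ℤ → ℝ) (_ : Sol ζ v) (t : ℝ)
      (_ : 0 ≤ t) (x : ℤ), (1 - ε) * v t x / (v t x + ε) ≤ v (t + s) x := by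
  -- choose R
  have h1 : Tendsto (fun R : ℕ => 1 - (1 - Real.cos (Real.pi / (2 * ((R : ℝ) + 1)))) / a) atTop
      (𝓝 (1 - (1 - Real.cos 0) / a)) := by
    have h2 : Tendsto (fun R : ℕ => Real.pi / (2 * ((R : ℝ) + 1))) atTop (𝓝 0) := by
      refine Tendsto.const_div_atTop ?_ _
      refine Tendsto.const_mul_atTop (by norm_num) ?_
      exact tendsto_natCast_atTop_atTop.atTop_add tendsto_const_nhds
    have h3 := (Real.continuous_cos.tendsto 0).comp h2
    exact (((h3.const_sub 1).div_const a).const_sub 1)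
  rw [Real.cos_zero, sub_self, zero_div, sub_zero] at h1
  obtain ⟨R, hR⟩ := (h1.eventually_const_lt (show 1 - ε < 1 by linarith)).exists
  set θ : ℝ := Real.pi / (2 * ((R : ℝ) + 1)) with hθ
  set hs : ℝ := 1 - (1 - Real.cos θ) / a with hhs
  have hs0 : 0 < hs := by linarith
  -- constant of spreading
  set c : ℝ := Real.exp (-1) * ((1 / 2) ^ R / (R.factorial : ℝ)) with hc
  have hc0 : 0 < c := by positivity
  -- choose the time
  have h4 : Tendsto (fun τ : ℝ => Real.exp (-(a * hs * τ)) / c) atTop (𝓝 (0 / c)) := by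
    refine Tendsto.div_const ?_ c
    refine Real.tendsto_exp_neg_atTop_nhds_zero.comp ?_
    exact Tendsto.const_mul_atTop (by positivity) tendsto_id
  rw [zero_div] at h4
  obtain ⟨τ, hτ⟩ := ((h4.eventually_lt_const hε).and (eventually_ge_atTop 0)).exists
  obtain ⟨hτ1, hτ0⟩ := hτ
  refine ⟨1 + τ, by linarith, fun ζ hζ hb v h t ht x => ?_⟩
  have hζ0 : ∀ x, 0 ≤ ζ x := fun x => ha.le.trans (hζ x)
  have hv0 := h.nonneg t x ht
  rcases hv0.eq_or_lt with hv | hv
  · rw [← hv, mul_zero, zero_div]
    exact h.nonneg _ _ (by linarith)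
  have h5 : ∀ z : ℤ, |z - x| ≤ R → c * v t x ≤ v (0 + (1 + t)) z := by
    intro z hz
    have h6 : ∀ r : ℕ, r ≤ R → c * v t x ≤ Real.exp (-1) * ((1 / 2) ^ r / (r.factorial : ℝ)) *
        v t x := by
      intro r hr
      refine mul_le_mul_of_nonneg_right ?_ hv0
      rw [hc]
      have g1 : (1 / 2 : ℝ) ^ R ≤ (1 / 2) ^ r :=
        pow_le_pow_of_le_one (by norm_num) (by norm_num) hr
      have g2 : (r.factorial : ℝ) ≤ R.factorial := by exact_mod_cast Nat.factorial_le hr
      gcongr
    rw [zero_add]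
    rcases le_total x z with hxz | hxz
    · obtain ⟨r, hr⟩ := Int.eq_ofNat_of_zero_le (show 0 ≤ z - x by linarith)
      have hr' : r ≤ R := by
        have : |z - x| = (r : ℤ) := by rw [hr]; simp
        omega
      refine (h6 r hr').trans ?_
      have := h.ge_left hζ0 ht zero_le_one z r
      have hz2 : z - (r : ℤ) = x := by linarith
      rwa [hz2] at this
    · obtain ⟨r, hr⟩ := Int.eq_ofNat_of_zero_le (show 0 ≤ x - z by linarith)
      have hr' : r ≤ R := by
        have : |z - x| = (r : ℤ) := by rw [abs_sub_comm, hr]; simp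
        omega
      refine (h6 r hr').trans ?_
      have := h.ge_right hζ0 ht zero_le_one z r
      have hz2 : z + (r : ℤ) = x := by linarith
      rwa [hz2] at this
  have h6 := (h.shift (show 0 ≤ 1 + t by linarith)).box ha hζ hb R hθ hhs hs0
    (h0 := c * v t x) (by positivity) x h5 hτ0
  have h7 : τ + (1 + t) = t + (1 + τ) := by ring
  rw [h7] at h6
  refine le_trans ?_ h6
  have h8 : hs * (c * v t x) / (c * v t x + Real.exp (-(a * hs * τ))) =
      hs * v t x / (v t x + Real.exp (-(a * hs * τ)) / c) := by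
    field_simp
  rw [h8]
  have h9 : 0 < v t x + Real.exp (-(a * hs * τ)) / c := by positivity
  gcongr

/-- Step 2 -/
theorem front (b s : ℝ) (hb0 : 0 ≤ b) (hs : 0 ≤ s) : ∃ B : ℝ, 1 + b ≤ B ∧ ∃ K0 : ℕ, ∀ K : ℕ,
    K0 ≤ K → ∀ (ζ : Fn) (_ : ∀ x, 0 ≤ ζ x) (_ : ∀ x, ζ x ≤ b) (y : ℤ) (v w : ℝ → ℤ → ℝ)
      (_ : Sol ζ v) (_ : Sol ζ w) (_ : ∀ x, v 0 x = ind y x) (_ : ∀ x, w 0 x = ind (y + K) x)
      (t : ℝ) (_ : 1 ≤ t) (x : ℤ) (_ : (y : ℝ) - x ≤ B * t),
      w (t + s) x ≤ Real.exp 1 * v t x := by
  set B : ℝ := max (max (Bfar b) (2 * (1 + b) * (1 + s))) 1 with hB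
  have hB1 : 1 ≤ B := le_max_right _ _
  have hB2 : Bfar b ≤ B := (le_max_left _ _).trans (le_max_left _ _)
  have hB3 : 2 * (1 + b) * (1 + s) ≤ B := (le_max_right _ _).trans (le_max_left _ _)
  have hB0 : 0 < B := by linarith
  obtain ⟨Kinit, hKinit⟩ : ∃ K : ℕ, ∀ k : ℕ, K ≤ k →
      Real.exp ((1 + b) * (1 + s) - k) ≤
        (1 / 2) ^ (⌈B⌉₊) / ((⌈B⌉₊).factorial : ℝ) := by
    have h1 : Tendsto (fun k : ℕ => Real.exp ((1 + b) * (1 + s) - k)) atTop (𝓝 0) := by
      refine Real.tendsto_exp_atBot.comp ?_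
      have : Tendsto (fun k : ℕ => -(k : ℝ)) atTop atBot :=
        tendsto_neg_atTop_atBot.comp tendsto_natCast_atTop_atTop
      simpa [sub_eq_add_neg] using tendsto_atBot_add_const_left atTop ((1 + b) * (1 + s)) this
    exact eventually_atTop.1 (h1.eventually_le_const
      (show 0 < (1 / 2 : ℝ) ^ (⌈B⌉₊) / ((⌈B⌉₊).factorial : ℝ) by positivity))
  have hwait : ∃ A : ℝ, 0 < A ∧ ∀ (ζ : Fn) (_ : ∀ x, 0 ≤ ζ x) (_ : ∀ x, ζ x ≤ b) (x : ℤ) (r : ℕ)
      (t : ℝ), 1 ≤ t → (r : ℝ) ≤ (B + 1) * t →
      S ζ (t + s) (ind (x + r)) x ≤ A * S ζ t (ind (x + r)) x := by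
    refine ⟨Real.exp (s * (Real.exp 1 * (1 + b) * (1 + s) +
      (B + 1) * Real.log (2 * (B + 1)))) + 1, by positivity, fun ζ h1 h2 x r t h3 h4 => ?_⟩
    exact S_wait_le' h1 h2 hs (by linarith) x r t h3 h4
  obtain ⟨A, hA0, hA⟩ := hwait
  obtain ⟨K1, hK1⟩ : ∃ K : ℕ, ∀ k : ℕ, K ≤ k → (1 / 2 : ℝ) ^ k ≤ 1 / (8 * b + 4) / A := by
    have h1 : Tendsto (fun k : ℕ => (1 / 2 : ℝ) ^ k) atTop (𝓝 0) :=
      tendsto_pow_atTop_nhds_zero_of_lt_one (by norm_num) (by norm_num)
    exact eventually_atTop.1 (h1.eventually_le_const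
      (show 0 < 1 / (8 * b + 4) / A by positivity))
  refine ⟨B, by nlinarith, max Kinit K1, fun K hK ζ hζ hb y v w hv hw hv0 hw0 t ht x hx => ?_⟩
  have hK2 : Kinit ≤ K := (le_max_left _ _).trans hK
  have hK3 : K1 ≤ K := (le_max_right _ _).trans hK
  have he1 : 1 ≤ Real.exp 1 := Real.one_le_exp zero_le_one
  -- lateral estimate
  have hlat : ∀ (x : ℤ) (t : ℝ), 1 ≤ t → B * t ≤ (y : ℝ) - x → (y : ℝ) - x ≤ B * t + 1 →
      w (t + s) x ≤ Real.exp 1 * v t x := by
    intro x t ht h1 h2
    have ht0 : 0 ≤ t := by linarith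
    have hBt : 0 ≤ B * t := by positivity
    obtain ⟨r, hr⟩ := Int.eq_ofNat_of_zero_le (show 0 ≤ y - x by
      have : (0 : ℝ) ≤ ((y - x : ℤ) : ℝ) := by push_cast; linarith
      exact_mod_cast this)
    have hyx : y = x + r := by linarith
    have hr2 : (y : ℝ) - x = r := by rw [hyx]; push_cast; ring
    rw [hr2] at h1 h2
    have e1 : w (t + s) x ≤ S ζ (t + s) (ind (y + K)) x :=
      hw.le_S hζ hb (ind_nonneg _) (fun z => (hw0 z).le) (by linarith) x
    have e2 : S ζ (t + s) (ind (y + K)) x ≤ (1 / 2) ^ K * S ζ (t + s) (ind (x + r)) x := by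
      rw [hyx]
      refine (S_shift_le hζ hb x r K (t := t + s) (by linarith)).trans ?_
      have f1 := S_nonneg hζ (ind_nonneg (x + r)) (show 0 ≤ t + s by linarith) x
      have f2 : (1 + b) * (t + s) / (r + 1) ≤ 1 / 2 := by
        rw [div_le_div_iff₀ (by positivity) (by norm_num)]
        have g1 : t + s ≤ (1 + s) * t := by nlinarith
        have g2 : 2 * (1 + b) * (1 + s) * t ≤ B * t := by gcongr
        have g3 : (1 + b) * (t + s) ≤ (1 + b) * ((1 + s) * t) := by gcongr
        linarith
      gcongr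
    have e3 := hA ζ hζ hb x r t ht (by linarith)
    have e4 := hv.ge_far hζ hb x r (by rw [← hyx]; exact hv0) ht0
      (le_trans (by gcongr) h1)
    have e5 := S_nonneg hζ (ind_nonneg (x + r)) ht0 x
    have e6 := hK1 K hK3
    have e7 : 0 ≤ v t x := hv.nonneg t x ht0
    have e8 := S_nonneg hζ (ind_nonneg (x + r)) (show 0 ≤ t + s by linarith) x
    calc w (t + s) x ≤ (1 / 2) ^ K * S ζ (t + s) (ind (x + r)) x := e1.trans e2
      _ ≤ (1 / (8 * b + 4) / A) * (A * S ζ t (ind (x + r)) x) := by gcongr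
      _ = 1 / (8 * b + 4) * S ζ t (ind (x + r)) x := by field_simp
      _ ≤ v t x := e4
      _ ≤ _ := le_mul_of_one_le_left e7 he1
  -- initial estimate
  have hinit : ∀ x : ℤ, (y : ℝ) - x ≤ B → w (1 + s) x ≤ Real.exp 1 * v 1 x := by
    intro x hx
    rcases le_or_gt y x with h1 | h1
    · have e1 := hv.ge_right hζ le_rfl zero_le_one x 0
      rw [hv0] at e1
      simp only [CharP.cast_eq_zero, add_zero, ind_apply, if_pos h1, pow_zero, Nat.factorial_zero,
        Nat.cast_one, div_one, mul_one] at e1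
      have e2 := hw.le_one (1 + s) x (by linarith)
      calc w (1 + s) x ≤ 1 := e2
        _ = Real.exp 1 * Real.exp (-1) := by rw [← Real.exp_add]; simp
        _ ≤ _ := by gcongr
    · obtain ⟨r, hr⟩ := Int.eq_ofNat_of_zero_le (show 0 ≤ y - x by linarith)
      have hyx : y = x + r := by linarith
      have hr2 : (y : ℝ) - x = r := by rw [hyx]; push_cast; ring
      have e1 := hv.ge_right hζ le_rfl zero_le_one x r
      rw [← hyx, hv0] at e1
      simp only [ind_apply, le_refl, if_true, mul_one, add_zero] at e1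
      have e2 := hw.le_exp hζ hb hw0 (show 0 ≤ 1 + s by linarith) x
      have e3 : Real.exp ((1 + b) * (1 + s) - (((y + K : ℤ) : ℝ) - x)) ≤
          Real.exp ((1 + b) * (1 + s) - K) := by
        rw [Real.exp_le_exp]
        have : (x : ℝ) < y := by exact_mod_cast h1
        push_cast
        linarith
      have e4 := hKinit K hK2
      have hrB : r ≤ ⌈B⌉₊ := by
        have : (r : ℝ) ≤ ⌈B⌉₊ := by
          rw [← hr2]; exact hx.trans (Nat.le_ceil B)
        exact_mod_cast this
      have e5 : (1 / 2 : ℝ) ^ (⌈B⌉₊) / ((⌈B⌉₊).factorial : ℝ) ≤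
          (1 / 2) ^ r / (r.factorial : ℝ) := by
        have g1 : (1 / 2 : ℝ) ^ (⌈B⌉₊) ≤ (1 / 2) ^ r :=
          pow_le_pow_of_le_one (by norm_num) (by norm_num) hrB
        have g2 : (r.factorial : ℝ) ≤ (⌈B⌉₊).factorial := by exact_mod_cast Nat.factorial_le hrB
        gcongr
      calc w (1 + s) x ≤ (1 / 2) ^ r / (r.factorial : ℝ) := ((e2.trans e3).trans e4).trans e5
        _ = Real.exp 1 * (Real.exp (-1) * ((1 / 2) ^ r / (r.factorial : ℝ))) := by
            rw [← mul_assoc, ← Real.exp_add]; simp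
        _ ≤ _ := by gcongr
  -- comparison
  have key := cmp2 (D := fun t x => w (t + s) x - Real.exp 1 * v t x)
    (D' := fun t x => ((w (t + s) (x + 1) + w (t + s) (x - 1)) / 2 - w (t + s) x +
        ζ x * (w (t + s) x * (1 - w (t + s) x))) - Real.exp 1 *
      ((v t (x + 1) + v t (x - 1)) / 2 - v t x + ζ x * (v t x * (1 - v t x))))
    (α := fun x => max 1 (((y : ℝ) - x) / B)) (T0 := 0) (T1 := t) (M := 1) (c := b)
    zero_le_one hb0
    (fun x => by positivity)
    (fun u x h1 h2 => by
      have h3 : 1 ≤ u := (le_max_left _ _).trans h1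
      have e1 := hv.nonneg u x (by linarith)
      have e2 := hw.le_one (u + s) x (by linarith)
      have e3 : 0 ≤ Real.exp 1 * v u x := by positivity
      linarith)
    (fun x => by
      have h0 : Icc (max 1 (((y : ℝ) - x) / B)) t ⊆ Ici 0 := fun u hu =>
        mem_Ici.2 (zero_le_one.trans ((le_max_left _ _).trans hu.1))
      exact (((hw.shift hs).cont x).mono h0).sub
        (continuousOn_const.mul ((hv.cont x).mono h0)))
    (fun x u h1 h2 => by
      have h3 : 0 ≤ u := zero_le_one.trans ((le_max_left _ _).trans h1)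
      exact ((hw.shift hs).der u x h3).sub ((hv.der u x h3).const_mul _))
    (fun x h1 => by
      rcases le_total (((y : ℝ) - x) / B) 1 with h2 | h2
      · simp only [max_eq_left h2]
        have := hinit x (by rwa [div_le_one hB0] at h2)
        linarith
      · simp only [max_eq_right h2]
        have h3 : B * (((y : ℝ) - x) / B) = (y : ℝ) - x := by field_simp
        have := hlat x (((y : ℝ) - x) / B) h2 h3.le (by linarith)
        linarith)
    (fun x u h1 h2 => by
      have h3 : 1 ≤ u := (le_max_left _ _).trans h1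
      have h4 : ((y : ℝ) - x) / B ≤ u := (le_max_right _ _).trans h1
      have h5 : (y : ℝ) - x ≤ B * u := by rwa [div_le_iff₀ hB0, mul_comm] at h4
      constructor
      · intro h6
        exfalso
        refine absurd h6 (not_lt.2 (max_le h3 ?_))
        rw [div_le_iff₀ hB0]
        push_cast
        linarith
      · intro h6
        have h7 : u < ((y : ℝ) - ((x - 1 : ℤ) : ℝ)) / B := by
          rcases lt_max_iff.1 h6 with h | h
          · linarith
          · exact h
        rw [lt_div_iff₀ hB0] at h7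
        have := hlat (x - 1) u h3 (by linarith) (by push_cast; linarith)
        linarith)
    (fun x u h1 h2 h3 => by
      have h4 : 0 ≤ u := zero_le_one.trans ((le_max_left _ _).trans h1)
      have e1 := hv.nonneg u x h4
      have e1' := hv.le_one u x h4
      have e2 := hw.nonneg (u + s) x (by linarith)
      have e3 := hζ x
      have e4 := hb x
      have f1 : ζ x * (w (u + s) x - Real.exp 1 * v u x) ≤
          b * (w (u + s) x - Real.exp 1 * v u x) := mul_le_mul_of_nonneg_right e4 h3.le
      have f2 : Real.exp 1 * v u x * v u x ≤ w (u + s) x * w (u + s) x := by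
        have g1 : v u x ≤ Real.exp 1 * v u x := le_mul_of_one_le_left e1 he1
        have g2 : Real.exp 1 * v u x ≤ w (u + s) x := by linarith
        exact mul_le_mul g2 (g1.trans g2) e1 e2
      have f3 := mul_le_mul_of_nonneg_left f2 e3
      linarith)
  have h1 : max 1 (((y : ℝ) - x) / B) ≤ t := by
    refine max_le ht ?_
    rw [div_le_iff₀ hB0]
    linarith
  have := key x t h1 le_rfl
  linarith

end Pool.Agent.Helper24.TB
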