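import Pool.Agent.Helper24.TB.Defs

/-! Measurability and the decomposition at the root. -/

open MeasureTheory ProbabilityTheory Set Filter Topology

namespace Pool.Agent.Helper24.TB

instance : IsProbabilityMeasure (expMeasure 1) := isProbabilityMeasure_expMeasure one_pos

instance : IsProbabilityMeasure coin := by
  constructor
  simp [coin]
  rw [ENNReal.inv_two_add_inv_two]

instance : IsProbabilityMeasure clockLaw := by unfold clockLaw; infer_instance

instance : IsProbabilityMeasure treeLaw := by unfold treeLaw; infer_instance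

instance : IsProbabilityMeasure law := by unfold law; infer_instance

/-- assemble a tree of clocks from the clocks of the root and the two subtrees -/
def join (p : Clock × (Tree × Tree)) : Tree
  | [] => p.1
  | false :: u => p.2.1 u
  | true :: u => p.2.2 u

theorem measurable_join : Measurable join := by
  refine measurable_pi_iff.2 fun w => ?_
  match w with
  | [] => exact measurable_fst
  | false :: u => exact (measurable_pi_apply u).comp (measurable_fst.comp measurable_snd)
  | true :: u => exact (measurable_pi_apply u).comp (measurable_snd.comp measurable_snd)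

theorem prod_split (s : Finset (List Bool)) (g : List Bool → ENNReal) :
    ∏ i ∈ s, g i = (if [] ∈ s then g [] else 1) *
      ((∏ u ∈ s.preimage (fun u => false :: u) (List.cons_injective.injOn), g (false :: u)) *
      ∏ u ∈ s.preimage (fun u => true :: u) (List.cons_injective.injOn), g (true :: u)) := by
  classical
  rw [Finset.prod_preimage', Finset.prod_preimage']
  have h1 : (if [] ∈ s then g [] else 1) = ∏ i ∈ s with i = [], g i := by
    simp [Finset.prod_filter]
  rw [h1, ← Finset.prod_union, ← Finset.prod_union]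
  · refine Finset.prod_congr ?_ fun _ _ => rfl
    ext i
    simp only [Finset.mem_union, Finset.mem_filter]
    match i with
    | [] => simp
    | false :: u => simp
    | true :: u => simp
  · rw [Finset.disjoint_left]
    intro i hi hi2
    simp only [Finset.mem_union, Finset.mem_filter] at hi hi2
    match i with
    | [] => simp at hi2
    | false :: u => simp at hi
    | true :: u => simp at hi
  · rw [Finset.disjoint_left]
    intro i hi hi2
    simp only [Finset.mem_filter] at hi hi2
    match i with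
    | [] => simp at hi2
    | false :: u => simp at hi2
    | true :: u => simp at hi

theorem map_join : (clockLaw.prod (treeLaw.prod treeLaw)).map join = treeLaw := by
  classical
  refine Measure.eq_infinitePi _ fun s t ht => ?_
  rw [Measure.map_apply measurable_join (MeasurableSet.pi s.countable_toSet fun i _ => ht i)]
  have h1 : join ⁻¹' (Set.pi s t) = (if [] ∈ s then t [] else univ) ×ˢ
      ((Set.pi (s.preimage (fun u => false :: u) (List.cons_injective.injOn))
        fun u => t (false :: u)) ×ˢ
      (Set.pi (s.preimage (fun u => true :: u) (List.cons_injective.injOn))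
        fun u => t (true :: u))) := by
    ext p
    simp only [mem_preimage, Set.mem_pi, Finset.mem_coe, mem_prod, Finset.mem_preimage]
    constructor
    · intro h
      refine ⟨?_, fun u hu => h _ hu, fun u hu => h _ hu⟩
      split_ifs with h2
      · exact h [] h2
      · trivial
    · rintro ⟨h2, h3, h4⟩ i hi
      match i with
      | [] => rw [if_pos hi] at h2; exact h2
      | false :: u => exact h3 u hi
      | true :: u => exact h4 u hi
  rw [h1, Measure.prod_prod, Measure.prod_prod, prod_split]
  have h2 : ∀ (s' : Finset (List Bool)) (c : Bool), treeLaw (Set.pi s' fun u => t (c :: u)) =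
      ∏ u ∈ s', clockLaw (t (c :: u)) := fun s' c =>
    Measure.infinitePi_pi _ fun i _ => ht _
  rw [h2, h2]
  congr 1
  split_ifs <;> simp

theorem treeLaw_apply {E : Set Tree} (hE : MeasurableSet E) :
    treeLaw E = (clockLaw.prod (treeLaw.prod treeLaw)) (join ⁻¹' E) := by
  rw [← Measure.map_apply measurable_join hE, map_join]

/-- joint measurability of `AliveAt` -/
theorem measurableSet_alive (ξ : ℤ → ℝ) (w : List Bool) (x y : ℤ) :
    MeasurableSet {p : ℝ × Tree | AliveAt ξ w p.2 x p.1 y} := by
  have m1 : Measurable fun p : ℝ × Tree => (p.2 []).1 := by fun_prop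
  have m2 : Measurable fun p : ℝ × Tree => (p.2 []).2.1 / ξ x := by fun_prop
  induction w generalizing x with
  | nil =>
    simp only [AliveAt]
    refine (measurableSet_le measurable_const measurable_fst).inter
      ((measurableSet_lt measurable_fst m1).inter ((measurableSet_lt measurable_fst m2).inter ?_))
    exact MeasurableSet.const _
  | cons c w ih =>
    have hm2 : ∀ x, Measurable fun p : ℝ × Tree => (p.2 []).2.1 / ξ x := fun x => by fun_prop
    have ih' : ∀ x, MeasurableSet {p : ℝ × Tree | AliveAt ξ w p.2 x p.1 y} :=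
      fun x => ih x (hm2 x)
    have hsub : Measurable fun p : ℝ × Tree => (fun u => p.2 (c :: u) : Tree) :=
      measurable_pi_iff.2 fun u => (measurable_pi_apply _).comp measurable_snd
    -- the two branches
    have hJ : MeasurableSet {p : ℝ × Tree | AliveAt ξ w (fun u => p.2 (c :: u))
        (x + jump (p.2 []).2.2) (p.1 - (p.2 []).1) y} := by
      have e1 : ∀ d : Bool, MeasurableSet {p : ℝ × Tree | AliveAt ξ w (fun u => p.2 (c :: u))
        (x + jump d) (p.1 - (p.2 []).1) y} := fun d =>
        ((measurable_fst.sub m1).prodMk hsub) (ih' (x + jump d))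
      have e2 : ∀ d : Bool, MeasurableSet {p : ℝ × Tree | (p.2 []).2.2 = d} := fun d => by
        have : Measurable fun p : ℝ × Tree => (p.2 []).2.2 := by fun_prop
        exact this (measurableSet_singleton d)
      have e3 : {p : ℝ × Tree | AliveAt ξ w (fun u => p.2 (c :: u))
          (x + jump (p.2 []).2.2) (p.1 - (p.2 []).1) y} =
          ⋃ d : Bool, ({p : ℝ × Tree | (p.2 []).2.2 = d} ∩
            {p : ℝ × Tree | AliveAt ξ w (fun u => p.2 (c :: u))
              (x + jump d) (p.1 - (p.2 []).1) y}) := by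
        ext p
        simp only [mem_ofPred_eq, mem_iUnion, mem_inter_iff]
        constructor
        · intro h
          exact ⟨_, rfl, h⟩
        · rintro ⟨d, h1, h2⟩
          rw [h1]
          exact h2
      rw [e3]
      exact MeasurableSet.iUnion fun d => (e2 d).inter (e1 d)
    have hS : MeasurableSet {p : ℝ × Tree | AliveAt ξ w (fun u => p.2 (c :: u)) x
        (p.1 - (p.2 []).2.1 / ξ x) y} :=
      ((measurable_fst.sub m2).prodMk hsub) (ih' x)
    have e4 : {p : ℝ × Tree | AliveAt ξ (c :: w) p.2 x p.1 y} =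
        ({p : ℝ × Tree | (p.2 []).1 ≤ (p.2 []).2.1 / ξ x} ∩
          ({p : ℝ × Tree | (p.2 []).1 ≤ p.1} ∩ ({p : ℝ × Tree | c = false} ∩
            {p : ℝ × Tree | AliveAt ξ w (fun u => p.2 (c :: u))
              (x + jump (p.2 []).2.2) (p.1 - (p.2 []).1) y}))) ∪
        ({p : ℝ × Tree | (p.2 []).1 ≤ (p.2 []).2.1 / ξ x}ᶜ ∩
          ({p : ℝ × Tree | (p.2 []).2.1 / ξ x ≤ p.1} ∩
            {p : ℝ × Tree | AliveAt ξ w (fun u => p.2 (c :: u)) x
              (p.1 - (p.2 []).2.1 / ξ x) y})) := by
      ext p
      simp only [AliveAt, mem_ofPred_eq, mem_union, mem_inter_iff, mem_compl_iff]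
      split_ifs with h <;> simp [h]
    rw [e4]
    exact ((measurableSet_le m1 m2).inter ((measurableSet_le m1 measurable_fst).inter
      ((MeasurableSet.const _).inter hJ))).union
      ((measurableSet_le m1 m2).compl.inter ((measurableSet_le m2 measurable_fst).inter hS))

/-- the event that some descendant is at `y` or to the right of `y` at time `t` -/
def Ev (ξ : ℤ → ℝ) (y : ℤ) (t : ℝ) (x : ℤ) : Set Tree :=
  {ω | ∃ (w : List Bool) (y' : ℤ), y ≤ y' ∧ AliveAt ξ w ω x t y'}

theorem measurableSet_Ev' (ξ : ℤ → ℝ) (y x : ℤ) :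
    MeasurableSet {p : ℝ × Tree | p.2 ∈ Ev ξ y p.1 x} := by
  have : {p : ℝ × Tree | p.2 ∈ Ev ξ y p.1 x} = ⋃ (w : List Bool) (y' : ℤ) (_ : y ≤ y'),
      {p : ℝ × Tree | AliveAt ξ w p.2 x p.1 y'} := by
    ext p
    simp [Ev]
  rw [this]
  exact MeasurableSet.iUnion fun w => MeasurableSet.iUnion fun y' =>
    MeasurableSet.iUnion fun _ => measurableSet_alive ξ w x y'

theorem measurableSet_Ev (ξ : ℤ → ℝ) (y : ℤ) (t : ℝ) (x : ℤ) : MeasurableSet (Ev ξ y t x) :=
  (measurable_const.prodMk measurable_id) (measurableSet_Ev' ξ y x)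

/-- the probability that some descendant is at `y` or to the right of `y` at time `t` -/
noncomputable def V (ξ : ℤ → ℝ) (y : ℤ) (t : ℝ) (x : ℤ) : ℝ := treeLaw.real (Ev ξ y t x)

theorem V_nonneg (ξ : ℤ → ℝ) (y : ℤ) (t : ℝ) (x : ℤ) : 0 ≤ V ξ y t x := measureReal_nonneg

theorem V_le_one (ξ : ℤ → ℝ) (y : ℤ) (t : ℝ) (x : ℤ) : V ξ y t x ≤ 1 := measureReal_le_one

theorem measurable_V (ξ : ℤ → ℝ) (y x : ℤ) : Measurable fun t => V ξ y t x :=
  (measurable_measure_prodMk_left (ν := treeLaw) (measurableSet_Ev' ξ y x)).ennreal_toReal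

/-- membership in `Ev` in terms of the root and the subtrees -/
theorem mem_Ev_join (ξ : ℤ → ℝ) (y : ℤ) {t : ℝ} (ht : 0 ≤ t) (x : ℤ)
    (p : Clock × (Tree × Tree)) : join p ∈ Ev ξ y t x ↔
      (t < p.1.1 ∧ t < p.1.2.1 / ξ x ∧ y ≤ x) ∨
      (p.1.1 ≤ p.1.2.1 / ξ x ∧ p.1.1 ≤ t ∧ p.2.1 ∈ Ev ξ y (t - p.1.1) (x + jump p.1.2.2)) ∨
      (p.1.2.1 / ξ x < p.1.1 ∧ p.1.2.1 / ξ x ≤ t ∧
        (p.2.1 ∈ Ev ξ y (t - p.1.2.1 / ξ x) x ∨ p.2.2 ∈ Ev ξ y (t - p.1.2.1 / ξ x) x)) := by
  constructor
  · rintro ⟨w, y', hy, hw⟩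
    match w with
    | [] =>
      obtain ⟨h1, h2, h3, h4⟩ := hw
      left
      refine ⟨h2, h3, ?_⟩
      rw [← h4]; exact hy
    | c :: w =>
      right
      rw [AliveAt] at hw
      split_ifs at hw with h
      · left
        obtain ⟨h1, h2, h3⟩ := hw
        subst h2
        exact ⟨h, h1, w, y', hy, h3⟩
      · right
        obtain ⟨h1, h3⟩ := hw
        refine ⟨not_le.1 h, h1, ?_⟩
        cases c with
        | false => left; exact ⟨w, y', hy, h3⟩
        | true => right; exact ⟨w, y', hy, h3⟩
  · rintro (⟨h1, h2, h3⟩ | ⟨h1, h2, w, y', hy, h3⟩ | ⟨h1, h2, h3⟩)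
    · exact ⟨[], x, h3, ht, h1, h2, rfl⟩
    · refine ⟨false :: w, y', hy, ?_⟩
      rw [AliveAt, if_pos (show (join p []).1 ≤ (join p []).2.1 / ξ x from h1)]
      exact ⟨h2, rfl, h3⟩
    · rcases h3 with ⟨w, y', hy, h3⟩ | ⟨w, y', hy, h3⟩
      · refine ⟨false :: w, y', hy, ?_⟩
        rw [AliveAt, if_neg (show ¬ (join p []).1 ≤ (join p []).2.1 / ξ x from not_le.2 h1)]
        exact ⟨h2, h3⟩
      · refine ⟨true :: w, y', hy, ?_⟩
        rw [AliveAt, if_neg (show ¬ (join p []).1 ≤ (join p []).2.1 / ξ x from not_le.2 h1)]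
        exact ⟨h2, h3⟩

end Pool.Agent.Helper24.TB
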